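import Pool.Agent.H212R2.KLS.T1

/-!
# The harmonic inequality of Ball and Busemann in dimension one
-/

set_option autoImplicit false

namespace Pool.Agent.Helper57K1.LM

open MeasureTheory Set Filter Topology
open scoped ENNReal NNReal

/-- level set comparison: a minimum form of the normalised one-dimensional Prekopa-Leindler
inequality -/
theorem pl_min (t : ℝ) (ht0 : 0 < t) (ht1 : t < 1)
    (f g h : ℝ → ℝ) (hf : Measurable f) (hg : Measurable g) (hh : Measurable h)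
    (f0 : ∀ x, 0 ≤ f x) (g0 : ∀ x, 0 ≤ g x) (h0 : ∀ x, 0 ≤ h x)
    (f1 : ∀ x, f x ≤ 1) (g1 : ∀ x, g x ≤ 1)
    (hfs : ∀ s, s < 1 → ∃ x, s < f x) (hgs : ∀ s, s < 1 → ∃ x, s < g x)
    (H : ∀ x y, min (f x) (g y) ≤ h ((1 - t) * x + t * y)) :
    ENNReal.ofReal (1 - t) * (∫⁻ x, ENNReal.ofReal (f x)) +
      ENNReal.ofReal t * (∫⁻ x, ENNReal.ofReal (g x))
      ≤ ∫⁻ x, ENNReal.ofReal (h x) := by
  rw [lintegral_eq_lintegral_meas_lt volume (Filter.Eventually.of_forall f0) hf.aemeasurable,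
    lintegral_eq_lintegral_meas_lt volume (Filter.Eventually.of_forall g0) hg.aemeasurable,
    lintegral_eq_lintegral_meas_lt volume (Filter.Eventually.of_forall h0) hh.aemeasurable]
  have hm : ∀ k : ℝ → ℝ, Measurable (fun s : ℝ => volume {a : ℝ | s < k a}) := fun k =>
    (Antitone.measurable (fun s t hst => measure_mono (fun a (ha : t < k a) =>
      show s < k a from lt_of_le_of_lt hst ha)))
  rw [← lintegral_const_mul _ (hm f), ← lintegral_const_mul _ (hm g),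
    ← lintegral_add_left ((hm f).const_mul _)]
  refine setLIntegral_mono' measurableSet_Ioi ?_
  intro s hs
  have hs0 : 0 < s := hs
  by_cases hs1 : s < 1
  · refine Pool.Agent.H212R2.KLS.PLt.bm t ht0 ht1 (hf measurableSet_Ioi) (hg measurableSet_Ioi)
      (hfs s hs1) (hgs s hs1) ?_
    intro x hx y hy
    have hx' : s < f x := hx
    have hy' : s < g y := hy
    exact (lt_min hx' hy').trans_le (H x y)
  · push Not at hs1
    have e1 : {a : ℝ | s < f a} = ∅ := by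
      ext a; simp; linarith [f1 a]
    have e2 : {a : ℝ | s < g a} = ∅ := by
      ext a; simp; linarith [g1 a]
    simp [e1, e2]

/-- the function `e^{-w(1/ρ)} / ρ^2` on the half line -/
noncomputable def Fw (w : ℝ → ℝ) (ρ : ℝ) : ℝ :=
  if 0 < ρ then Real.exp (-w ρ⁻¹) / ρ ^ 2 else 0

lemma Fw_nonneg (w : ℝ → ℝ) (ρ : ℝ) : 0 ≤ Fw w ρ := by
  unfold Fw; split_ifs <;> positivity

lemma Fw_pos {w : ℝ → ℝ} {ρ : ℝ} (h : 0 < ρ) : 0 < Fw w ρ := by
  unfold Fw; rw [if_pos h]; positivity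

lemma Fw_meas {w : ℝ → ℝ} (hw : Measurable w) : Measurable (Fw w) := by
  unfold Fw
  refine Measurable.ite measurableSet_Ioi ?_ measurable_const
  exact ((hw.comp measurable_inv).neg.exp).div (measurable_id.pow_const 2)

lemma Fw_int {w : ℝ → ℝ} (_hw : Measurable w) :
    ∫⁻ ρ, ENNReal.ofReal (Fw w ρ) = ∫⁻ s in Ioi (0 : ℝ), ENNReal.ofReal (Real.exp (-w s)) := by
  have h1 : ∫⁻ ρ, ENNReal.ofReal (Fw w ρ) =
      ∫⁻ ρ in Ioi (0 : ℝ), ENNReal.ofReal (Real.exp (-w ρ⁻¹) / ρ ^ 2) := by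
    rw [← lintegral_indicator measurableSet_Ioi]
    refine lintegral_congr fun ρ => ?_
    unfold Fw
    by_cases h : 0 < ρ
    · rw [if_pos h, indicator_of_mem (show ρ ∈ Ioi (0 : ℝ) from h)]
    · rw [if_neg h, indicator_of_notMem (show ρ ∉ Ioi (0 : ℝ) from h)]
      simp
  rw [h1]
  have h2 : Ioi (0 : ℝ) = (fun ρ : ℝ => ρ⁻¹) '' Ioi (0 : ℝ) := by
    ext x
    constructor
    · intro hx
      exact ⟨x⁻¹, mem_Ioi.2 (inv_pos.2 (mem_Ioi.1 hx)), inv_inv x⟩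
    · rintro ⟨y, hy, rfl⟩
      exact mem_Ioi.2 (inv_pos.2 (mem_Ioi.1 hy))
  conv_rhs => rw [h2]
  rw [lintegral_image_eq_lintegral_abs_deriv_mul measurableSet_Ioi
    (f' := fun ρ => -(ρ ^ 2)⁻¹) (fun ρ hρ => (hasDerivAt_inv (ne_of_gt hρ)).hasDerivWithinAt)
    (fun a _ b _ hab => inv_injective hab)]
  refine setLIntegral_congr_fun measurableSet_Ioi fun ρ hρ => ?_
  have hρ' : (0 : ℝ) < ρ := hρ
  rw [← ENNReal.ofReal_mul (abs_nonneg _), abs_neg, abs_of_pos (by positivity)]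
  congr 1
  rw [div_eq_inv_mul]

/-- weights in the harmonic mean: the value of the third function is bounded along harmonic
combinations -/
def Harm (l : ℝ) (w₀ w₁ w : ℝ → ℝ) : Prop :=
  ∀ ρ₀ ρ₁ : ℝ, 0 < ρ₀ → 0 < ρ₁ →
    w (((1 - l) * ρ₀ + l * ρ₁)⁻¹) ≤ ((1 - l) * ρ₀ / ((1 - l) * ρ₀ + l * ρ₁)) * w₀ ρ₀⁻¹ +
      (l * ρ₁ / ((1 - l) * ρ₀ + l * ρ₁)) * w₁ ρ₁⁻¹

lemma Fw_key {l : ℝ} (hl0 : 0 < l) (hl1 : l < 1) {w₀ w₁ w : ℝ → ℝ} (h : Harm l w₀ w₁ w)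
    {ρ₀ ρ₁ : ℝ} (h0 : 0 < ρ₀) (h1 : 0 < ρ₁) :
    ((1 - l) * ρ₀ + l * ρ₁) * Real.exp (w (((1 - l) * ρ₀ + l * ρ₁)⁻¹) / 2) ≤
      (1 - l) * (ρ₀ * Real.exp (w₀ ρ₀⁻¹ / 2)) + l * (ρ₁ * Real.exp (w₁ ρ₁⁻¹ / 2)) := by
  have hl1' : 0 < 1 - l := by linarith
  set ρ := (1 - l) * ρ₀ + l * ρ₁ with hρ
  have hρ0 : 0 < ρ := by positivity
  set θ₀ := (1 - l) * ρ₀ / ρ with hθ₀
  set θ₁ := l * ρ₁ / ρ with hθ₁
  have e0 : 0 ≤ θ₀ := by positivity
  have e1 : 0 ≤ θ₁ := by positivity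
  have es : θ₀ + θ₁ = 1 := by
    rw [hθ₀, hθ₁, ← add_div, ← hρ, div_self hρ0.ne']
  have hc := (convexOn_exp).2 (mem_univ (w₀ ρ₀⁻¹ / 2)) (mem_univ (w₁ ρ₁⁻¹ / 2)) e0 e1 es
  simp only [smul_eq_mul] at hc
  have h2 : Real.exp (w ρ⁻¹ / 2) ≤ Real.exp (θ₀ * (w₀ ρ₀⁻¹ / 2) + θ₁ * (w₁ ρ₁⁻¹ / 2)) := by
    apply Real.exp_le_exp.2
    have := h ρ₀ ρ₁ h0 h1
    rw [← hρ, ← hθ₀, ← hθ₁] at this
    linarith
  calc ρ * Real.exp (w ρ⁻¹ / 2) ≤ ρ * (θ₀ * Real.exp (w₀ ρ₀⁻¹ / 2) +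
        θ₁ * Real.exp (w₁ ρ₁⁻¹ / 2)) :=
        mul_le_mul_of_nonneg_left (h2.trans hc) hρ0.le
    _ = (ρ * θ₀) * Real.exp (w₀ ρ₀⁻¹ / 2) + (ρ * θ₁) * Real.exp (w₁ ρ₁⁻¹ / 2) := by ring
    _ = _ := by
      have a0 : ρ * θ₀ = (1 - l) * ρ₀ := by rw [hθ₀]; field_simp
      have a1 : ρ * θ₁ = l * ρ₁ := by rw [hθ₁]; field_simp
      rw [a0, a1]; ring

lemma Fw_inv {w : ℝ → ℝ} {ρ : ℝ} (h : 0 < ρ) :
    Fw w ρ = 1 / (ρ * Real.exp (w ρ⁻¹ / 2)) ^ 2 := by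
  unfold Fw
  rw [if_pos h, mul_pow, ← Real.exp_nat_mul]
  push_cast
  rw [show 2 * (w ρ⁻¹ / 2) = w ρ⁻¹ by ring, Real.exp_neg]
  field_simp

/-- **Ball's harmonic inequality** for functions with linear growth -/
theorem harmonic {l : ℝ} (hl0 : 0 < l) (hl1 : l < 1) {w₀ w₁ w : ℝ → ℝ}
    (hw₀ : Measurable w₀) (hw₁ : Measurable w₁) (hw : Measurable w)
    {c C : ℝ} (hc : 0 < c) (h0 : ∀ s, 0 < s → c * s - C ≤ w₀ s)
    (h1 : ∀ s, 0 < s → c * s - C ≤ w₁ s) (h : Harm l w₀ w₁ w) {I₀ I₁ : ℝ} (hI₀ : 0 < I₀)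
    (hI₁ : 0 < I₁)
    (e0 : ∫⁻ s in Ioi (0 : ℝ), ENNReal.ofReal (Real.exp (-w₀ s)) = ENNReal.ofReal I₀)
    (e1 : ∫⁻ s in Ioi (0 : ℝ), ENNReal.ofReal (Real.exp (-w₁ s)) = ENNReal.ofReal I₁) :
    ENNReal.ofReal (1 / ((1 - l) / I₀ + l / I₁)) ≤
      ∫⁻ s in Ioi (0 : ℝ), ENNReal.ofReal (Real.exp (-w s)) := by
  have hl1' : 0 < 1 - l := by linarith
  -- the functions are bounded
  have bdd : ∀ v : ℝ → ℝ, (∀ s, 0 < s → c * s - C ≤ v s) → BddAbove (range (Fw v)) := by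
    intro v hv
    refine ⟨Real.exp C * (2 / c ^ 2), ?_⟩
    rintro _ ⟨ρ, rfl⟩
    by_cases hρ : 0 < ρ
    · unfold Fw
      rw [if_pos hρ]
      have h2 : Real.exp (-v ρ⁻¹) ≤ Real.exp C * Real.exp (-(c * ρ⁻¹)) := by
        rw [← Real.exp_add]
        apply Real.exp_le_exp.2
        have := hv ρ⁻¹ (inv_pos.2 hρ)
        linarith
      have h3 : Real.exp (-(c * ρ⁻¹)) ≤ 2 / (c * ρ⁻¹) ^ 2 := by
        rw [Real.exp_neg, inv_eq_one_div, div_le_div_iff₀ (Real.exp_pos _) (by positivity)]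
        have := Real.quadratic_le_exp_of_nonneg (show 0 ≤ c * ρ⁻¹ by positivity)
        nlinarith [show 0 < c * ρ⁻¹ by positivity]
      rw [div_le_iff₀ (by positivity)]
      refine h2.trans ?_
      calc Real.exp C * Real.exp (-(c * ρ⁻¹)) ≤ Real.exp C * (2 / (c * ρ⁻¹) ^ 2) := by gcongr
        _ = Real.exp C * (2 / c ^ 2) * ρ ^ 2 := by field_simp
    · unfold Fw
      rw [if_neg hρ]
      positivity
  set M₀ := ⨆ ρ, Fw w₀ ρ with hM₀
  set M₁ := ⨆ ρ, Fw w₁ ρ with hM₁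
  have b0 := bdd w₀ h0
  have b1 := bdd w₁ h1
  have le0 : ∀ ρ, Fw w₀ ρ ≤ M₀ := fun ρ => le_ciSup b0 ρ
  have le1 : ∀ ρ, Fw w₁ ρ ≤ M₁ := fun ρ => le_ciSup b1 ρ
  have M0 : 0 < M₀ := (Fw_pos (w := w₀) one_pos).trans_le (le0 1)
  have M1 : 0 < M₁ := (Fw_pos (w := w₁) one_pos).trans_le (le1 1)
  set μ₀ := 1 / √M₀ with hμ₀
  set μ₁ := 1 / √M₁ with hμ₁
  have s0 : 0 < √M₀ := Real.sqrt_pos.2 M0
  have s1 : 0 < √M₁ := Real.sqrt_pos.2 M1
  have p0 : 0 < μ₀ := by positivity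
  have p1 : 0 < μ₁ := by positivity
  have q0 : μ₀ ^ 2 = 1 / M₀ := by rw [hμ₀, div_pow, Real.sq_sqrt M0.le, one_pow]
  have q1 : μ₁ ^ 2 = 1 / M₁ := by rw [hμ₁, div_pow, Real.sq_sqrt M1.le, one_pow]
  set μ := (1 - l) * μ₀ + l * μ₁ with hμ
  have hμ0 : 0 < μ := by positivity
  have key := pl_min l hl0 hl1 (fun ρ => μ₀ ^ 2 * Fw w₀ ρ) (fun ρ => μ₁ ^ 2 * Fw w₁ ρ)
    (fun ρ => μ ^ 2 * Fw w ρ) ((Fw_meas hw₀).const_mul _) ((Fw_meas hw₁).const_mul _)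
    ((Fw_meas hw).const_mul _) (fun x => mul_nonneg (by positivity) (Fw_nonneg _ _))
    (fun x => mul_nonneg (by positivity) (Fw_nonneg _ _))
    (fun x => mul_nonneg (by positivity) (Fw_nonneg _ _))
    (fun x => by
      simp only [q0]
      rw [one_div, inv_mul_le_iff₀ M0, mul_one]; exact le0 x)
    (fun x => by
      simp only [q1]
      rw [one_div, inv_mul_le_iff₀ M1, mul_one]; exact le1 x)
    (fun s hs => by
      have h2 : s * M₀ < M₀ := by nlinarith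
      obtain ⟨x, hx⟩ := exists_lt_of_lt_ciSup h2
      refine ⟨x, ?_⟩
      simp only [q0]
      rw [one_div, lt_inv_mul_iff₀ M0, mul_comm]
      exact hx)
    (fun s hs => by
      have h2 : s * M₁ < M₁ := by nlinarith
      obtain ⟨x, hx⟩ := exists_lt_of_lt_ciSup h2
      refine ⟨x, ?_⟩
      simp only [q1]
      rw [one_div, lt_inv_mul_iff₀ M1, mul_comm]
      exact hx)
    (by
      intro x y
      by_cases hx : 0 < x
      · by_cases hy : 0 < y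
        · set q := min (μ₀ ^ 2 * Fw w₀ x) (μ₁ ^ 2 * Fw w₁ y) with hq
          have hq0 : 0 < q := lt_min (mul_pos (by positivity) (Fw_pos hx))
            (mul_pos (by positivity) (Fw_pos hy))
          set A := x * Real.exp (w₀ x⁻¹ / 2) with hA
          set B := y * Real.exp (w₁ y⁻¹ / 2) with hB
          have hA0 : 0 < A := by positivity
          have hB0 : 0 < B := by positivity
          have r1 : q ≤ μ₀ ^ 2 * (1 / A ^ 2) := by
            rw [hA, ← Fw_inv hx]; exact min_le_left _ _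
          have r2 : q ≤ μ₁ ^ 2 * (1 / B ^ 2) := by
            rw [hB, ← Fw_inv hy]; exact min_le_right _ _
          have sq : 0 < √q := Real.sqrt_pos.2 hq0
          have sq2 : √q ^ 2 = q := Real.sq_sqrt hq0.le
          have r3 : √q * A ≤ μ₀ := by
            rw [mul_one_div, le_div_iff₀ (by positivity), ← sq2, ← mul_pow] at r1
            exact le_of_sq_le_sq r1 p0.le
          have r4 : √q * B ≤ μ₁ := by
            rw [mul_one_div, le_div_iff₀ (by positivity), ← sq2, ← mul_pow] at r2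
            exact le_of_sq_le_sq r2 p1.le
          have hz : 0 < (1 - l) * x + l * y := by positivity
          rw [Fw_inv hz]
          set D := ((1 - l) * x + l * y) * Real.exp (w (((1 - l) * x + l * y)⁻¹) / 2) with hD
          have hD0 : 0 < D := by positivity
          have hk : D ≤ (1 - l) * A + l * B := Fw_key hl0 hl1 h hx hy
          have r5 : √q * D ≤ μ := by
            calc √q * D ≤ √q * ((1 - l) * A + l * B) := by gcongr
              _ = (1 - l) * (√q * A) + l * (√q * B) := by ring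
              _ ≤ μ := by rw [hμ]; gcongr
          rw [mul_one_div, le_div_iff₀ (by positivity), ← sq2, ← mul_pow]
          gcongr
        · refine (min_le_right _ _).trans ?_
          have : Fw w₁ y = 0 := by unfold Fw; rw [if_neg hy]
          rw [this, mul_zero]
          exact mul_nonneg (by positivity) (Fw_nonneg _ _)
      · refine (min_le_left _ _).trans ?_
        have : Fw w₀ x = 0 := by unfold Fw; rw [if_neg hx]
        rw [this, mul_zero]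
        exact mul_nonneg (by positivity) (Fw_nonneg _ _))
  have ee : ∀ (a : ℝ) (v : ℝ → ℝ), 0 ≤ a → Measurable v →
      ∫⁻ ρ, ENNReal.ofReal (a * Fw v ρ) =
        ENNReal.ofReal a * ∫⁻ s in Ioi (0 : ℝ), ENNReal.ofReal (Real.exp (-v s)) := by
    intro a v ha hv
    rw [← Fw_int hv, ← lintegral_const_mul _ (Fw_meas hv).ennreal_ofReal]
    refine lintegral_congr fun ρ => ?_
    rw [ENNReal.ofReal_mul ha]
  rw [ee _ _ (by positivity) hw₀, ee _ _ (by positivity) hw₁, ee _ _ (by positivity) hw, e0, e1,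
    ← ENNReal.ofReal_mul (show 0 ≤ μ₀ ^ 2 by positivity),
    ← ENNReal.ofReal_mul (show 0 ≤ μ₁ ^ 2 by positivity),
    ← ENNReal.ofReal_mul hl1'.le, ← ENNReal.ofReal_mul hl0.le,
    ← ENNReal.ofReal_add (by positivity) (by positivity)] at key
  -- Cauchy-Schwarz
  have hcs : μ ^ 2 ≤ ((1 - l) * (μ₀ ^ 2 * I₀) + l * (μ₁ ^ 2 * I₁)) *
      ((1 - l) / I₀ + l / I₁) := by
    have e : ((1 - l) * (μ₀ ^ 2 * I₀) + l * (μ₁ ^ 2 * I₁)) * ((1 - l) / I₀ + l / I₁) - μ ^ 2 =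
        (1 - l) * l * (μ₀ * I₀ - μ₁ * I₁) ^ 2 / (I₀ * I₁) := by
      rw [hμ]; field_simp; ring
    have : 0 ≤ (1 - l) * l * (μ₀ * I₀ - μ₁ * I₁) ^ 2 / (I₀ * I₁) := by positivity
    linarith
  have hfin : ENNReal.ofReal (μ ^ 2) * ENNReal.ofReal (1 / ((1 - l) / I₀ + l / I₁)) ≤
      ENNReal.ofReal (μ ^ 2) * ∫⁻ s in Ioi (0 : ℝ), ENNReal.ofReal (Real.exp (-w s)) := by
    refine le_trans ?_ key
    rw [← ENNReal.ofReal_mul (by positivity)]
    apply ENNReal.ofReal_le_ofReal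
    rw [mul_one_div, div_le_iff₀ (by positivity)]
    exact hcs
  have hne : ENNReal.ofReal (μ ^ 2) ≠ 0 := by
    rw [Ne, ENNReal.ofReal_eq_zero, not_le]; positivity
  exact (ENNReal.mul_le_mul_iff_right hne ENNReal.ofReal_ne_top).1 hfin

end Pool.Agent.Helper57K1.LM
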