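import Pool.Agent.Helper57K1.LM.A

/-!
# Balanced translations
-/

set_option autoImplicit false

namespace Pool.Agent.Helper57K1.LM

open MeasureTheory Set Filter Topology
open scoped ENNReal NNReal

/-- the Laplace transform of `e^{-w}` on the half line -/
noncomputable def Lap (w : ℝ → ℝ) (a : ℝ) : ℝ≥0∞ :=
  ∫⁻ s in Ioi (0 : ℝ), ENNReal.ofReal (Real.exp (-w s + a * s))

lemma Lap_mono (w : ℝ → ℝ) : Monotone (Lap w) := by
  intro a b hab
  refine setLIntegral_mono' measurableSet_Ioi fun s hs => ?_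
  apply ENNReal.ofReal_le_ofReal
  apply Real.exp_le_exp.2
  have hs' : (0 : ℝ) < s := hs
  nlinarith

lemma Lap_shift (w : ℝ → ℝ) (a b : ℝ) : Lap (fun s => w s - a * s) b = Lap w (a + b) := by
  unfold Lap
  refine lintegral_congr fun s => ?_
  congr 2
  ring

lemma Lap_zero (w : ℝ → ℝ) :
    Lap w 0 = ∫⁻ s in Ioi (0 : ℝ), ENNReal.ofReal (Real.exp (-w s)) := by
  unfold Lap
  refine lintegral_congr fun s => ?_
  congr 2
  ring

variable {w : ℝ → ℝ}

lemma conv_cont (hw : ConvexOn ℝ univ w) : Continuous w := by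
  have := hw.continuousOn isOpen_univ
  exact continuousOn_univ.1 this

lemma conv_lin (hw : ConvexOn ℝ univ w) (a : ℝ) : ConvexOn ℝ univ fun s => w s - a * s := by
  refine ⟨convex_univ, fun x _ y _ c d hc hd hcd => ?_⟩
  have h := hw.2 (mem_univ x) (mem_univ y) hc hd hcd
  simp only [smul_eq_mul] at h ⊢
  nlinarith

lemma conv_neg (hw : ConvexOn ℝ univ w) : ConvexOn ℝ univ fun s => w (-s) := by
  refine ⟨convex_univ, fun x _ y _ c d hc hd hcd => ?_⟩
  have h := hw.2 (mem_univ (-x)) (mem_univ (-y)) hc hd hcd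
  simp only [smul_eq_mul] at h ⊢
  have e : -(c * x + d * y) = c * -x + d * -y := by ring
  rw [e]
  exact h

lemma Lap_pos (w : ℝ → ℝ) (hw : Measurable w) (a : ℝ) : 0 < Lap w a := by
  unfold Lap
  rw [lintegral_pos_iff_support (by fun_prop)]
  have : Function.support (fun s => ENNReal.ofReal (Real.exp (-w s + a * s))) = univ := by
    apply eq_univ_of_forall
    intro s
    simp [Real.exp_pos]
  rw [this]
  simp

/-- exponential decay -/
lemma decay (hw : ConvexOn ℝ univ w) (h : Lap w 0 ≠ ⊤) :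
    ∃ c C : ℝ, 0 < c ∧ ∀ s, 0 < s → c * s - C ≤ w s := by
  obtain ⟨s₁, hs₁, h1⟩ : ∃ s₁, 0 < s₁ ∧ w 0 < w s₁ := by
    by_contra hcon
    push Not at hcon
    apply h
    rw [Lap_zero]
    refine eq_top_iff.2 ?_
    calc (⊤ : ℝ≥0∞) = ∫⁻ _s in Ioi (0 : ℝ), ENNReal.ofReal (Real.exp (-w 0)) := by
          rw [setLIntegral_const, Real.volume_Ioi, ENNReal.mul_top]
          rw [Ne, ENNReal.ofReal_eq_zero, not_le]
          exact Real.exp_pos _
      _ ≤ _ := by
          refine setLIntegral_mono' measurableSet_Ioi fun s hs => ?_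
          apply ENNReal.ofReal_le_ofReal
          apply Real.exp_le_exp.2
          have := hcon s hs
          linarith
  set c := (w s₁ - w 0) / s₁ with hc
  have hc0 : 0 < c := div_pos (by linarith) hs₁
  have hcs : c * s₁ = w s₁ - w 0 := by rw [hc]; field_simp
  refine ⟨c, |w 0| + s₁ * |w (-1) - w 0| + c * s₁, hc0, fun s hs => ?_⟩
  rcases le_total s₁ s with h2 | h2
  · have h3 := hw.2 (mem_univ 0) (mem_univ s) (show 0 ≤ 1 - s₁ / s by
      rw [sub_nonneg, div_le_one hs]; exact h2) (show 0 ≤ s₁ / s by positivity) (by ring)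
    simp only [smul_eq_mul] at h3
    have e : (1 - s₁ / s) * 0 + s₁ / s * s = s₁ := by field_simp; ring
    rw [e] at h3
    have h4 : s * w s₁ ≤ (s - s₁) * w 0 + s₁ * w s := by
      have := mul_le_mul_of_nonneg_left h3 hs.le
      have e2 : s * ((1 - s₁ / s) * w 0 + s₁ / s * w s) = (s - s₁) * w 0 + s₁ * w s := by
        field_simp
      rwa [e2] at this
    have h5 : s₁ * (c * s + w 0) ≤ s₁ * w s := by nlinarith
    have h6 : c * s + w 0 ≤ w s := le_of_mul_le_mul_left h5 hs₁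
    have := neg_abs_le (w 0)
    have : 0 ≤ s₁ * |w (-1) - w 0| := by positivity
    nlinarith
  · have h3 := hw.2 (mem_univ (-1)) (mem_univ s) (show 0 ≤ s / (1 + s) by positivity)
      (show 0 ≤ 1 / (1 + s) by positivity) (by field_simp; ring)
    simp only [smul_eq_mul] at h3
    have e : s / (1 + s) * -1 + 1 / (1 + s) * s = 0 := by field_simp; ring
    rw [e] at h3
    have h4 : (1 + s) * w 0 ≤ s * w (-1) + w s := by
      have := mul_le_mul_of_nonneg_left h3 (show 0 ≤ 1 + s by linarith)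
      have e2 : (1 + s) * (s / (1 + s) * w (-1) + 1 / (1 + s) * w s) = s * w (-1) + w s := by
        field_simp
      rwa [e2] at this
    have h5 : s * (w (-1) - w 0) ≤ s₁ * |w (-1) - w 0| := by
      calc s * (w (-1) - w 0) ≤ s * |w (-1) - w 0| := by gcongr; exact le_abs_self _
        _ ≤ _ := by gcongr
    have := neg_abs_le (w 0)
    nlinarith

lemma Lap_open (hw : ConvexOn ℝ univ w) {a : ℝ} (h : Lap w a ≠ ⊤) :
    ∃ b, a < b ∧ Lap w b ≠ ⊤ := by
  have h0 : Lap (fun s => w s - a * s) 0 ≠ ⊤ := by rw [Lap_shift, add_zero]; exact h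
  obtain ⟨c, C, hc, h1⟩ := decay (conv_lin hw a) h0
  refine ⟨a + c / 2, by linarith, ?_⟩
  rw [← Lap_shift]
  have h2 : Lap (fun s => w s - a * s) (c / 2) ≤
      ∫⁻ s in Ioi (0 : ℝ), ENNReal.ofReal (Real.exp C * Real.exp (-(c / 2) * s)) := by
    refine setLIntegral_mono' measurableSet_Ioi fun s hs => ?_
    apply ENNReal.ofReal_le_ofReal
    rw [← Real.exp_add]
    apply Real.exp_le_exp.2
    have := h1 s hs
    nlinarith
  refine ne_top_of_le_ne_top ?_ h2
  have h3 : IntegrableOn (fun s => Real.exp C * Real.exp (-(c / 2) * s)) (Ioi 0) :=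
    (exp_neg_integrableOn_Ioi 0 (by positivity)).const_mul _
  exact h3.lintegral_lt_top.ne

lemma Lap_cont (hw : ConvexOn ℝ univ w) : Continuous (Lap w) := by
  have hwc := conv_cont hw
  rw [continuous_iff_continuousAt]
  intro a
  unfold ContinuousAt
  by_cases h : Lap w a = ⊤
  · -- lower semicontinuity
    rw [h]
    apply ENNReal.tendsto_nhds_top_iff_nnreal.2
    intro M
    have h1 : (⊤ : ℝ≥0∞) ≤ liminf (fun b => Lap w b) (𝓝 a) := by
      rw [← h]
      have h2 := lintegral_liminf_le (μ := volume.restrict (Ioi (0 : ℝ))) (u := 𝓝 a)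
        (f := fun b s => ENNReal.ofReal (Real.exp (-w s + b * s))) (fun b => by fun_prop)
      refine le_trans (le_of_eq ?_) h2
      unfold Lap
      refine lintegral_congr fun s => ?_
      symm
      apply Tendsto.liminf_eq
      apply ENNReal.tendsto_ofReal
      have : Continuous fun b : ℝ => Real.exp (-w s + b * s) := by fun_prop
      exact this.tendsto a
    exact eventually_lt_of_lt_liminf (lt_of_lt_of_le ENNReal.coe_lt_top h1)
  · obtain ⟨b, hab, hb⟩ := Lap_open hw h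
    refine tendsto_lintegral_filter_of_dominated_convergence
      (fun s => ENNReal.ofReal (Real.exp (-w s + b * s))) ?_ ?_ hb ?_
    · exact Eventually.of_forall fun c => by fun_prop
    · filter_upwards [Iio_mem_nhds hab] with c hc
      refine (ae_restrict_iff' measurableSet_Ioi).2 (Eventually.of_forall fun s hs => ?_)
      apply ENNReal.ofReal_le_ofReal
      apply Real.exp_le_exp.2
      have hs' : (0 : ℝ) < s := hs
      have hc' : c < b := hc
      nlinarith
    · refine Eventually.of_forall fun s => ?_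
      apply ENNReal.tendsto_ofReal
      have : Continuous fun b : ℝ => Real.exp (-w s + b * s) := by fun_prop
      exact this.tendsto a

lemma Lap_large (hw : ConvexOn ℝ univ w) {B : ℝ≥0∞} (hB : B ≠ ⊤) :
    ∃ a, 0 ≤ a ∧ B ≤ Lap w a := by
  have hwc := conv_cont hw
  set k : ℝ≥0∞ := ∫⁻ s in Ioi (1 : ℝ), ENNReal.ofReal (Real.exp (-w s)) with hk
  have hk0 : 0 < k := by
    rw [hk, lintegral_pos_iff_support (by fun_prop)]
    have : Function.support (fun s => ENNReal.ofReal (Real.exp (-w s))) = univ := by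
      apply eq_univ_of_forall
      intro s
      simp [Real.exp_pos]
    rw [this]
    simp
  have h1 : ∀ a, 0 ≤ a → ENNReal.ofReal (Real.exp a) * k ≤ Lap w a := by
    intro a ha
    rw [hk, ← lintegral_const_mul _ (by fun_prop)]
    unfold Lap
    calc ∫⁻ s in Ioi (1 : ℝ), ENNReal.ofReal (Real.exp a) * ENNReal.ofReal (Real.exp (-w s))
        ≤ ∫⁻ s in Ioi (1 : ℝ), ENNReal.ofReal (Real.exp (-w s + a * s)) := by
          refine setLIntegral_mono' measurableSet_Ioi fun s hs => ?_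
          rw [← ENNReal.ofReal_mul (Real.exp_pos _).le, ← Real.exp_add]
          apply ENNReal.ofReal_le_ofReal
          apply Real.exp_le_exp.2
          have hs' : (1 : ℝ) < s := hs
          nlinarith
      _ ≤ _ := lintegral_mono_set (Ioi_subset_Ioi zero_le_one)
  rcases eq_or_ne k ⊤ with hkt | hkt
  · refine ⟨0, le_rfl, ?_⟩
    have := h1 0 le_rfl
    rw [hkt, Real.exp_zero, ENNReal.ofReal_one, one_mul] at this
    exact le_trans le_top this
  · have hD : B / k ≠ ⊤ := ENNReal.div_ne_top hB hk0.ne'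
    refine ⟨(B / k).toReal, ENNReal.toReal_nonneg, ?_⟩
    refine le_trans ?_ (h1 _ ENNReal.toReal_nonneg)
    calc B = (B / k) * k := (ENNReal.div_mul_cancel hk0.ne' hkt).symm
      _ ≤ _ := by
        gcongr
        rw [← ENNReal.ofReal_toReal hD]
        apply ENNReal.ofReal_le_ofReal
        have := Real.add_one_le_exp (B / k).toReal
        rw [ENNReal.toReal_ofReal ENNReal.toReal_nonneg]
        linarith

lemma Harm.shift {l : ℝ} (hl0 : 0 < l) (hl1 : l < 1) {w₀ w₁ w : ℝ → ℝ} (h : Harm l w₀ w₁ w)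
    (u : ℝ) : Harm l (fun s => w₀ s - (l * u) * s) (fun s => w₁ s - (-((1 - l) * u)) * s) w := by
  intro ρ₀ ρ₁ h0 h1
  have h2 := h ρ₀ ρ₁ h0 h1
  have hl1' : 0 < 1 - l := by linarith
  refine h2.trans (le_of_eq ?_)
  have hρ : 0 < (1 - l) * ρ₀ + l * ρ₁ := by positivity
  field_simp
  ring

/-- **Ball's harmonic inequality** for half lines, in terms of `Lap` -/
theorem harm_lap {l : ℝ} (hl0 : 0 < l) (hl1 : l < 1) {w₀ w₁ w : ℝ → ℝ}
    (hw₀ : ConvexOn ℝ univ w₀) (hw₁ : ConvexOn ℝ univ w₁) (hw : Measurable w)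
    (h : Harm l w₀ w₁ w) (u : ℝ) (h0 : Lap w₀ (l * u) ≠ ⊤) (h1 : Lap w₁ (-((1 - l) * u)) ≠ ⊤) :
    ENNReal.ofReal (1 / ((1 - l) / (Lap w₀ (l * u)).toReal +
      l / (Lap w₁ (-((1 - l) * u))).toReal)) ≤ Lap w 0 := by
  have c0 := conv_lin hw₀ (l * u)
  have c1 := conv_lin hw₁ (-((1 - l) * u))
  have e0 : Lap (fun s => w₀ s - (l * u) * s) 0 = Lap w₀ (l * u) := by rw [Lap_shift, add_zero]
  have e1 : Lap (fun s => w₁ s - (-((1 - l) * u)) * s) 0 = Lap w₁ (-((1 - l) * u)) := by
    rw [Lap_shift, add_zero]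
  obtain ⟨a₀, C₀, ha₀, d0⟩ := decay c0 (by rw [e0]; exact h0)
  obtain ⟨a₁, C₁, ha₁, d1⟩ := decay c1 (by rw [e1]; exact h1)
  have hp0 := Lap_pos w₀ (conv_cont hw₀).measurable (l * u)
  have hp1 := Lap_pos w₁ (conv_cont hw₁).measurable (-((1 - l) * u))
  rw [Lap_zero]
  refine harmonic hl0 hl1 (conv_cont c0).measurable (conv_cont c1).measurable hw
    (c := min a₀ a₁) (C := max C₀ C₁) (lt_min ha₀ ha₁) ?_ ?_ (h.shift hl0 hl1 u)
    (ENNReal.toReal_pos hp0.ne' h0) (ENNReal.toReal_pos hp1.ne' h1) ?_ ?_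
  · intro s hs
    refine le_trans ?_ (d0 s hs)
    have : min a₀ a₁ * s ≤ a₀ * s := by gcongr; exact min_le_left _ _
    linarith [le_max_left C₀ C₁]
  · intro s hs
    refine le_trans ?_ (d1 s hs)
    have : min a₀ a₁ * s ≤ a₁ * s := by gcongr; exact min_le_right _ _
    linarith [le_max_right C₀ C₁]
  · rw [← Lap_zero, e0, ENNReal.ofReal_toReal h0]
  · rw [← Lap_zero, e1, ENNReal.ofReal_toReal h1]

/-- **balanced form** -/
theorem balanced {l : ℝ} (hl0 : 0 < l) (hl1 : l < 1) {w₀ w₁ w : ℝ → ℝ}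
    (hw₀ : ConvexOn ℝ univ w₀) (hw₁ : ConvexOn ℝ univ w₁) (hw : Measurable w)
    (h : Harm l w₀ w₁ w)
    (hn : Harm l (fun s => w₀ (-s)) (fun s => w₁ (-s)) (fun s => w (-s)))
    (hf₀ : Lap w₀ 0 + Lap (fun s => w₀ (-s)) 0 ≠ ⊤)
    (hf₁ : Lap w₁ 0 + Lap (fun s => w₁ (-s)) 0 ≠ ⊤) {m : ℝ≥0∞}
    (hm₀ : ∀ a, m ≤ Lap w₀ a + Lap (fun s => w₀ (-s)) (-a))
    (hm₁ : ∀ a, m ≤ Lap w₁ a + Lap (fun s => w₁ (-s)) (-a)) :
    m ≤ Lap w 0 + Lap (fun s => w (-s)) 0 := by
  have hl1' : 0 < 1 - l := by linarith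
  set v₀ : ℝ → ℝ := fun s => w₀ (-s) with hv₀
  set v₁ : ℝ → ℝ := fun s => w₁ (-s) with hv₁
  have hvc₀ : ConvexOn ℝ univ v₀ := conv_neg hw₀
  have hvc₁ : ConvexOn ℝ univ v₁ := conv_neg hw₁
  have pw₀ := fun a => Lap_pos w₀ (conv_cont hw₀).measurable a
  have pw₁ := fun a => Lap_pos w₁ (conv_cont hw₁).measurable a
  have pv₀ := fun a => Lap_pos v₀ (conv_cont hvc₀).measurable a
  have pv₁ := fun a => Lap_pos v₁ (conv_cont hvc₁).measurable a
  have f0 : Lap w₀ 0 ≠ ⊤ := (ENNReal.add_ne_top.1 hf₀).1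
  have f0' : Lap v₀ 0 ≠ ⊤ := (ENNReal.add_ne_top.1 hf₀).2
  have f1 : Lap w₁ 0 ≠ ⊤ := (ENNReal.add_ne_top.1 hf₁).1
  have f1' : Lap v₁ 0 ≠ ⊤ := (ENNReal.add_ne_top.1 hf₁).2
  set P : ℝ → ℝ≥0∞ := fun u => Lap w₀ (l * u) * Lap v₁ ((1 - l) * u) with hP
  set Q : ℝ → ℝ≥0∞ := fun u => Lap v₀ (-(l * u)) * Lap w₁ (-((1 - l) * u)) with hQ
  have hPc : Continuous P := by
    rw [continuous_iff_continuousAt]
    intro u
    exact ENNReal.Tendsto.mul (((Lap_cont hw₀).comp (continuous_const.mul continuous_id)).tendsto u)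
      (Or.inl (pw₀ _).ne') (((Lap_cont hvc₁).comp (continuous_const.mul continuous_id)).tendsto u)
      (Or.inl (pv₁ _).ne')
  have hQc : Continuous Q := by
    rw [continuous_iff_continuousAt]
    intro u
    exact ENNReal.Tendsto.mul
      (((Lap_cont hvc₀).comp (continuous_const.mul continuous_id).neg).tendsto u)
      (Or.inl (pv₀ _).ne')
      (((Lap_cont hw₁).comp (continuous_const.mul continuous_id).neg).tendsto u)
      (Or.inl (pw₁ _).ne')
  -- values of the two products on half lines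
  have hP0 : P 0 ≠ ⊤ := by
    simp only [hP, mul_zero]
    exact ENNReal.mul_ne_top f0 f1'
  have hQ0 : Q 0 ≠ ⊤ := by
    simp only [hQ, mul_zero, neg_zero]
    exact ENNReal.mul_ne_top f0' f1
  have hPm : Monotone P := by
    intro a b hab
    simp only [hP]
    gcongr
    · exact Lap_mono _ (by gcongr)
    · exact Lap_mono _ (by gcongr)
  have hQa : Antitone Q := by
    intro a b hab
    simp only [hQ]
    gcongr
    · exact Lap_mono _ (by simp only [neg_le_neg_iff]; gcongr)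
    · exact Lap_mono _ (by simp only [neg_le_neg_iff]; gcongr)
  obtain ⟨u, hu⟩ : ∃ u, P u = Q u := by
    -- large `u`
    obtain ⟨u₁, hu₁⟩ : ∃ u₁, Q u₁ ≤ P u₁ := by
      obtain ⟨a, ha, hB⟩ := Lap_large hw₀ (ENNReal.div_ne_top hQ0 (pv₁ 0).ne')
      refine ⟨a / l, ?_⟩
      have h1 : Q (a / l) ≤ Q 0 := hQa (by positivity)
      refine h1.trans ?_
      simp only [hP]
      have e : l * (a / l) = a := by field_simp
      rw [e]
      calc Q 0 = Q 0 / Lap v₁ 0 * Lap v₁ 0 := (ENNReal.div_mul_cancel (pv₁ 0).ne' f1').symm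
        _ ≤ Lap w₀ a * Lap v₁ ((1 - l) * (a / l)) := by
          gcongr
          exact Lap_mono _ (by positivity)
    obtain ⟨u₂, hu₂⟩ : ∃ u₂, P u₂ ≤ Q u₂ := by
      obtain ⟨a, ha, hB⟩ := Lap_large hvc₀ (ENNReal.div_ne_top hP0 (pw₁ 0).ne')
      refine ⟨-(a / l), ?_⟩
      have h1 : P (-(a / l)) ≤ P 0 := hPm (by
        have : 0 ≤ a / l := by positivity
        linarith)
      refine h1.trans ?_
      simp only [hQ]
      have e : -(l * -(a / l)) = a := by field_simp
      rw [e]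
      calc P 0 = P 0 / Lap w₁ 0 * Lap w₁ 0 := (ENNReal.div_mul_cancel (pw₁ 0).ne' f1).symm
        _ ≤ Lap v₀ a * Lap w₁ (-((1 - l) * -(a / l))) := by
          gcongr
          refine Lap_mono _ ?_
          have : 0 ≤ (1 - l) * (a / l) := by positivity
          linarith
    exact intermediate_value_univ₂ hPc hQc hu₂ hu₁
  -- everything is finite at `u`
  have hfin : P u ≠ ⊤ := by
    rcases le_total 0 u with h0 | h0
    · rw [hu]; exact ne_top_of_le_ne_top hQ0 (hQa h0)
    · exact ne_top_of_le_ne_top hP0 (hPm h0)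
  have hfinQ : Q u ≠ ⊤ := hu ▸ hfin
  have g0 : Lap w₀ (l * u) ≠ ⊤ := by
    intro h'
    apply hfin
    simp only [hP, h']
    exact ENNReal.top_mul (pv₁ _).ne'
  have g1 : Lap v₁ ((1 - l) * u) ≠ ⊤ := by
    intro h'
    apply hfin
    simp only [hP, h']
    exact ENNReal.mul_top (pw₀ _).ne'
  have g2 : Lap v₀ (-(l * u)) ≠ ⊤ := by
    intro h'
    apply hfinQ
    simp only [hQ, h']
    exact ENNReal.top_mul (pw₁ _).ne'
  have g3 : Lap w₁ (-((1 - l) * u)) ≠ ⊤ := by
    intro h'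
    apply hfinQ
    simp only [hQ, h']
    exact ENNReal.mul_top (pv₀ _).ne'
  have r1 := harm_lap hl0 hl1 hw₀ hw₁ hw h u g0 g3
  have r2 := harm_lap hl0 hl1 hvc₀ hvc₁ (hw.comp measurable_neg) hn (-u)
    (by rw [mul_neg]; exact g2) (by rw [mul_neg, neg_neg]; exact g1)
  rw [mul_neg, mul_neg, neg_neg] at r2
  set bp := (Lap w₀ (l * u)).toReal with hbp
  set bm := (Lap v₀ (-(l * u))).toReal with hbm
  set cp := (Lap w₁ (-((1 - l) * u))).toReal with hcp
  set cm := (Lap v₁ ((1 - l) * u)).toReal with hcm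
  have B1 : 0 < bp := ENNReal.toReal_pos (pw₀ _).ne' g0
  have B2 : 0 < bm := ENNReal.toReal_pos (pv₀ _).ne' g2
  have B3 : 0 < cp := ENNReal.toReal_pos (pw₁ _).ne' g3
  have B4 : 0 < cm := ENNReal.toReal_pos (pv₁ _).ne' g1
  have hbal : bp * cm = bm * cp := by
    have := congrArg ENNReal.toReal hu
    simp only [hP, hQ, ENNReal.toReal_mul] at this
    exact this
  have m0 : m ≤ ENNReal.ofReal (bp + bm) := by
    refine (hm₀ (l * u)).trans (le_of_eq ?_)
    rw [ENNReal.ofReal_add B1.le B2.le, hbp, hbm, ENNReal.ofReal_toReal g0,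
      ENNReal.ofReal_toReal g2]
  have m1 : m ≤ ENNReal.ofReal (cp + cm) := by
    refine (hm₁ (-((1 - l) * u))).trans (le_of_eq ?_)
    rw [neg_neg, ENNReal.ofReal_add B3.le B4.le, hcp, hcm, ENNReal.ofReal_toReal g3,
      ENNReal.ofReal_toReal g1]
  refine le_trans ?_ (add_le_add r1 r2)
  rw [← ENNReal.ofReal_add (by positivity) (by positivity)]
  refine le_trans (le_min m0 m1) ?_
  rw [← ENNReal.ofReal_min]
  apply ENNReal.ofReal_le_ofReal
  -- the final computation
  set b := bp + bm with hb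
  set c := cp + cm with hc
  have hb0 : 0 < b := by positivity
  have hc0 : 0 < c := by positivity
  have e1 : cp = c * (bp / b) := by
    field_simp
    rw [hb, hc]
    linarith
  have e2 : cm = c * (bm / b) := by
    field_simp
    rw [hb, hc]
    linarith
  have e3 : 1 / ((1 - l) / bp + l / cp) + 1 / ((1 - l) / bm + l / cm) =
      1 / ((1 - l) / b + l / c) := by
    rw [e1, e2]
    field_simp
    exact hb.symm
  rw [e3, le_div_iff₀ (by positivity)]
  have i1 : min b c * ((1 - l) / b) ≤ 1 - l := by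
    rw [mul_div_assoc', div_le_iff₀ hb0, mul_comm]
    gcongr
    exact min_le_left _ _
  have i2 : min b c * (l / c) ≤ l := by
    rw [mul_div_assoc', div_le_iff₀ hc0, mul_comm]
    gcongr
    exact min_le_right _ _
  linarith

end Pool.Agent.Helper57K1.LM
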