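import Pool.Agent.Helper57K1.LM.B
import Pool.Agent.Y513.LPM.C

/-!
# Sections of log-concave functions of two variables, decompositions of the measure
-/

set_option autoImplicit false

namespace Pool.Agent.Helper57K1.LM

open MeasureTheory Set Filter Topology
open scoped ENNReal NNReal

/-- the total mass `∫ exp (-W(s, t s) + a s) ds` -/
noncomputable def Tot (W : ℝ × ℝ → ℝ) (t a : ℝ) : ℝ≥0∞ :=
  ∫⁻ s : ℝ, ENNReal.ofReal (Real.exp (-W (s, t * s) + a * s))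

lemma lintegral_halves (f : ℝ → ℝ≥0∞) :
    ∫⁻ s, f s = (∫⁻ s in Ioi (0 : ℝ), f s) + ∫⁻ s in Ioi (0 : ℝ), f (-s) := by
  have h1 : ∫⁻ s, f s = (∫⁻ s in Ioi (0 : ℝ), f s) + ∫⁻ s in Iic (0 : ℝ), f s := by
    rw [← lintegral_add_compl f (measurableSet_Ioi (a := (0 : ℝ))), compl_Ioi]
  rw [h1]
  congr 1
  rw [restrict_Iio_eq_restrict_Iic.symm]
  have h2 := (Measure.measurePreserving_neg (volume : Measure ℝ)).setLIntegral_comp_preimage_emb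
    (MeasurableEquiv.neg ℝ).measurableEmbedding f (Iio (0 : ℝ))
  rw [← h2]
  congr 1
  congr 1
  ext x
  simp

lemma Tot_eq (W : ℝ × ℝ → ℝ) (t a₀ a : ℝ) :
    Tot W t (a₀ + a) = Lap (fun s => W (s, t * s) - a₀ * s) a +
      Lap (fun s => (fun s => W (s, t * s) - a₀ * s) (-s)) (-a) := by
  unfold Tot
  rw [lintegral_halves]
  unfold Lap
  congr 1
  · refine lintegral_congr fun s => ?_
    congr 2
    ring
  · refine lintegral_congr fun s => ?_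
    congr 2
    simp only
    ring

/-- the half of the section theorem -/
lemma harm_of_convex {W : ℝ × ℝ → ℝ} (hW : ConvexOn ℝ univ W) {t₀ t₁ a₀ a₁ l : ℝ}
    (hl0 : 0 < l) (hl1 : l < 1) (ht : (1 - l) * t₀ + l * t₁ = 0)
    (ha : (1 - l) * a₀ + l * a₁ = 0) (σ : ℝ) :
    Harm l (fun s => W (σ * s, t₀ * (σ * s)) - a₀ * (σ * s))
      (fun s => W (σ * s, t₁ * (σ * s)) - a₁ * (σ * s)) (fun s => W (σ * s, 0)) := by
  intro ρ₀ ρ₁ h0 h1
  have hl1' : 0 < 1 - l := by linarith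
  set ρ := (1 - l) * ρ₀ + l * ρ₁ with hρ
  have hρ0 : 0 < ρ := by positivity
  set θ₀ := (1 - l) * ρ₀ / ρ with hθ₀
  set θ₁ := l * ρ₁ / ρ with hθ₁
  have e0 : 0 ≤ θ₀ := by positivity
  have e1 : 0 ≤ θ₁ := by positivity
  have es : θ₀ + θ₁ = 1 := by
    rw [hθ₀, hθ₁, ← add_div, ← hρ, div_self hρ0.ne']
  have a0 : θ₀ * ρ₀⁻¹ = (1 - l) * ρ⁻¹ := by rw [hθ₀]; field_simp
  have a1 : θ₁ * ρ₁⁻¹ = l * ρ⁻¹ := by rw [hθ₁]; field_simp
  have hc := hW.2 (mem_univ (σ * ρ₀⁻¹, t₀ * (σ * ρ₀⁻¹))) (mem_univ (σ * ρ₁⁻¹, t₁ * (σ * ρ₁⁻¹)))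
    e0 e1 es
  have hpt : θ₀ • (σ * ρ₀⁻¹, t₀ * (σ * ρ₀⁻¹)) + θ₁ • (σ * ρ₁⁻¹, t₁ * (σ * ρ₁⁻¹)) =
      ((σ * ρ⁻¹, 0) : ℝ × ℝ) := by
    ext
    · simp only [Prod.smul_mk, smul_eq_mul, Prod.mk_add_mk]
      calc θ₀ * (σ * ρ₀⁻¹) + θ₁ * (σ * ρ₁⁻¹) = σ * (θ₀ * ρ₀⁻¹ + θ₁ * ρ₁⁻¹) := by ring
        _ = σ * ρ⁻¹ := by rw [a0, a1]; ring
    · simp only [Prod.smul_mk, smul_eq_mul, Prod.mk_add_mk]
      calc θ₀ * (t₀ * (σ * ρ₀⁻¹)) + θ₁ * (t₁ * (σ * ρ₁⁻¹)) =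
          σ * (t₀ * (θ₀ * ρ₀⁻¹) + t₁ * (θ₁ * ρ₁⁻¹)) := by ring
        _ = σ * ρ⁻¹ * ((1 - l) * t₀ + l * t₁) := by rw [a0, a1]; ring
        _ = 0 := by rw [ht, mul_zero]
  rw [hpt] at hc
  simp only [smul_eq_mul] at hc ⊢
  refine hc.trans (le_of_eq ?_)
  have : θ₀ * (a₀ * (σ * ρ₀⁻¹)) + θ₁ * (a₁ * (σ * ρ₁⁻¹)) = 0 := by
    calc θ₀ * (a₀ * (σ * ρ₀⁻¹)) + θ₁ * (a₁ * (σ * ρ₁⁻¹)) =
        σ * (a₀ * (θ₀ * ρ₀⁻¹) + a₁ * (θ₁ * ρ₁⁻¹)) := by ring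
      _ = σ * ρ⁻¹ * ((1 - l) * a₀ + l * a₁) := by rw [a0, a1]; ring
      _ = 0 := by rw [ha, mul_zero]
  linarith

/-- **central sections of a log-concave function of two variables** -/
theorem sections {W : ℝ × ℝ → ℝ} (hW : ConvexOn ℝ univ W) {t₀ t₁ a₀ a₁ : ℝ} (h0 : t₀ < 0)
    (h1 : 0 < t₁) (ha : t₁ * a₀ - t₀ * a₁ = 0) (hf₀ : Tot W t₀ a₀ ≠ ⊤) (hf₁ : Tot W t₁ a₁ ≠ ⊤)
    {m : ℝ≥0∞} (hm₀ : ∀ a, m ≤ Tot W t₀ a) (hm₁ : ∀ a, m ≤ Tot W t₁ a) : m ≤ Tot W 0 0 := by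
  have hd : 0 < t₁ - t₀ := by linarith
  set l := -t₀ / (t₁ - t₀) with hl
  have hl0 : 0 < l := div_pos (by linarith) hd
  have hl1 : l < 1 := by rw [hl, div_lt_one hd]; linarith
  have hl' : 1 - l = t₁ / (t₁ - t₀) := by rw [hl]; field_simp; ring
  have ht : (1 - l) * t₀ + l * t₁ = 0 := by rw [hl', hl]; field_simp; ring
  have ha' : (1 - l) * a₀ + l * a₁ = 0 := by
    rw [hl', hl]
    field_simp
    linarith
  have lin : ∀ t a : ℝ, ConvexOn ℝ univ fun s : ℝ => W (s, t * s) - a * s := by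
    intro t a
    apply conv_lin
    refine ⟨convex_univ, fun x _ y _ c d hc hd hcd => ?_⟩
    have h := hW.2 (mem_univ (x, t * x)) (mem_univ (y, t * y)) hc hd hcd
    have e : c • (x, t * x) + d • (y, t * y) = ((c * x + d * y, t * (c * x + d * y)) : ℝ × ℝ) := by
      ext
      · simp
      · simp only [Prod.smul_mk, smul_eq_mul, Prod.mk_add_mk]; ring
    rw [e] at h
    simpa using h
  have g0 := Tot_eq W t₀ a₀ 0
  have g1 := Tot_eq W t₁ a₁ 0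
  rw [add_zero, neg_zero] at g0 g1
  have hmeas : Measurable fun s : ℝ => W (s, 0) := by
    have h := lin 0 0
    have h' : Continuous fun s : ℝ => W (s, 0 * s) - 0 * s := conv_cont h
    have e : (fun s : ℝ => W (s, 0)) = fun s : ℝ => W (s, 0 * s) - 0 * s := by
      funext s; simp
    rw [e]
    exact h'.measurable
  have key := balanced hl0 hl1 (lin t₀ a₀) (lin t₁ a₁) hmeas (m := m)
    (by
      have := harm_of_convex hW hl0 hl1 ht ha' 1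
      simpa using this)
    (by
      have := harm_of_convex hW hl0 hl1 ht ha' (-1)
      simpa using this)
    (by rw [← g0]; exact hf₀) (by rw [← g1]; exact hf₁)
    (fun a => by rw [← Tot_eq]; exact hm₀ _) (fun a => by rw [← Tot_eq]; exact hm₁ _)
  refine key.trans (le_of_eq ?_)
  have := Tot_eq W 0 0 0
  rw [add_zero] at this
  rw [this]
  simp

/-! ### decomposition of Lebesgue measure -/

/-- integrals after a linear change of variables, up to a constant -/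
lemma lin_change {G V : Type*} [NormedAddCommGroup G] [NormedSpace ℝ G] [FiniteDimensional ℝ G]
    [MeasurableSpace G] [BorelSpace G] [NormedAddCommGroup V] [NormedSpace ℝ V]
    [FiniteDimensional ℝ V] [MeasurableSpace V] [BorelSpace V] (μ : Measure G)
    [μ.IsAddHaarMeasure] (ν : Measure V) [ν.IsAddHaarMeasure] (e : G ≃L[ℝ] V) :
    ∃ c : ℝ≥0∞, c ≠ 0 ∧ c ≠ ⊤ ∧ ∀ f : V → ℝ≥0∞, Measurable f →
      ∫⁻ y, f y ∂ν = c * ∫⁻ z, f (e z) ∂μ := by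
  have hem : Measurable e := e.continuous.measurable
  have hi : (Measure.map e μ).IsAddHaarMeasure := e.isAddHaarMeasure_map μ
  have hc' := Measure.isAddLeftInvariant_eq_smul ν (Measure.map e μ)
  have hcp := Measure.addHaarScalarFactor_pos_of_isAddHaarMeasure ν (Measure.map e μ)
  refine ⟨Measure.addHaarScalarFactor ν (Measure.map e μ), ENNReal.coe_ne_zero.mpr hcp.ne',
    ENNReal.coe_ne_top, fun f hf => ?_⟩
  conv_lhs => rw [hc']
  rw [lintegral_smul_measure, lintegral_map hf hem]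
  rfl

end Pool.Agent.Helper57K1.LM
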