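import Pool.Agent.Helper57K1.LM.C

/-!
# Shears: measure preservation, decomposition along a direction
-/

set_option autoImplicit false

namespace Pool.Agent.Helper57K1.LM

open MeasureTheory Set Filter Topology
open scoped ENNReal NNReal
open Pool.Agent.Y513.LPM (E)

variable {n : ℕ}

/-- decomposition of the space along `v`: `(s, u) ↦ (s / |v|^2) v + u`, `u ⟂ v` -/
noncomputable def decL (v : E n) (hv : v ≠ 0) : (ℝ × (Submodule.span ℝ {v})ᗮ) ≃ₗ[ℝ] E n where
  toFun z := (z.1 / ‖v‖ ^ 2) • v + (z.2 : E n)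
  map_add' x y := by
    simp only [Prod.fst_add, Prod.snd_add, Submodule.coe_add]
    module
  map_smul' c x := by
    simp only [Prod.smul_fst, Prod.smul_snd, Submodule.coe_smul, smul_eq_mul, RingHom.id_apply]
    module
  invFun y := (inner ℝ v y, ⟨y - (inner ℝ v y / ‖v‖ ^ 2) • v, by
    rw [Submodule.mem_orthogonal_singleton_iff_inner_right, inner_sub_right, inner_smul_right,
      real_inner_self_eq_norm_sq]
    have : ‖v‖ ≠ 0 := norm_ne_zero_iff.2 hv
    field_simp
    ring⟩)
  left_inv z := by
    have h0 : ‖v‖ ≠ 0 := norm_ne_zero_iff.2 hv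
    have h1 : inner ℝ v (z.2 : E n) = 0 :=
      (Submodule.mem_orthogonal_singleton_iff_inner_right).1 z.2.2
    have h2 : inner ℝ v ((z.1 / ‖v‖ ^ 2) • v + (z.2 : E n)) = z.1 := by
      rw [inner_add_right, inner_smul_right, h1, real_inner_self_eq_norm_sq]
      field_simp
      ring
    apply Prod.ext
    · exact h2
    · apply Subtype.ext
      simp only [h2]
      abel
  right_inv y := by simp

noncomputable def dec (v : E n) (hv : v ≠ 0) : (ℝ × (Submodule.span ℝ {v})ᗮ) ≃L[ℝ] E n :=
  (decL v hv).toContinuousLinearEquiv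

lemma dec_apply (v : E n) (hv : v ≠ 0) (z : ℝ × (Submodule.span ℝ {v})ᗮ) :
    dec v hv z = (z.1 / ‖v‖ ^ 2) • v + (z.2 : E n) := rfl

lemma inner_dec (v : E n) (hv : v ≠ 0) (z : ℝ × (Submodule.span ℝ {v})ᗮ) :
    inner ℝ v (dec v hv z) = z.1 := by
  have h0 : ‖v‖ ≠ 0 := norm_ne_zero_iff.2 hv
  have h1 : inner ℝ v (z.2 : E n) = 0 :=
    (Submodule.mem_orthogonal_singleton_iff_inner_right).1 z.2.2
  rw [dec_apply, inner_add_right, inner_smul_right, h1, real_inner_self_eq_norm_sq]
  field_simp
  ring

/-- the shear `x ↦ x + t β(x) v` -/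
noncomputable def shear (β : E n → ℝ) (v : E n) (t : ℝ) (x : E n) : E n := x + (t * β x) • v

lemma shear_cont {β : E n → ℝ} (hβ : Continuous β) (v : E n) (t : ℝ) :
    Continuous (shear β v t) := by
  unfold shear; fun_prop

lemma shear_shear {β : E n → ℝ} {v : E n} (hinv : ∀ (x : E n) (s : ℝ), β (x + s • v) = β x) (t t' : ℝ)
    (x : E n) : shear β v t (shear β v t' x) = shear β v (t + t') x := by
  unfold shear
  rw [hinv]
  module

lemma shear_zero (β : E n → ℝ) (v : E n) (x : E n) : shear β v 0 x = x := by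
  unfold shear; simp

/-- the shear as a homeomorphism -/
noncomputable def shearH {β : E n → ℝ} (hβ : Continuous β) {v : E n}
    (hinv : ∀ (x : E n) (s : ℝ), β (x + s • v) = β x) (t : ℝ) : E n ≃ₜ E n where
  toFun := shear β v t
  invFun := shear β v (-t)
  left_inv x := by rw [shear_shear hinv]; simp [shear_zero]
  right_inv x := by rw [shear_shear hinv]; simp [shear_zero]
  continuous_toFun := shear_cont hβ v t
  continuous_invFun := shear_cont hβ v (-t)

lemma shear_mp {β : E n → ℝ} (hβ : Continuous β) {v : E n} (hv : v ≠ 0)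
    (hinv : ∀ (x : E n) (s : ℝ), β (x + s • v) = β x) (t : ℝ) :
    MeasurePreserving (shear β v t) (volume : Measure (E n)) volume := by
  have hm : Measurable (shear β v t) := (shear_cont hβ v t).measurable
  refine ⟨hm, ?_⟩
  obtain ⟨c, hc0, hct, hc⟩ := lin_change
    ((volume : Measure ℝ).prod (volume : Measure (Submodule.span ℝ {v})ᗮ))
    (volume : Measure (E n)) (dec v hv)
  have h0 : ‖v‖ ≠ 0 := norm_ne_zero_iff.2 hv
  -- the shear in coordinates
  set b : (Submodule.span ℝ {v})ᗮ → ℝ := fun u => t * ‖v‖ ^ 2 * β (u : E n) with hb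
  have hbc : Continuous b := by rw [hb]; fun_prop
  have key : ∀ f : E n → ℝ≥0∞, Measurable f → ∫⁻ y, f (shear β v t y) = ∫⁻ y, f y := by
    intro f hf
    rw [hc (fun y => f (shear β v t y)) (hf.comp hm), hc _ hf]
    congr 1
    have e1 : ∀ z : ℝ × (Submodule.span ℝ {v})ᗮ, shear β v t (dec v hv z) =
        dec v hv (z.1 + b z.2, z.2) := by
      intro z
      unfold shear
      have e2 : β (dec v hv z) = β (z.2 : E n) := by
        rw [dec_apply, add_comm, hinv]
      rw [e2, dec_apply, dec_apply]
      simp only [hb]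
      have : (z.1 + t * ‖v‖ ^ 2 * β (z.2 : E n)) / ‖v‖ ^ 2 =
          z.1 / ‖v‖ ^ 2 + t * β (z.2 : E n) := by field_simp
      rw [this]
      module
    simp_rw [e1]
    rw [lintegral_prod_symm' _ (by
        refine hf.comp ((dec v hv).continuous.measurable.comp ?_)
        exact (measurable_fst.add (hbc.measurable.comp measurable_snd)).prodMk measurable_snd),
      lintegral_prod_symm' (fun z => f (dec v hv z)) (hf.comp (dec v hv).continuous.measurable)]
    refine lintegral_congr fun u => ?_
    exact lintegral_add_right_eq_self (fun s => f (dec v hv (s, u))) (b u)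
  ext A hA
  rw [Measure.map_apply hm hA, ← lintegral_indicator_one hA, ← lintegral_indicator_one (hm hA),
    ← key _ (measurable_one.indicator hA)]
  rfl

end Pool.Agent.Helper57K1.LM
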