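import Pool.Agent.Helper57K1.LM.D

/-!
# The Laplace transform of a sheared body and its marginals
-/

set_option autoImplicit false

namespace Pool.Agent.Helper57K1.LM

open MeasureTheory Set Filter Topology
open scoped ENNReal NNReal
open Pool.Agent.Y513.LPM (E Z mahlerLp supportLp)

variable {n : ℕ} {p : ℝ} {K : Set (E n)} {β : E n → ℝ}

/-- `∫_K exp (p (⟨x, y⟩ + r β(x))) dx` -/
noncomputable def AA (p : ℝ) (K : Set (E n)) (β : E n → ℝ) (z : E n × ℝ) : ℝ :=
  ∫ x in K, Real.exp (p * (inner ℝ x z.1 + z.2 * β x))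

lemma AA_integrable (hK : IsCompact K) (hβ : Continuous β) (p : ℝ) (z : E n × ℝ) :
    IntegrableOn (fun x => Real.exp (p * (inner ℝ x z.1 + z.2 * β x))) K :=
  (by fun_prop : Continuous fun x => Real.exp (p * (inner ℝ x z.1 + z.2 * β x))).continuousOn
    |>.integrableOn_compact hK

lemma AA_cont (hK : IsCompact K) (hβ : Continuous β) (p : ℝ) : Continuous (AA p K β) := by
  unfold AA
  refine continuous_parametric_integral_of_continuous ?_ hK
  unfold Function.uncurry
  fun_prop

lemma AA_pos (hK : IsCompact K) (hV : 0 < volume K) (hβ : Continuous β) (p : ℝ) (z : E n × ℝ) :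
    0 < AA p K β z := by
  unfold AA
  rw [setIntegral_pos_iff_support_of_nonneg_ae]
  · have : Function.support (fun x : E n => Real.exp (p * (inner ℝ x z.1 + z.2 * β x))) ∩ K =
        K := by
      apply Set.inter_eq_right.2
      intro x _
      exact (Real.exp_pos _).ne'
    rw [this]
    exact hV
  · exact Eventually.of_forall fun x => (Real.exp_pos _).le
  · exact AA_integrable hK hβ p z

/-- `(1/p) log ∫_K exp (p (⟨x, y⟩ + r β(x))) dx` -/
noncomputable def LL (p : ℝ) (K : Set (E n)) (β : E n → ℝ) (z : E n × ℝ) : ℝ :=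
  (1 / p) * Real.log (AA p K β z)

lemma LL_cont (hK : IsCompact K) (hV : 0 < volume K) (hβ : Continuous β) (p : ℝ) :
    Continuous (LL p K β) := by
  unfold LL
  exact continuous_const.mul ((AA_cont hK hβ p).log fun z => (AA_pos hK hV hβ p z).ne')

lemma LL_convex (hp : 0 < p) (hK : IsCompact K) (hV : 0 < volume K) (hβ : Continuous β) :
    ConvexOn ℝ univ (LL p K β) := by
  refine ⟨convex_univ, fun z _ w _ a b ha hb hab => ?_⟩
  have hz := AA_pos hK hV hβ p z
  have hw := AA_pos hK hV hβ p w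
  have hm := AA_pos hK hV hβ p (a • z + b • w)
  -- normalised exponentials
  have h1 : AA p K β (a • z + b • w) / Real.exp (a * Real.log (AA p K β z) +
      b * Real.log (AA p K β w)) ≤ 1 := by
    have e1 : AA p K β (a • z + b • w) / Real.exp (a * Real.log (AA p K β z) +
        b * Real.log (AA p K β w)) =
        ∫ x in K, Real.exp (a * (p * (inner ℝ x z.1 + z.2 * β x) - Real.log (AA p K β z)) +
          b * (p * (inner ℝ x w.1 + w.2 * β x) - Real.log (AA p K β w))) := by
      rw [div_eq_inv_mul, ← Real.exp_neg]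
      unfold AA
      rw [← integral_const_mul]
      refine integral_congr_ae (Eventually.of_forall fun x => ?_)
      simp only
      rw [← Real.exp_add]
      congr 1
      simp only [Prod.fst_add, Prod.smul_fst, Prod.snd_add, Prod.smul_snd, smul_eq_mul,
        inner_add_right, inner_smul_right]
      ring
    have e2 : ∀ u : E n × ℝ, ∫ x in K, Real.exp (p * (inner ℝ x u.1 + u.2 * β x) -
        Real.log (AA p K β u)) = 1 := by
      intro u
      have hu := AA_pos hK hV hβ p u
      have : ∀ x : E n, Real.exp (p * (inner ℝ x u.1 + u.2 * β x) - Real.log (AA p K β u)) =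
          (AA p K β u)⁻¹ * Real.exp (p * (inner ℝ x u.1 + u.2 * β x)) := by
        intro x
        rw [Real.exp_sub, Real.exp_log hu, div_eq_inv_mul]
      simp_rw [this]
      rw [integral_const_mul]
      exact inv_mul_cancel₀ hu.ne'
    have hint : ∀ u : E n × ℝ, IntegrableOn (fun x => Real.exp (p * (inner ℝ x u.1 + u.2 * β x) -
        Real.log (AA p K β u))) K := fun u =>
      (by fun_prop : Continuous fun x => Real.exp (p * (inner ℝ x u.1 + u.2 * β x) -
        Real.log (AA p K β u))).continuousOn.integrableOn_compact hK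
    rw [e1]
    calc ∫ x in K, Real.exp (a * (p * (inner ℝ x z.1 + z.2 * β x) - Real.log (AA p K β z)) +
          b * (p * (inner ℝ x w.1 + w.2 * β x) - Real.log (AA p K β w)))
        ≤ ∫ x in K, (a * Real.exp (p * (inner ℝ x z.1 + z.2 * β x) - Real.log (AA p K β z)) +
          b * Real.exp (p * (inner ℝ x w.1 + w.2 * β x) - Real.log (AA p K β w))) := by
          refine setIntegral_mono_on ?_ (((hint z).const_mul a).add ((hint w).const_mul b))
            hK.measurableSet fun x _ => ?_
          · exact (by fun_prop : Continuous fun x => Real.exp (a * (p * (inner ℝ x z.1 +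
              z.2 * β x) - Real.log (AA p K β z)) + b * (p * (inner ℝ x w.1 + w.2 * β x) -
              Real.log (AA p K β w)))).continuousOn.integrableOn_compact hK
          · have := convexOn_exp.2 (mem_univ (p * (inner ℝ x z.1 + z.2 * β x) -
              Real.log (AA p K β z))) (mem_univ (p * (inner ℝ x w.1 + w.2 * β x) -
              Real.log (AA p K β w))) ha hb hab
            simpa only [smul_eq_mul] using this
      _ = 1 := by
          rw [integral_add ((hint z).const_mul a) ((hint w).const_mul b), integral_const_mul,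
            integral_const_mul, e2, e2, mul_one, mul_one, hab]
  have h2 : AA p K β (a • z + b • w) ≤ Real.exp (a * Real.log (AA p K β z) +
      b * Real.log (AA p K β w)) := by
    rwa [div_le_one (Real.exp_pos _)] at h1
  have h3 : Real.log (AA p K β (a • z + b • w)) ≤ a * Real.log (AA p K β z) +
      b * Real.log (AA p K β w) := (Real.log_le_iff_le_exp hm).2 h2
  unfold LL
  simp only [smul_eq_mul]
  have h4 := mul_le_mul_of_nonneg_left h3 (show 0 ≤ 1 / p by positivity)
  calc _ ≤ _ := h4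
    _ = _ := by ring

/-- the marginal along the hyperplanes orthogonal to `v` -/
noncomputable def GG (p : ℝ) (K : Set (E n)) (β : E n → ℝ) (v : E n) (hv : v ≠ 0) (z : ℝ × ℝ) :
    ℝ≥0∞ :=
  ∫⁻ u : (Submodule.span ℝ {v})ᗮ, ENNReal.ofReal (Real.exp (-LL p K β (dec v hv (z.1, u), z.2)))

lemma GG_lc (hp : 0 < p) (hK : IsCompact K) (hV : 0 < volume K) (hβ : Continuous β) {v : E n}
    (hv : v ≠ 0) (z w : ℝ × ℝ) {t : ℝ} (ht0 : 0 < t) (ht1 : t < 1) :
    GG p K β v hv z ^ (1 - t) * GG p K β v hv w ^ t ≤ GG p K β v hv ((1 - t) • z + t • w) := by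
  have hc := LL_cont hK hV hβ p
  unfold GG
  refine Pool.Agent.H212R2.KLS.PL volume t ht0 ht1 _ _ _ ?_ ?_ ?_ ?_
  · exact (by fun_prop : Continuous fun u : (Submodule.span ℝ {v})ᗮ =>
      Real.exp (-LL p K β (dec v hv (z.1, u), z.2))).measurable.ennreal_ofReal
  · exact (by fun_prop : Continuous fun u : (Submodule.span ℝ {v})ᗮ =>
      Real.exp (-LL p K β (dec v hv (w.1, u), w.2))).measurable.ennreal_ofReal
  · exact (by fun_prop : Continuous fun u : (Submodule.span ℝ {v})ᗮ =>
      Real.exp (-LL p K β (dec v hv (((1 - t) • z + t • w).1, u),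
        ((1 - t) • z + t • w).2))).measurable.ennreal_ofReal
  · intro x y
    rw [ENNReal.ofReal_rpow_of_pos (Real.exp_pos _), ENNReal.ofReal_rpow_of_pos (Real.exp_pos _),
      ← ENNReal.ofReal_mul (by positivity), ← Real.exp_mul, ← Real.exp_mul, ← Real.exp_add]
    apply ENNReal.ofReal_le_ofReal
    apply Real.exp_le_exp.2
    have h := (LL_convex hp hK hV hβ).2 (mem_univ (dec v hv (z.1, x), z.2))
      (mem_univ (dec v hv (w.1, y), w.2)) (show 0 ≤ 1 - t by linarith) ht0.le (by ring)
    have e : (1 - t) • (dec v hv (z.1, x), z.2) + t • (dec v hv (w.1, y), w.2) =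
        (dec v hv (((1 - t) • z + t • w).1, (1 - t) • x + t • y),
          ((1 - t) • z + t • w).2) := by
      ext1
      · simp only [Prod.smul_mk, Prod.mk_add_mk]
        rw [← map_smul, ← map_smul, ← map_add]
        congr 1
      · simp
    rw [e] at h
    simp only [smul_eq_mul] at h
    linarith

lemma GG_pos (hK : IsCompact K) (hV : 0 < volume K) (hβ : Continuous β) {v : E n}
    (hv : v ≠ 0) (z : ℝ × ℝ) : 0 < GG p K β v hv z := by
  have hc := LL_cont hK hV hβ p
  unfold GG
  rw [lintegral_pos_iff_support ((by fun_prop : Continuous fun u : (Submodule.span ℝ {v})ᗮ =>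
      Real.exp (-LL p K β (dec v hv (z.1, u), z.2))).measurable.ennreal_ofReal)]
  have : Function.support (fun u : (Submodule.span ℝ {v})ᗮ =>
      ENNReal.ofReal (Real.exp (-LL p K β (dec v hv (z.1, u), z.2)))) = univ := by
    apply eq_univ_of_forall
    intro s
    simp [Real.exp_pos]
  rw [this]
  exact isOpen_univ.measure_pos volume univ_nonempty

/-- the logarithm of the marginal -/
noncomputable def WW (p : ℝ) (K : Set (E n)) (β : E n → ℝ) (v : E n) (hv : v ≠ 0) (z : ℝ × ℝ) :
    ℝ := -Real.log (GG p K β v hv z).toReal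

lemma WW_convex (hp : 0 < p) (hK : IsCompact K) (hV : 0 < volume K) (hβ : Continuous β) {v : E n}
    (hv : v ≠ 0) (hfin : ∀ z, GG p K β v hv z ≠ ⊤) : ConvexOn ℝ univ (WW p K β v hv) := by
  refine ⟨convex_univ, fun z _ w _ a b ha hb hab => ?_⟩
  rcases hb.eq_or_lt with rfl | hb'
  · have : a = 1 := by linarith
    subst this
    simp
  rcases ha.eq_or_lt with rfl | ha'
  · have : b = 1 := by linarith
    subst this
    simp
  have hb1 : b < 1 := by linarith
  have ha1 : a = 1 - b := by linarith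
  subst ha1
  have h := GG_lc hp hK hV hβ hv z w hb' hb1
  have hz := ENNReal.toReal_pos (GG_pos (p := p) hK hV hβ hv z).ne' (hfin z)
  have hw := ENNReal.toReal_pos (GG_pos (p := p) hK hV hβ hv w).ne' (hfin w)
  have h2 := ENNReal.toReal_mono (hfin _) h
  rw [ENNReal.toReal_mul, ← ENNReal.toReal_rpow, ← ENNReal.toReal_rpow] at h2
  have h3 := Real.log_le_log (by positivity) h2
  rw [Real.log_mul (by positivity) (by positivity), Real.log_rpow hz, Real.log_rpow hw] at h3
  unfold WW
  simp only [smul_eq_mul]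
  linarith

lemma WW_exp (hK : IsCompact K) (hV : 0 < volume K) (hβ : Continuous β) {v : E n}
    (hv : v ≠ 0) (hfin : ∀ z, GG p K β v hv z ≠ ⊤) (z : ℝ × ℝ) :
    ENNReal.ofReal (Real.exp (-WW p K β v hv z)) = GG p K β v hv z := by
  have hz := ENNReal.toReal_pos (GG_pos (p := p) hK hV hβ hv z).ne' (hfin z)
  unfold WW
  rw [neg_neg, Real.exp_log hz, ENNReal.ofReal_toReal (hfin z)]

/-- the integral of `exp (-L(y, t ⟨v, y⟩) + a ⟨v, y⟩)` -/
noncomputable def TT (p : ℝ) (K : Set (E n)) (β : E n → ℝ) (v : E n) (t a : ℝ) : ℝ≥0∞ :=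
  ∫⁻ y : E n, ENNReal.ofReal (Real.exp (-LL p K β (y, t * inner ℝ v y) + a * inner ℝ v y))

lemma TT_eq (hK : IsCompact K) (hV : 0 < volume K) (hβ : Continuous β) {v : E n}
    (hv : v ≠ 0) : ∃ c : ℝ≥0∞, c ≠ 0 ∧ c ≠ ⊤ ∧ ∀ t a : ℝ, TT p K β v t a =
      c * ∫⁻ s : ℝ, GG p K β v hv (s, t * s) * ENNReal.ofReal (Real.exp (a * s)) := by
  have hc := LL_cont hK hV hβ p
  obtain ⟨c, hc0, hct, h⟩ := lin_change
    ((volume : Measure ℝ).prod (volume : Measure (Submodule.span ℝ {v})ᗮ))
    (volume : Measure (E n)) (dec v hv)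
  refine ⟨c, hc0, hct, fun t a => ?_⟩
  unfold TT
  rw [h _ (by
    exact (by fun_prop : Continuous fun y : E n =>
      Real.exp (-LL p K β (y, t * inner ℝ v y) + a * inner ℝ v y)).measurable.ennreal_ofReal)]
  congr 1
  rw [lintegral_prod _ (by
    exact (by fun_prop : Continuous fun z : ℝ × (Submodule.span ℝ {v})ᗮ =>
      Real.exp (-LL p K β (dec v hv z, t * inner ℝ v (dec v hv z)) +
        a * inner ℝ v (dec v hv z))).measurable.ennreal_ofReal.aemeasurable)]
  refine lintegral_congr fun s => ?_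
  unfold GG
  rw [← lintegral_mul_const _ (by
    exact (by fun_prop : Continuous fun u : (Submodule.span ℝ {v})ᗮ =>
      Real.exp (-LL p K β (dec v hv (s, u), t * s))).measurable.ennreal_ofReal)]
  refine lintegral_congr fun u => ?_
  rw [inner_dec, ← ENNReal.ofReal_mul (Real.exp_pos _).le, ← Real.exp_add]

/-- finiteness of the marginal -/
lemma GG_fin (hp : 0 < p) (hK : IsCompact K) (hV : 0 < volume K) (hβ : Continuous β) {v : E n}
    (hv : v ≠ 0) (h : TT p K β v 0 0 ≠ ⊤) (z : ℝ × ℝ) : GG p K β v hv z ≠ ⊤ := by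
  intro hz
  obtain ⟨c, hc0, -, hT⟩ := TT_eq (p := p) hK hV hβ hv
  apply h
  rw [hT]
  have h1 : ∀ s : ℝ, GG p K β v hv (s, 0 * s) * ENNReal.ofReal (Real.exp (0 * s)) = ⊤ := by
    intro s
    have h2 := GG_lc hp hK hV hβ hv z (2 * s - z.1, -z.2) (t := 1 / 2) (by norm_num)
      (by norm_num)
    have e : (1 - 1 / 2 : ℝ) • z + (1 / 2 : ℝ) • ((2 * s - z.1, -z.2) : ℝ × ℝ) = (s, 0 * s) := by
      ext
      · simp; ring
      · simp; ring
    rw [e, hz, ENNReal.top_rpow_of_pos (by norm_num), ENNReal.top_mul] at h2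
    · rw [top_le_iff.1 h2]
      simp
    · have h3 := GG_pos (p := p) hK hV hβ hv (2 * s - z.1, -z.2)
      exact (ENNReal.rpow_pos_of_nonneg h3 (by norm_num)).ne'
  simp_rw [h1]
  rw [lintegral_const, Real.volume_univ, ENNReal.top_mul_top, ENNReal.mul_top hc0]

lemma Tot_WW (hK : IsCompact K) (hV : 0 < volume K) (hβ : Continuous β) {v : E n}
    (hv : v ≠ 0) (hfin : ∀ z, GG p K β v hv z ≠ ⊤) (t a : ℝ) :
    Tot (WW p K β v hv) t a =
      ∫⁻ s : ℝ, GG p K β v hv (s, t * s) * ENNReal.ofReal (Real.exp (a * s)) := by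
  unfold Tot
  refine lintegral_congr fun s => ?_
  rw [Real.exp_add, ENNReal.ofReal_mul (Real.exp_pos _).le, WW_exp hK hV hβ hv hfin]

/-- **the section theorem for Laplace transforms of sheared bodies** -/
theorem sections_TT (hp : 0 < p) (hK : IsCompact K) (hV : 0 < volume K) (hβ : Continuous β)
    {v : E n} (hv : v ≠ 0) {t₀ t₁ a₀ a₁ : ℝ} (h0 : t₀ < 0)
    (h1 : 0 < t₁) (ha : t₁ * a₀ - t₀ * a₁ = 0) (hf₀ : TT p K β v t₀ a₀ ≠ ⊤)
    (hf₁ : TT p K β v t₁ a₁ ≠ ⊤) {m : ℝ≥0∞} (hm₀ : ∀ a, m ≤ TT p K β v t₀ a)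
    (hm₁ : ∀ a, m ≤ TT p K β v t₁ a) : m ≤ TT p K β v 0 0 := by
  by_cases hT : TT p K β v 0 0 = ⊤
  · rw [hT]; exact le_top
  have hfin := GG_fin hp hK hV hβ hv hT
  obtain ⟨c, hc0, hct, hc⟩ := TT_eq (p := p) hK hV hβ hv
  have e : ∀ t a, TT p K β v t a = c * Tot (WW p K β v hv) t a := by
    intro t a
    rw [hc, Tot_WW hK hV hβ hv hfin]
  have key := sections (WW_convex hp hK hV hβ hv hfin) h0 h1 ha (m := m / c)
    (fun h => hf₀ (by rw [e, h, ENNReal.mul_top hc0]))
    (fun h => hf₁ (by rw [e, h, ENNReal.mul_top hc0]))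
    (fun a => ENNReal.div_le_of_le_mul' (by rw [← e]; exact hm₀ a))
    (fun a => ENNReal.div_le_of_le_mul' (by rw [← e]; exact hm₁ a))
  rw [e]
  calc m = c * (m / c) := (ENNReal.mul_div_cancel hc0 hct).symm
    _ ≤ _ := by gcongr

end Pool.Agent.Helper57K1.LM
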