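import Pool.Agent.Helper57K1.LM.F

/-!
# The `L^p` Mahler volume of sheared bodies; invariance, finiteness
-/

set_option autoImplicit false

namespace Pool.Agent.Helper57K1.LM

open MeasureTheory Set Filter Topology
open scoped ENNReal NNReal
open Pool.Agent.Y513.LPM (E Z mahlerLp supportLp)

variable {n : ℕ} {p : ℝ} {K : Set (E n)} {β : E n → ℝ}

/-- the `L^p` Mahler volume of the image of `K` under a measure-preserving homeomorphism -/
lemma mahler_image_mp (T : E n ≃ₜ E n) (hT : MeasurePreserving T (volume : Measure (E n)) volume)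
    (p : ℝ) (K : Set (E n)) :
    mahlerLp p (T '' K) = volume K * ∫⁻ y : E n, ENNReal.ofReal (Real.exp
      (-((1 / p) * Real.log ((∫ x in K, Real.exp (p * inner ℝ (T x) y)) / volume.real K)))) := by
  have hv : volume (T '' K) = volume K := by
    rw [← hT.measure_preimage_emb T.measurableEmbedding, T.preimage_image]
  unfold mahlerLp supportLp
  rw [hv]
  congr 1
  refine lintegral_congr fun y => ?_
  rw [hT.setIntegral_image_emb T.measurableEmbedding]
  unfold Measure.real
  rw [hv]

/-- the constant relating `mahlerLp` and `TT` -/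
noncomputable def kap (p : ℝ) (K : Set (E n)) : ℝ≥0∞ :=
  volume K * ENNReal.ofReal ((volume.real K) ^ (1 / p))

lemma kap_ne (hK : IsCompact K) (hV : 0 < volume K) : kap p K ≠ 0 ∧ kap p K ≠ ⊤ := by
  have h0 : 0 < volume.real K := ENNReal.toReal_pos hV.ne' hK.measure_lt_top.ne
  unfold kap
  constructor
  · refine mul_ne_zero hV.ne' ?_
    rw [Ne, ENNReal.ofReal_eq_zero, not_le]
    positivity
  · exact ENNReal.mul_ne_top hK.measure_lt_top.ne ENNReal.ofReal_ne_top

lemma mahler_shear (hp : 0 < p) (hK : IsCompact K) (hV : 0 < volume K) (hβ : Continuous β)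
    {v : E n} (hv : v ≠ 0) (hinv : ∀ (x : E n) (s : ℝ), β (x + s • v) = β x) (t a : ℝ) :
    mahlerLp p ((fun x => x - a • v) '' (shear β v t '' K)) = kap p K * TT p K β v t a := by
  set T : E n ≃ₜ E n := (shearH hβ hinv t).trans (Homeomorph.subRight (a • v)) with hT
  have hTx : ∀ x, T x = shear β v t x - a • v := fun x => rfl
  have hmp : MeasurePreserving T (volume : Measure (E n)) volume :=
    (measurePreserving_sub_right (volume : Measure (E n)) (a • v)).comp (shear_mp hβ hv hinv t)
  have himg : (fun x => x - a • v) '' (shear β v t '' K) = T '' K := by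
    rw [image_image]; rfl
  have h0 : 0 < volume.real K := ENNReal.toReal_pos hV.ne' hK.measure_lt_top.ne
  rw [himg, mahler_image_mp T hmp]
  unfold kap TT
  have hc := LL_cont hK hV hβ p
  have hmeas : Measurable fun y : E n => ENNReal.ofReal (Real.exp (-LL p K β
      (y, t * inner ℝ v y) + a * inner ℝ v y)) :=
    (by fun_prop : Continuous fun y : E n => Real.exp (-LL p K β (y, t * inner ℝ v y) +
      a * inner ℝ v y)).measurable.ennreal_ofReal
  rw [mul_assoc]
  congr 1
  rw [← lintegral_const_mul _ hmeas]
  refine lintegral_congr fun y => ?_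
  have e1 : ∫ x in K, Real.exp (p * inner ℝ (T x) y) =
      Real.exp (-(p * a * inner ℝ v y)) * AA p K β (y, t * inner ℝ v y) := by
    unfold AA
    rw [← integral_const_mul]
    refine integral_congr_ae (Eventually.of_forall fun x => ?_)
    simp only
    rw [← Real.exp_add, hTx]
    congr 1
    unfold shear
    rw [inner_sub_left, inner_add_left, inner_smul_left, inner_smul_left]
    simp
    ring
  have hA := AA_pos hK hV hβ p (y, t * inner ℝ v y)
  rw [e1, ← ENNReal.ofReal_mul (by positivity), Real.rpow_def_of_pos h0, ← Real.exp_add]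
  congr 2
  rw [Real.log_div (by positivity) h0.ne', Real.log_mul (by positivity) hA.ne', Real.log_exp]
  unfold LL
  field_simp
  ring

/-- **moving chords**: if the `L^p` Mahler volumes of all translates of two opposite chord
movements of `K` are at least `m`, so is the one of `K` -/
theorem moving (hp : 0 < p) (hK : IsCompact K) (hV : 0 < volume K) (hβ : Continuous β)
    {v : E n} (hv : v ≠ 0) (hinv : ∀ (x : E n) (s : ℝ), β (x + s • v) = β x) {t₀ t₁ : ℝ}
    (h0 : t₀ < 0) (h1 : 0 < t₁)
    (hf₀ : mahlerLp p ((fun x => x - (t₀ * β 0) • v) '' (shear β v t₀ '' K)) ≠ ⊤)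
    (hf₁ : mahlerLp p ((fun x => x - (t₁ * β 0) • v) '' (shear β v t₁ '' K)) ≠ ⊤) {m : ℝ≥0∞}
    (hm₀ : ∀ z : E n, m ≤ mahlerLp p ((fun x => x - z) '' (shear β v t₀ '' K)))
    (hm₁ : ∀ z : E n, m ≤ mahlerLp p ((fun x => x - z) '' (shear β v t₁ '' K))) :
    m ≤ mahlerLp p K := by
  obtain ⟨hk0, hkt⟩ := kap_ne (p := p) hK hV
  have e0 : mahlerLp p K = kap p K * TT p K β v 0 0 := by
    rw [← mahler_shear hp hK hV hβ hv hinv 0 0]
    congr 1
    rw [image_image]
    simp [shear_zero]
  have key := sections_TT hp hK hV hβ hv h0 h1 (a₀ := t₀ * β 0) (a₁ := t₁ * β 0) (by ring)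
    (m := m / kap p K)
    (fun h => hf₀ (by rw [mahler_shear hp hK hV hβ hv hinv, h, ENNReal.mul_top hk0]))
    (fun h => hf₁ (by rw [mahler_shear hp hK hV hβ hv hinv, h, ENNReal.mul_top hk0]))
    (fun a => ENNReal.div_le_of_le_mul' (by
      rw [← mahler_shear hp hK hV hβ hv hinv]; exact hm₀ _))
    (fun a => ENNReal.div_le_of_le_mul' (by
      rw [← mahler_shear hp hK hV hβ hv hinv]; exact hm₁ _))
  rw [e0]
  calc m = kap p K * (m / kap p K) := (ENNReal.mul_div_cancel hk0 hkt).symm
    _ ≤ _ := by gcongr

/-- finiteness: bodies with the origin in the interior -/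
lemma mahler_ne_top (hp : 0 < p) (hK : IsCompact K) (hc : Convex ℝ K) (h0 : (0 : E n) ∈ interior K) :
    mahlerLp p K ≠ ⊤ := by
  obtain ⟨r, hr, hr2⟩ := Metric.mem_nhds_iff.1 (mem_interior_iff_mem_nhds.1 h0)
  obtain ⟨R, hR⟩ := hK.isBounded.subset_closedBall 0
  have hV : 0 < volume.real K := by
    refine ENNReal.toReal_pos ?_ hK.measure_lt_top.ne
    exact ((isOpen_interior.measure_pos volume ⟨0, h0⟩).trans_le (measure_mono interior_subset)).ne'
  obtain ⟨C, ε, hC, hε, h⟩ := Pool.Agent.Y513.LPM.Par.est (n := n) (p := p) (a := 1 / p)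
    (r := r / 2) (R := max R 1) (V0 := volume.real K) hp (by field_simp) (by positivity)
    (lt_max_of_lt_right one_pos) hV
  have hest := h K ⟨hK, hc, (Metric.closedBall_subset_ball (by linarith)).trans hr2,
    hR.trans (Metric.closedBall_subset_closedBall (le_max_left _ _)), le_rfl⟩
  rw [Pool.Agent.Y513.LPM.mahler_eq hest hp (by field_simp) (by positivity)]
  exact ENNReal.ofReal_ne_top

/-- the `L^p` Mahler volume is infinite if the origin is not an interior point -/
lemma mahler_eq_top (hp : 0 < p) (hK : IsCompact K) (hc : Convex ℝ K) (hi : (interior K).Nonempty)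
    (h0 : (0 : E n) ∉ interior K) : mahlerLp p K = ⊤ := by
  have hV : 0 < volume K :=
    (isOpen_interior.measure_pos volume hi).trans_le (measure_mono interior_subset)
  have hVr : 0 < volume.real K := ENNReal.toReal_pos hV.ne' hK.measure_lt_top.ne
  obtain ⟨R, hR0, hR⟩ := hK.isBounded.subset_closedBall_lt 0 0
  -- a supporting functional
  obtain ⟨f, hf⟩ := geometric_hahn_banach_open_point hc.interior isOpen_interior h0
  set u : E n := (InnerProductSpace.toDual ℝ (E n)).symm f with hu
  have hfu : ∀ x, f x = inner ℝ u x := fun x => by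
    rw [hu, InnerProductSpace.toDual_symm_apply]
  have hneg : ∀ x ∈ K, inner ℝ x u ≤ 0 := by
    have hcl : K ⊆ closure (interior K) := by
      rw [hc.closure_interior_eq_closure_of_nonempty_interior hi]
      exact subset_closure
    have hcls : IsClosed {x : E n | inner ℝ x u ≤ 0} :=
      isClosed_le (by fun_prop) continuous_const
    intro x hx
    refine closure_minimal (fun z hz => ?_) hcls (hcl hx)
    have := hf z hz
    rw [map_zero, hfu, real_inner_comm] at this
    exact this.le
  have hu0 : u ≠ 0 := by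
    intro h
    obtain ⟨z, hz⟩ := hi
    have := hf z hz
    rw [hfu, h] at this
    simp at this
  have hun : 0 < ‖u‖ := norm_pos_iff.2 hu0
  -- a lower bound on a union of balls
  set c : ℕ → E n := fun k => (3 * (k : ℝ) / ‖u‖) • u with hcdef
  have hlow : ∀ k : ℕ, ∀ y ∈ Metric.ball (c k) 1, Real.exp (-R) ≤ Real.exp (-supportLp p K y) := by
    intro k y hy
    apply Real.exp_le_exp.2
    apply neg_le_neg
    unfold supportLp
    have h1 : (∫ x in K, Real.exp (p * inner ℝ x y)) / volume.real K ≤ Real.exp (p * R) := by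
      rw [div_le_iff₀ hVr]
      have h2 : ∫ x in K, Real.exp (p * inner ℝ x y) ≤ ∫ _x in K, Real.exp (p * R) := by
        refine setIntegral_mono_on (Pool.Agent.Y513.LPM.ex_int hK p y)
          (integrableOn_const hK.measure_lt_top.ne) hK.measurableSet fun x hx => ?_
        apply Real.exp_le_exp.2
        gcongr
        have e : inner ℝ x y = inner ℝ x (c k) + inner ℝ x (y - c k) := by
          rw [← inner_add_right]; congr 1; abel
        rw [e]
        have h3 : inner ℝ x (c k) ≤ 0 := by
          simp only [hcdef]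
          rw [inner_smul_right]
          exact mul_nonpos_of_nonneg_of_nonpos (by positivity) (hneg x hx)
        have h4 : inner ℝ x (y - c k) ≤ ‖x‖ * ‖y - c k‖ := real_inner_le_norm _ _
        have h5 : ‖x‖ ≤ R := by simpa using hR hx
        have h6 : ‖y - c k‖ ≤ 1 := by
          rw [← dist_eq_norm]; exact (Metric.mem_ball.1 hy).le
        nlinarith [norm_nonneg x, norm_nonneg (y - c k)]
      rw [setIntegral_const, smul_eq_mul, mul_comm] at h2
      exact h2
    have hpos : 0 < (∫ x in K, Real.exp (p * inner ℝ x y)) / volume.real K :=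
      div_pos (Pool.Agent.Y513.LPM.Z_pos hK hV p y) hVr
    have h2 := Real.log_le_log hpos h1
    rw [Real.log_exp] at h2
    calc 1 / p * Real.log ((∫ x in K, Real.exp (p * inner ℝ x y)) / volume.real K)
        ≤ 1 / p * (p * R) := by gcongr
      _ = R := by field_simp
  have hdisj : Pairwise (Function.onFun Disjoint fun k : ℕ => Metric.ball (c k) (1 : ℝ)) := by
    intro i j hij
    apply Metric.ball_disjoint_ball
    have e : dist (c i) (c j) = 3 * |(i : ℝ) - j| := by
      rw [dist_eq_norm]
      simp only [hcdef]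
      rw [← sub_smul, norm_smul, Real.norm_eq_abs]
      have : 3 * (i : ℝ) / ‖u‖ - 3 * (j : ℝ) / ‖u‖ = 3 * ((i : ℝ) - j) / ‖u‖ := by ring
      rw [this, abs_div, abs_mul, abs_of_pos hun]
      field_simp
      norm_num
      ring
    rw [e]
    have : (1 : ℝ) ≤ |(i : ℝ) - j| := by
      have h1 : (1 : ℤ) ≤ |(i : ℤ) - j| := by
        apply Int.one_le_abs
        intro h
        apply hij
        omega
      exact_mod_cast h1
    linarith
  have hint : ∫⁻ y : E n, ENNReal.ofReal (Real.exp (-supportLp p K y)) = ⊤ := by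
    rw [eq_top_iff]
    calc (⊤ : ℝ≥0∞) = ∑' _k : ℕ, ENNReal.ofReal (Real.exp (-R)) *
          volume (Metric.ball (0 : E n) 1) := by
          rw [ENNReal.tsum_const, ENat.card_eq_top_of_infinite]
          symm
          apply ENNReal.top_mul
          refine mul_ne_zero ?_ (Metric.measure_ball_pos volume _ one_pos).ne'
          rw [Ne, ENNReal.ofReal_eq_zero, not_le]
          exact Real.exp_pos _
      _ = ∑' k : ℕ, ∫⁻ _y in Metric.ball (c k) 1, ENNReal.ofReal (Real.exp (-R)) := by
          refine tsum_congr fun k => ?_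
          rw [setLIntegral_const, Measure.addHaar_ball_center volume (c k)]
      _ ≤ ∑' k : ℕ, ∫⁻ y in Metric.ball (c k) 1, ENNReal.ofReal (Real.exp (-supportLp p K y)) := by
          refine ENNReal.tsum_le_tsum fun k => ?_
          exact setLIntegral_mono' Metric.isOpen_ball.measurableSet fun y hy =>
            ENNReal.ofReal_le_ofReal (hlow k y hy)
      _ = ∫⁻ y in ⋃ k, Metric.ball (c k) 1, ENNReal.ofReal (Real.exp (-supportLp p K y)) :=
          (lintegral_iUnion (fun k => Metric.isOpen_ball.measurableSet) hdisj _).symm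
      _ ≤ _ := setLIntegral_le_lintegral _ _
  unfold mahlerLp
  rw [hint, ENNReal.mul_top hV.ne']

/-- linear invariance -/
lemma mahler_linear (A : E n ≃ₗ[ℝ] E n) (hK : IsCompact K) (hV : 0 < volume K) :
    mahlerLp p (A '' K) = mahlerLp p K := by
  set d : ℝ := |LinearMap.det (A : E n →ₗ[ℝ] E n)| with hd
  have hdet : LinearMap.det (A : E n →ₗ[ℝ] E n) ≠ 0 := (LinearEquiv.isUnit_det' A).ne_zero
  have hd0 : 0 < d := abs_pos.2 hdet
  have hvol : volume (A '' K) = ENNReal.ofReal d * volume K := by
    have := Measure.addHaar_image_linearMap (volume : Measure (E n)) (A : E n →ₗ[ℝ] E n) K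
    exact this
  have hvr : volume.real (A '' K) = d * volume.real K := by
    unfold Measure.real
    rw [hvol, ENNReal.toReal_mul, ENNReal.toReal_ofReal hd0.le]
  set B : E n →ₗ[ℝ] E n := LinearMap.adjoint (A : E n →ₗ[ℝ] E n) with hB
  have hBdet : LinearMap.det B = LinearMap.det (A : E n →ₗ[ℝ] E n) := by
    rw [hB, ← LinearMap.det_toMatrix (EuclideanSpace.basisFun (Fin n) ℝ).toBasis,
      LinearMap.toMatrix_adjoint, Matrix.det_conjTranspose, LinearMap.det_toMatrix]
    simp
  -- the Laplace transform
  have hZ : ∀ y : E n, (∫ x in A '' K, Real.exp (p * inner ℝ x y)) =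
      d * ∫ x in K, Real.exp (p * inner ℝ x (B y)) := by
    intro y
    have h1 := integral_image_eq_integral_abs_det_fderiv_smul (volume : Measure (E n))
      (s := K) (f := A) (f' := fun _ => (A : E n →ₗ[ℝ] E n).toContinuousLinearMap)
      hK.measurableSet (fun x _ =>
        ((A : E n →ₗ[ℝ] E n).toContinuousLinearMap.hasFDerivAt).hasFDerivWithinAt)
      A.injective.injOn (fun x => Real.exp (p * inner ℝ x y))
    rw [h1, ← integral_const_mul]
    refine integral_congr_ae (Eventually.of_forall fun x => ?_)
    simp only [smul_eq_mul]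
    congr 1
    congr 2
    rw [hB, LinearMap.adjoint_inner_right]
    rfl
  have hS : ∀ y : E n, supportLp p (A '' K) y = supportLp p K (B y) := by
    intro y
    unfold supportLp
    rw [hZ, hvr, mul_div_mul_left _ _ hd0.ne']
  have hBI : ∫⁻ y : E n, ENNReal.ofReal (Real.exp (-supportLp p K (B y))) =
      ENNReal.ofReal d⁻¹ * ∫⁻ y : E n, ENNReal.ofReal (Real.exp (-supportLp p K y)) := by
    have h2 := Measure.map_linearMap_addHaar_eq_smul_addHaar (volume : Measure (E n))
      (f := B) (by rw [hBdet]; exact hdet)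
    have hmeas : Measurable fun y : E n => ENNReal.ofReal (Real.exp (-supportLp p K y)) := by
      have hc : Continuous fun y : E n => supportLp p K y := by
        have h3 : Continuous fun y : E n => ∫ x in K, Real.exp (p * inner ℝ x y) :=
          Pool.Agent.Y513.LPM.Z_cont hK p
        have hVr : 0 < volume.real K := ENNReal.toReal_pos hV.ne' hK.measure_lt_top.ne
        unfold supportLp
        exact continuous_const.mul ((h3.div_const _).log fun y =>
          (div_pos (Pool.Agent.Y513.LPM.Z_pos hK hV p y) hVr).ne')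
      exact (hc.neg.rexp).measurable.ennreal_ofReal
    have hBm : Measurable B := (LinearMap.continuous_of_finiteDimensional B).measurable
    rw [← lintegral_map hmeas hBm, h2, lintegral_smul_measure, hBdet, abs_inv]
    rfl
  unfold mahlerLp
  simp_rw [hS]
  rw [hBI, hvol, mul_comm (ENNReal.ofReal d), mul_assoc, ← mul_assoc (ENNReal.ofReal d),
    ← ENNReal.ofReal_mul hd0.le, mul_inv_cancel₀ hd0.ne', ENNReal.ofReal_one, one_mul]

end Pool.Agent.Helper57K1.LM
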