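import Pool.Agent.Helper57K1.LM.G

/-!
# Translates; the simplex
-/

set_option autoImplicit false

namespace Pool.Agent.Helper57K1.LM

open MeasureTheory Set Filter Topology
open scoped ENNReal NNReal
open Pool.Agent.Y513.LPM (E Z mahlerLp supportLp)

variable {n : ℕ} {p : ℝ} {K : Set (E n)} {β : E n → ℝ}

lemma interior_sub (z : E n) (K : Set (E n)) :
    interior ((fun x => x - z) '' K) = (fun x => x - z) '' interior K :=
  ((Homeomorph.subRight z).image_interior K).symm

lemma zero_mem_sub (z : E n) (K : Set (E n)) :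
    (0 : E n) ∈ interior ((fun x => x - z) '' K) ↔ z ∈ interior K := by
  rw [interior_sub]
  constructor
  · rintro ⟨x, hx, hxz⟩
    have : x = z := sub_eq_zero.1 hxz
    rwa [← this]
  · intro h
    exact ⟨z, h, sub_self z⟩

/-- **moving chords**, for all translates -/
theorem moving' (hp : 0 < p) (hK : IsCompact K) (hKc : Convex ℝ K) (hi : (interior K).Nonempty)
    (hβ : Continuous β) {v : E n} (hv : v ≠ 0)
    (hinv : ∀ (x : E n) (s : ℝ), β (x + s • v) = β x) {t₀ t₁ : ℝ}
    (h0 : t₀ < 0) (h1 : 0 < t₁) (hc₀ : Convex ℝ (shear β v t₀ '' K))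
    (hc₁ : Convex ℝ (shear β v t₁ '' K)) {m : ℝ≥0∞}
    (hm₀ : ∀ z : E n, m ≤ mahlerLp p ((fun x => x - z) '' (shear β v t₀ '' K)))
    (hm₁ : ∀ z : E n, m ≤ mahlerLp p ((fun x => x - z) '' (shear β v t₁ '' K))) (z : E n) :
    m ≤ mahlerLp p ((fun x => x - z) '' K) := by
  set K' : Set (E n) := (fun x => x - z) '' K with hK'
  have hK'c : IsCompact K' := hK.image (by fun_prop)
  have hK'v : Convex ℝ K' := by
    have := hKc.translate (-z)
    rw [image_congr (fun x _ => show -z + x = x - z by abel)] at this
    exact this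
  have hi' : (interior K').Nonempty := by
    rw [hK', interior_sub]; exact hi.image _
  by_cases h00 : (0 : E n) ∈ interior K'
  swap
  · rw [mahler_eq_top hp hK'c hK'v hi' h00]; exact le_top
  set β' : E n → ℝ := fun x => β (x + z) with hβ'
  have hβ'c : Continuous β' := hβ.comp (by fun_prop)
  have hinv' : ∀ (x : E n) (s : ℝ), β' (x + s • v) = β' x := by
    intro x s
    simp only [hβ']
    rw [← hinv (x + z) s]
    congr 1
    abel
  have hV : 0 < volume K' :=
    (isOpen_interior.measure_pos volume hi').trans_le (measure_mono interior_subset)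
  have himg : ∀ t : ℝ, shear β' v t '' K' = (fun x => x - z) '' (shear β v t '' K) := by
    intro t
    rw [hK', image_image, image_image]
    refine image_congr fun x _ => ?_
    unfold shear
    simp only [hβ']
    rw [sub_add_cancel]
    abel
  have hconv : ∀ t : ℝ, Convex ℝ (shear β v t '' K) → ∀ z' : E n,
      Convex ℝ ((fun x => x - z') '' (shear β' v t '' K')) := by
    intro t ht z'
    rw [himg, image_image]
    have := ht.translate (-z - z')
    rw [image_congr (fun x _ => show (-z - z') + x = x - z - z' by abel)] at this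
    exact this
  have hfin : ∀ t : ℝ, Convex ℝ (shear β v t '' K) →
      mahlerLp p ((fun x => x - (t * β' 0) • v) '' (shear β' v t '' K')) ≠ ⊤ := by
    intro t ht
    refine mahler_ne_top hp ((hK'c.image (shear_cont hβ'c v t)).image (by fun_prop))
      (hconv t ht _) ?_
    rw [zero_mem_sub]
    have h2 : interior (shear β' v t '' K') = shear β' v t '' interior K' :=
      ((shearH hβ'c hinv' t).image_interior K').symm
    rw [h2]
    refine ⟨0, h00, ?_⟩
    unfold shear
    rw [zero_add]
  refine moving hp hK'c hV hβ'c hv hinv' h0 h1 (hfin t₀ hc₀) (hfin t₁ hc₁) ?_ ?_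
  · intro z'
    rw [himg, image_image]
    have := hm₀ (z + z')
    rwa [image_congr (fun x _ => show x - (z + z') = x - z - z' by abel)] at this
  · intro z'
    rw [himg, image_image]
    have := hm₁ (z + z')
    rwa [image_congr (fun x _ => show x - (z + z') = x - z - z' by abel)] at this

/-! ### the simplex -/

/-- the standard simplex `{z | 0 ≤ z_i, ∑ z_i ≤ 1}` -/
def simplex (n : ℕ) : Set (E n) := {z | (∀ i, 0 ≤ z i) ∧ ∑ i, z i ≤ 1}

/-- the map of the simplex with vertices `s 0, ..., s n` -/
noncomputable def smap (s : Fin (n + 1) → E n) : E n →ₗ[ℝ] E n where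
  toFun x := ∑ i, x i • (s i.succ - s 0)
  map_add' x y := by
    simp only [PiLp.add_apply, add_smul, Finset.sum_add_distrib]
  map_smul' c x := by
    simp only [PiLp.smul_apply, smul_eq_mul, RingHom.id_apply, Finset.smul_sum, smul_smul]

lemma smap_apply (s : Fin (n + 1) → E n) (x : E n) :
    smap s x = ∑ i, x i • (s i.succ - s 0) := rfl

lemma simplex_convex (n : ℕ) : Convex ℝ (simplex n) := by
  intro x hx y hy a b ha hb hab
  refine ⟨fun i => ?_, ?_⟩
  · simp only [PiLp.add_apply, PiLp.smul_apply, smul_eq_mul]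
    exact add_nonneg (mul_nonneg ha (hx.1 i)) (mul_nonneg hb (hy.1 i))
  · simp only [PiLp.add_apply, PiLp.smul_apply, smul_eq_mul, Finset.sum_add_distrib,
      ← Finset.mul_sum]
    have h1 := hx.2
    have h2 := hy.2
    nlinarith

lemma hull_simplex (s : Fin (n + 1) → E n) :
    convexHull ℝ (range s) = (fun x => s 0 + smap s x) '' simplex n := by
  apply Subset.antisymm
  · refine convexHull_min ?_ ?_
    · rintro _ ⟨j, rfl⟩
      refine Fin.cases ?_ (fun i => ?_) j
      · refine ⟨0, ⟨fun i => by simp, by simp⟩, by simp⟩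
      · refine ⟨EuclideanSpace.single i 1, ⟨fun k => ?_, ?_⟩, ?_⟩
        · simp only [PiLp.single_apply]
          split_ifs <;> norm_num
        · simp
        · simp only [smap_apply, PiLp.single_apply, ite_smul, one_smul, zero_smul]
          simp
    · have h1 : (fun x => s 0 + smap s x) '' simplex n = (fun x => s 0 + x) '' (smap s '' simplex n) := by
        rw [image_image]
      rw [h1]
      exact ((simplex_convex n).linear_image (smap s)).translate (s 0)
  · rintro _ ⟨x, hx, rfl⟩
    have hc : Convex ℝ (convexHull ℝ (range s)) := convex_convexHull ℝ _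
    have hp : ∀ k, s k ∈ convexHull ℝ (range s) := fun k => subset_convexHull ℝ _ ⟨k, rfl⟩
    set c : Fin (n + 1) → ℝ := Fin.cons (1 - ∑ i, x i) (fun i => x i) with hcdef
    have h2 : ∑ k, c k • s k ∈ convexHull ℝ (range s) := by
      refine hc.sum_mem (fun k _ => ?_) ?_ (fun k _ => hp k)
      · refine Fin.cases ?_ (fun i => ?_) k
        · simp only [hcdef, Fin.cons_zero]; linarith [hx.2]
        · simp only [hcdef, Fin.cons_succ]; exact hx.1 i
      · rw [Fin.sum_univ_succ]
        simp [hcdef]
    convert h2 using 1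
    rw [Fin.sum_univ_succ]
    simp only [hcdef, Fin.cons_zero, Fin.cons_succ, smap_apply, smul_sub,
      Finset.sum_sub_distrib, ← Finset.sum_smul]
    module

lemma std_hull (n : ℕ) : ∃ s : Fin (n + 1) → E n, simplex n = convexHull ℝ (range s) := by
  refine ⟨Fin.cons 0 (fun i => EuclideanSpace.single i 1), ?_⟩
  rw [hull_simplex]
  have h1 : ∀ x : E n, (Fin.cons 0 (fun i => EuclideanSpace.single i 1) : Fin (n + 1) → E n) 0 +
      smap (Fin.cons 0 (fun i => EuclideanSpace.single i 1) : Fin (n + 1) → E n) x = x := by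
    intro x
    rw [smap_apply]
    simp only [Fin.cons_zero, Fin.cons_succ, sub_zero, zero_add]
    ext k
    simp [Pi.single_apply]
  simp_rw [h1]
  simp

lemma simplex_compact (n : ℕ) : IsCompact (simplex n) := by
  obtain ⟨s, hs⟩ := std_hull n
  rw [hs]
  exact (finite_range s).isCompact_convexHull (𝕜 := ℝ)

lemma simplex_interior (n : ℕ) : (interior (simplex n)).Nonempty := by
  refine ⟨WithLp.toLp 2 (fun _ => 1 / ((n : ℝ) + 1)), ?_⟩
  rw [mem_interior]
  refine ⟨{z | (∀ i, 0 < z i) ∧ ∑ i, z i < 1}, ?_, ?_, ?_⟩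
  · intro z hz
    exact ⟨fun i => (hz.1 i).le, hz.2.le⟩
  · have h1 : {z : E n | (∀ i, 0 < z i) ∧ ∑ i, z i < 1} =
        (⋂ i, {z : E n | 0 < z i}) ∩ {z : E n | ∑ i, z i < 1} := by
      ext z; simp
    rw [h1]
    refine IsOpen.inter (isOpen_iInter_of_finite fun i => ?_) ?_
    · exact isOpen_lt continuous_const (by fun_prop)
    · exact isOpen_lt (by fun_prop) continuous_const
  · refine ⟨fun i => ?_, ?_⟩
    · simp only
      positivity
    · simp only [Finset.sum_const, Finset.card_univ, Fintype.card_fin, nsmul_eq_mul]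
      rw [mul_one_div, div_lt_one (by positivity)]
      linarith

/-- the right side of the inequality of the problem -/
noncomputable def minS (p : ℝ) (n : ℕ) : ℝ≥0∞ :=
  ⨅ x ∈ simplex n, mahlerLp p ((fun z => z - x) '' simplex n)

lemma smap_surj {s : Fin (n + 1) → E n} (hi : (interior (convexHull ℝ (range s))).Nonempty) :
    Function.Surjective (smap s) := by
  rw [← LinearMap.range_eq_top, eq_top_iff]
  intro y _
  obtain ⟨x, hx⟩ := hi
  rw [mem_interior_iff_mem_nhds] at hx
  have h1 : Tendsto (fun ε : ℝ => x + ε • y) (𝓝 0) (𝓝 x) := by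
    have : Continuous fun ε : ℝ => x + ε • y := by fun_prop
    have h2 := this.tendsto 0
    simpa using h2
  have h2 := h1.eventually hx
  have h3 : ∀ᶠ ε : ℝ in 𝓝[≠] 0, x + ε • y ∈ convexHull ℝ (range s) := h2.filter_mono nhdsWithin_le_nhds
  obtain ⟨ε, hε, hε0⟩ := (h3.and self_mem_nhdsWithin).exists
  have hx' : x ∈ convexHull ℝ (range s) := mem_of_mem_nhds hx
  rw [hull_simplex] at hε hx'
  obtain ⟨a, -, ha⟩ := hε
  obtain ⟨b, -, hb⟩ := hx'
  refine ⟨ε⁻¹ • (a - b), ?_⟩
  have hε0' : ε ≠ 0 := hε0
  simp only at ha hb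
  rw [map_smul, map_sub]
  have : smap s a - smap s b = ε • y := by
    have h4 : (s 0 + smap s a) - (s 0 + smap s b) = ε • y := by rw [ha, hb]; abel
    rw [← h4]; abel
  rw [this, smul_smul, inv_mul_cancel₀ hε0', one_smul]

/-- **all simplices, in all positions** -/
theorem simplex_case (hp : 0 < p) {s : Fin (n + 1) → E n}
    (hi : (interior (convexHull ℝ (range s))).Nonempty) (z : E n) :
    minS p n ≤ mahlerLp p ((fun x => x - z) '' convexHull ℝ (range s)) := by
  have hsurj := smap_surj hi
  set A : E n ≃ₗ[ℝ] E n := LinearEquiv.ofBijective (smap s)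
    ⟨(LinearMap.injective_iff_surjective).2 hsurj, hsurj⟩ with hA
  have hAx : ∀ x, A x = smap s x := fun x => rfl
  set x₀ : E n := A.symm (z - s 0) with hx₀
  have h1 : (fun x => x - z) '' convexHull ℝ (range s) = A '' ((fun x => x - x₀) '' simplex n) := by
    rw [hull_simplex, image_image, image_image]
    refine image_congr fun x _ => ?_
    rw [map_sub, hx₀, LinearEquiv.apply_symm_apply, hAx]
    abel
  have hc : IsCompact ((fun x => x - x₀) '' simplex n) := (simplex_compact n).image (by fun_prop)
  have hii : (interior ((fun x => x - x₀) '' simplex n)).Nonempty := by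
    rw [interior_sub]; exact (simplex_interior n).image _
  have hV : 0 < volume ((fun x => x - x₀) '' simplex n) :=
    (isOpen_interior.measure_pos volume hii).trans_le (measure_mono interior_subset)
  rw [h1, mahler_linear A hc hV]
  by_cases hx : x₀ ∈ simplex n
  · exact iInf₂_le x₀ hx
  · rw [mahler_eq_top hp hc ?_ hii ?_]
    · exact le_top
    · have := (simplex_convex n).translate (-x₀)
      rw [image_congr (fun x _ => show -x₀ + x = x - x₀ by abel)] at this
      exact this
    · rw [zero_mem_sub]
      intro h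
      exact hx (interior_subset h)

end Pool.Agent.Helper57K1.LM
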