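import Pool.Agent.Helper57K1.LM.H

/-!
# Polytopes with `n + 2` vertices
-/

set_option autoImplicit false

namespace Pool.Agent.Helper57K1.LM

open MeasureTheory Set Filter Topology
open scoped ENNReal NNReal
open Pool.Agent.Y513.LPM (E Z mahlerLp supportLp)

variable {n : ℕ} {p : ℝ}

lemma mem_hull {ι : Type*} [Fintype ι] (w : ι → E n) (x : E n) :
    x ∈ convexHull ℝ (range w) ↔ ∃ c : ι → ℝ, (∀ i, 0 ≤ c i) ∧ ∑ i, c i = 1 ∧
      ∑ i, c i • w i = x := by
  classical
  constructor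
  · intro hx
    have h : convexHull ℝ (range w) ⊆ {x | ∃ c : ι → ℝ, (∀ i, 0 ≤ c i) ∧ ∑ i, c i = 1 ∧
        ∑ i, c i • w i = x} := by
      refine convexHull_min ?_ ?_
      · rintro _ ⟨j, rfl⟩
        refine ⟨fun i => if i = j then 1 else 0, fun i => ?_, ?_, ?_⟩
        · dsimp only; split_ifs <;> norm_num
        · simp
        · simp
      · rintro _ ⟨c, hc0, hc1, rfl⟩ _ ⟨d, hd0, hd1, rfl⟩ a b ha hb hab
        refine ⟨fun i => a * c i + b * d i, fun i => ?_, ?_, ?_⟩
        · exact add_nonneg (mul_nonneg ha (hc0 i)) (mul_nonneg hb (hd0 i))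
        · rw [Finset.sum_add_distrib, ← Finset.mul_sum, ← Finset.mul_sum, hc1, hd1, mul_one,
            mul_one, hab]
        · rw [Finset.smul_sum, Finset.smul_sum, ← Finset.sum_add_distrib]
          refine Finset.sum_congr rfl fun i _ => ?_
          module
    exact h hx
  · rintro ⟨c, hc0, hc1, rfl⟩
    exact (convex_convexHull ℝ _).sum_mem (fun i _ => hc0 i) hc1
      (fun i _ => subset_convexHull ℝ _ ⟨i, rfl⟩)

/-- points in general position: every point is an affine combination -/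
lemma exists_affine {ι : Type*} [Fintype ι] {w : ι → E n}
    (hi : (interior (convexHull ℝ (range w))).Nonempty) (x : E n) :
    ∃ c : ι → ℝ, ∑ i, c i = 1 ∧ ∑ i, c i • w i = x := by
  obtain ⟨x₀, hx₀⟩ := hi
  have hx' : x₀ ∈ convexHull ℝ (range w) := interior_subset hx₀
  rw [mem_interior_iff_mem_nhds] at hx₀
  have h1 : Tendsto (fun ε : ℝ => x₀ + ε • (x - x₀)) (𝓝 0) (𝓝 x₀) := by
    have : Continuous fun ε : ℝ => x₀ + ε • (x - x₀) := by fun_prop
    have h2 := this.tendsto 0
    simpa using h2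
  have h2 := h1.eventually hx₀
  have h3 : ∀ᶠ ε : ℝ in 𝓝[≠] 0, x₀ + ε • (x - x₀) ∈ convexHull ℝ (range w) :=
    h2.filter_mono nhdsWithin_le_nhds
  obtain ⟨ε, hε, hε0⟩ := (h3.and self_mem_nhdsWithin).exists
  have hε0' : ε ≠ 0 := hε0
  obtain ⟨c, -, hc1, hc⟩ := (mem_hull w _).1 hε
  obtain ⟨d, -, hd1, hd⟩ := (mem_hull w _).1 hx'
  refine ⟨fun i => (1 - ε⁻¹) * d i + ε⁻¹ * c i, ?_, ?_⟩
  · rw [Finset.sum_add_distrib, ← Finset.mul_sum, ← Finset.mul_sum, hc1, hd1]; ring
  · simp only [add_smul, mul_smul, Finset.sum_add_distrib, ← Finset.smul_sum]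
    rw [hc, hd, smul_add, smul_smul, inv_mul_cancel₀ hε0']
    module

/-- coordinates -/
lemma exists_coord {w : Fin (n + 2) → E n} (hi : (interior (convexHull ℝ (range w))).Nonempty)
    {κ : Fin (n + 2) → ℝ} (hκ : ∑ i, κ i = 0) (hκw : ∑ i, κ i • w i = 0) {i₀ : Fin (n + 2)}
    (h0 : κ i₀ ≠ 0) : ∃ b : E n → Fin (n + 2) → ℝ, Continuous b ∧
      (∀ c : Fin (n + 2) → ℝ, ∑ i, c i = 1 →
        b (∑ i, c i • w i) = fun i => c i - c i₀ / κ i₀ * κ i) := by
  set Φ : (Fin (n + 1) → ℝ) →ₗ[ℝ] (E n × ℝ) :=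
    { toFun := fun c => (∑ j, c j • w (i₀.succAbove j), ∑ j, c j)
      map_add' := fun c d => by
        ext1
        · simp [add_smul, Finset.sum_add_distrib]
        · simp [Finset.sum_add_distrib]
      map_smul' := fun r c => by
        ext1
        · simp [mul_smul, Finset.smul_sum]
        · simp [Finset.mul_sum] } with hΦ
  -- the value of `Φ` on reduced coefficients
  have hval : ∀ d : Fin (n + 2) → ℝ, d i₀ = 0 →
      Φ (fun j => d (i₀.succAbove j)) = (∑ i, d i • w i, ∑ i, d i) := by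
    intro d hd
    simp only [hΦ, LinearMap.coe_mk, AddHom.coe_mk]
    rw [Fin.sum_univ_succAbove (fun i => d i • w i) i₀, Fin.sum_univ_succAbove d i₀, hd]
    simp
  have hred : ∀ c : Fin (n + 2) → ℝ, Φ (fun j => c (i₀.succAbove j) -
      c i₀ / κ i₀ * κ (i₀.succAbove j)) = (∑ i, c i • w i, ∑ i, c i) := by
    intro c
    have h1 := hval (fun i => c i - c i₀ / κ i₀ * κ i) (by field_simp; ring)
    rw [h1]
    ext1
    · simp only [sub_smul, Finset.sum_sub_distrib, mul_smul, ← Finset.smul_sum]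
      rw [hκw, smul_zero, sub_zero]
    · simp only [Finset.sum_sub_distrib, ← Finset.mul_sum]
      rw [hκ, mul_zero, sub_zero]
  have hsurj : Function.Surjective Φ := by
    rintro ⟨y, r⟩
    obtain ⟨c, hc1, hc⟩ := exists_affine hi y
    obtain ⟨d, hd1, hd⟩ := exists_affine hi 0
    refine ⟨_, (hred (fun i => c i - (1 - r) * d i)).trans ?_⟩
    ext1
    · simp only [sub_smul, Finset.sum_sub_distrib, mul_smul, ← Finset.smul_sum]
      rw [hc, hd]; simp
    · simp only [Finset.sum_sub_distrib, ← Finset.mul_sum]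
      rw [hc1, hd1]; ring
  have hfr : Module.finrank ℝ (Fin (n + 1) → ℝ) = Module.finrank ℝ (E n × ℝ) := by simp
  have hinj : Function.Injective Φ := (LinearMap.injective_iff_surjective_of_finrank_eq_finrank hfr).2 hsurj
  set e : (Fin (n + 1) → ℝ) ≃ₗ[ℝ] (E n × ℝ) := LinearEquiv.ofBijective Φ ⟨hinj, hsurj⟩ with he
  have hec : Continuous e.symm := LinearMap.continuous_of_finiteDimensional
    (e.symm : (E n × ℝ) →ₗ[ℝ] (Fin (n + 1) → ℝ))
  refine ⟨fun x => i₀.insertNth 0 (e.symm (x, 1)), ?_, ?_⟩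
  · refine continuous_pi fun i => ?_
    refine Fin.succAboveCases i₀ ?_ (fun j => ?_) i
    · simp only [Fin.insertNth_apply_same]
      exact continuous_const
    · simp only [Fin.insertNth_apply_succAbove]
      exact (continuous_apply j).comp (hec.comp (by fun_prop))
  · intro c hc
    have h1 : e.symm (∑ i, c i • w i, 1) = fun j => c (i₀.succAbove j) -
        c i₀ / κ i₀ * κ (i₀.succAbove j) := by
      rw [LinearEquiv.symm_apply_eq]
      change _ = Φ _
      rw [hred, hc]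
    funext i
    change (i₀.insertNth (α := fun _ => ℝ) (0:ℝ) (e.symm (∑ i, c i • w i, 1)) : Fin (n + 2) → ℝ) i = _
    rw [h1]
    refine Fin.succAboveCases i₀ ?_ (fun j => ?_) i
    · simp only [Fin.insertNth_apply_same]
      field_simp
      ring
    · simp only [Fin.insertNth_apply_succAbove]

/-- the positive part of an affine dependence -/
noncomputable def pos (κ : Fin (n + 2) → ℝ) : Finset (Fin (n + 2)) := Finset.univ.filter fun i => 0 < κ i

lemma mem_pos (κ : Fin (n + 2) → ℝ) (i : Fin (n + 2)) : i ∈ pos κ ↔ 0 < κ i := by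
  unfold pos; simp

/-- representation with prescribed weight of the moving vertex -/
lemma exists_rep {w w' : Fin (n + 2) → E n} {κ κ' : Fin (n + 2) → ℝ} {i₀ : Fin (n + 2)}
    (h0 : 0 < κ i₀) {b : E n → Fin (n + 2) → ℝ}
    (hb : ∀ c : Fin (n + 2) → ℝ, ∑ i, c i = 1 →
        b (∑ i, c i • w i) = fun i => c i - c i₀ / κ i₀ * κ i)
    (hww : ∀ j, j ≠ i₀ → w' j = w j) (hpos : ∀ i, 0 < κ i → κ' i = κ i)
    (hneg : ∀ i, κ i ≤ 0 → κ' i ≤ 0) (hκ' : ∑ i, κ' i = 0) (hκw' : ∑ i, κ' i • w' i = 0)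
    {x : E n} (hx : x ∈ convexHull ℝ (range w')) :
    ∃ c : Fin (n + 2) → ℝ, (∀ i, 0 ≤ c i) ∧ ∑ i, c i = 1 ∧ ∑ i, c i • w' i = x ∧
      c i₀ = κ i₀ * (pos κ).sup' ⟨i₀, (mem_pos κ i₀).2 h0⟩ (fun i => -b x i / κ i) := by
  obtain ⟨c, hc0, hc1, hc⟩ := (mem_hull w' x).1 hx
  have hne : (pos κ).Nonempty := ⟨i₀, (mem_pos κ i₀).2 h0⟩
  obtain ⟨k, hk, hmin⟩ := Finset.exists_min_image (pos κ) (fun i => c i / κ i) hne
  have hk0 : 0 < κ k := (mem_pos κ k).1 hk
  set s := c k / κ k with hs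
  have hs0 : 0 ≤ s := div_nonneg (hc0 k) hk0.le
  set d : Fin (n + 2) → ℝ := fun i => c i - s * κ' i with hd
  have hd0 : ∀ i, 0 ≤ d i := by
    intro i
    simp only [hd]
    rcases lt_or_ge 0 (κ i) with h | h
    · have h1 := hmin i ((mem_pos κ i).2 h)
      rw [hpos i h]
      have h2 : s * κ i ≤ c i := by
        rw [← le_div_iff₀ h]; exact h1
      linarith
    · have := hneg i h
      have := hc0 i
      nlinarith
  have hd1 : ∑ i, d i = 1 := by
    simp only [hd, Finset.sum_sub_distrib, ← Finset.mul_sum]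
    rw [hc1, hκ', mul_zero, sub_zero]
  have hdx : ∑ i, d i • w' i = x := by
    simp only [hd, sub_smul, Finset.sum_sub_distrib, mul_smul, ← Finset.smul_sum]
    rw [hc, hκw', smul_zero, sub_zero]
  refine ⟨d, hd0, hd1, hdx, ?_⟩
  -- the coordinates of `x`
  have hκ0 : κ' i₀ = κ i₀ := hpos i₀ h0
  set f : Fin (n + 2) → ℝ := fun i => d i - d i₀ / κ i₀ * κ' i with hf
  have hf0 : f i₀ = 0 := by
    simp only [hf]
    rw [hκ0]
    field_simp
    ring
  have hf1 : ∑ i, f i = 1 := by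
    simp only [hf, Finset.sum_sub_distrib, ← Finset.mul_sum]
    rw [hd1, hκ', mul_zero, sub_zero]
  have hfx : ∑ i, f i • w i = x := by
    have h1 : ∑ i, f i • w i = ∑ i, f i • w' i := by
      refine Finset.sum_congr rfl fun i _ => ?_
      rcases eq_or_ne i i₀ with rfl | h
      · rw [hf0, zero_smul, zero_smul]
      · rw [hww i h]
    rw [h1]
    simp only [hf, sub_smul, Finset.sum_sub_distrib, mul_smul, ← Finset.smul_sum]
    rw [hdx, hκw', smul_zero, sub_zero]
  have hbx : ∀ i, b x i = f i := by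
    intro i
    rw [← hfx, hb f hf1, hf0]
    simp
  have hval : ∀ i, 0 < κ i → -b x i / κ i = d i₀ / κ i₀ - d i / κ i := by
    intro i hi
    rw [hbx]
    simp only [hf]
    rw [hpos i hi]
    field_simp
    ring
  have hsup : (pos κ).sup' hne (fun i => -b x i / κ i) = d i₀ / κ i₀ := by
    apply le_antisymm
    · refine Finset.sup'_le _ _ fun i hi => ?_
      have hi' := (mem_pos κ i).1 hi
      rw [hval i hi']
      have : 0 ≤ d i / κ i := div_nonneg (hd0 i) hi'.le
      linarith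
    · have h1 : -b x k / κ k = d i₀ / κ i₀ := by
        rw [hval k hk0]
        have : d k = 0 := by
          simp only [hd]
          rw [hpos k hk0, hs]
          field_simp
          ring
        rw [this, zero_div, sub_zero]
      rw [← h1]
      exact Finset.le_sup' (fun i => -b x i / κ i) hk
  rw [hsup]
  field_simp

end Pool.Agent.Helper57K1.LM
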