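import Pool.Agent.Helper57K1.LM.I

/-!
# Polytopes with `n + 2` vertices: the induction
-/

set_option autoImplicit false

namespace Pool.Agent.Helper57K1.LM

open MeasureTheory Set Filter Topology
open scoped ENNReal NNReal
open Pool.Agent.Y513.LPM (E Z mahlerLp supportLp)

variable {n : ℕ} {p : ℝ}

/-- the weight of the moving vertex -/
noncomputable def wt (κ : Fin (n + 2) → ℝ) {i₀ : Fin (n + 2)} (h0 : 0 < κ i₀)
    (b : E n → Fin (n + 2) → ℝ) (x : E n) : ℝ :=
  κ i₀ * (pos κ).sup' ⟨i₀, (mem_pos κ i₀).2 h0⟩ (fun i => -b x i / κ i)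

lemma wt_cont {κ : Fin (n + 2) → ℝ} {i₀ : Fin (n + 2)} (h0 : 0 < κ i₀)
    {b : E n → Fin (n + 2) → ℝ} (hb : Continuous b) : Continuous (wt κ h0 b) := by
  unfold wt
  refine continuous_const.mul ?_
  refine Continuous.finset_sup'_apply _ fun i _ => ?_
  exact (((continuous_apply i).comp hb).neg).div_const _

section
variable {w : Fin (n + 2) → E n} {κ : Fin (n + 2) → ℝ} {i₀ j₁ j₂ : Fin (n + 2)}
    {b : E n → Fin (n + 2) → ℝ}

lemma wt_inv (hi : (interior (convexHull ℝ (range w))).Nonempty)
    (h0 : 0 < κ i₀) (hj1 : κ j₁ < 0) (hj2 : κ j₂ < 0)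
    (hb : ∀ c : Fin (n + 2) → ℝ, ∑ i, c i = 1 →
        b (∑ i, c i • w i) = fun i => c i - c i₀ / κ i₀ * κ i) (x : E n) (s : ℝ) :
    wt κ h0 b (x + s • (w j₂ - w j₁)) = wt κ h0 b x := by
  obtain ⟨c, hc1, hc⟩ := exists_affine hi x
  have hij1 : i₀ ≠ j₁ := by rintro rfl; linarith
  have hij2 : i₀ ≠ j₂ := by rintro rfl; linarith
  have h1 : ∀ i, 0 < κ i → b (x + s • (w j₂ - w j₁)) i = b x i := by
    intro i hi
    have hi1 : i ≠ j₁ := by rintro rfl; linarith
    have hi2 : i ≠ j₂ := by rintro rfl; linarith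
    set d : Fin (n + 2) → ℝ := fun k => c k + s * ((if k = j₂ then 1 else 0) -
      (if k = j₁ then 1 else 0)) with hd
    have hd1 : ∑ k, d k = 1 := by
      simp only [hd, Finset.sum_add_distrib, ← Finset.mul_sum, Finset.sum_sub_distrib]
      rw [hc1]; simp
    have hdx : ∑ k, d k • w k = x + s • (w j₂ - w j₁) := by
      simp only [hd, add_smul, Finset.sum_add_distrib, mul_smul, sub_smul,
        ← Finset.smul_sum, Finset.sum_sub_distrib]
      rw [hc]; simp
    have h2 := congrFun (hb d hd1) i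
    have h3 := congrFun (hb c hc1) i
    rw [hdx] at h2
    rw [hc] at h3
    rw [h2, h3]
    simp [hd, hi1, hi2, hij1, hij2]
  unfold wt
  congr 1
  refine Finset.sup'_congr _ rfl fun i hi => ?_
  rw [h1 i ((mem_pos κ i).1 hi)]

lemma shear_image (hi : (interior (convexHull ℝ (range w))).Nonempty)
    (hκ : ∑ i, κ i = 0) (hκw : ∑ i, κ i • w i = 0)
    (h0 : 0 < κ i₀) (hj1 : κ j₁ < 0) (hj2 : κ j₂ < 0) (hne : j₁ ≠ j₂)
    (hb : ∀ c : Fin (n + 2) → ℝ, ∑ i, c i = 1 →
        b (∑ i, c i • w i) = fun i => c i - c i₀ / κ i₀ * κ i) {t : ℝ}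
    {κ' : Fin (n + 2) → ℝ}
    (hκ'1 : κ' j₁ = κ j₁ + κ i₀ * t) (hκ'2 : κ' j₂ = κ j₂ - κ i₀ * t)
    (hκ'3 : ∀ i, i ≠ j₁ → i ≠ j₂ → κ' i = κ i)
    (ht1 : κ j₁ + κ i₀ * t ≤ 0) (ht2 : κ j₂ - κ i₀ * t ≤ 0) :
    ∑ i, κ' i = 0 ∧
      ∑ i, κ' i • (Function.update w i₀ (w i₀ + t • (w j₂ - w j₁)) : Fin (n + 2) → E n) i = 0 ∧
    shear (wt κ h0 b) (w j₂ - w j₁) t '' convexHull ℝ (range w) =
      convexHull ℝ (range (Function.update w i₀ (w i₀ + t • (w j₂ - w j₁)))) := by
  have hij1 : i₀ ≠ j₁ := by rintro rfl; linarith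
  have hij2 : i₀ ≠ j₂ := by rintro rfl; linarith
  set v : E n := w j₂ - w j₁ with hv
  set w' : Fin (n + 2) → E n := Function.update w i₀ (w i₀ + t • v) with hw'
  have hw'0 : w' i₀ = w i₀ + t • v := by rw [hw', Function.update_self]
  have hw'1 : ∀ j, j ≠ i₀ → w' j = w j := fun j hj => by rw [hw', Function.update_of_ne hj]
  have hκ'' : κ' = fun i => κ i + (κ i₀ * t) * ((if i = j₁ then 1 else 0) -
      (if i = j₂ then 1 else 0)) := by
    funext i
    rcases eq_or_ne i j₁ with rfl | h
    · rw [hκ'1]; simp [hne]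
    · rcases eq_or_ne i j₂ with rfl | h'
      · rw [hκ'2]; simp [h]; ring
      · rw [hκ'3 i h h']; simp [h, h']
  have hsum : ∑ i, κ' i = 0 := by
    rw [hκ'']
    simp only [Finset.sum_add_distrib, ← Finset.mul_sum, Finset.sum_sub_distrib]
    rw [hκ]; simp
  -- combinations of the two families
  have hcomb : ∀ c : Fin (n + 2) → ℝ, ∑ i, c i • w' i = ∑ i, c i • w i + (c i₀ * t) • v := by
    intro c
    have h1 : ∀ i, c i • w' i = c i • w i + (if i = i₀ then (c i₀ * t) • v else 0) := by
      intro i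
      rcases eq_or_ne i i₀ with rfl | h
      · rw [hw'0]; simp only [if_true]; module
      · rw [hw'1 i h]; simp [h]
    simp_rw [h1, Finset.sum_add_distrib]
    simp
  have hsumw : ∑ i, κ' i • w' i = 0 := by
    rw [hcomb, hκ'3 i₀ hij1 hij2, hκ'']
    simp only [add_smul, Finset.sum_add_distrib, mul_smul, sub_smul, ← Finset.smul_sum,
      Finset.sum_sub_distrib]
    rw [hκw]
    simp only [ite_smul, one_smul, zero_smul, Finset.sum_ite_eq', Finset.mem_univ, if_true, hv]
    module
  refine ⟨hsum, hsumw, ?_⟩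
  have hinv := wt_inv hi h0 hj1 hj2 hb
  apply Subset.antisymm
  · rintro _ ⟨y, hy, rfl⟩
    obtain ⟨c, hc0, hc1, hc, hcβ⟩ := exists_rep (w' := w) (κ' := κ) h0 hb (fun _ _ => rfl)
      (fun _ _ => rfl) (fun _ h => h) hκ hκw hy
    rw [mem_hull]
    refine ⟨c, hc0, hc1, ?_⟩
    rw [hcomb, hc, hcβ]
    unfold shear wt
    rw [mul_comm t]
  · intro x hx
    obtain ⟨c, hc0, hc1, hc, hcβ⟩ := exists_rep (w' := w') (κ' := κ') h0 hb hw'1
      (fun i hi => hκ'3 i (by rintro rfl; linarith) (by rintro rfl; linarith))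
      (fun i hi => by
        rcases eq_or_ne i j₁ with rfl | h
        · rw [hκ'1]; exact ht1
        · rcases eq_or_ne i j₂ with rfl | h'
          · rw [hκ'2]; exact ht2
          · rw [hκ'3 i h h']; exact hi) hsum hsumw hx
    have hy : ∑ i, c i • w i ∈ convexHull ℝ (range w) := (mem_hull w _).2 ⟨c, hc0, hc1, rfl⟩
    refine ⟨_, hy, ?_⟩
    have hxy : ∑ i, c i • w i = x + (-(c i₀ * t)) • v := by
      rw [← hc, hcomb]; module
    unfold shear
    rw [hxy, hinv]
    change x + (-(c i₀ * t)) • v + (t * (κ i₀ * (pos κ).sup' _ (fun i => -b x i / κ i))) • v = x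
    rw [← hcβ]
    module

end

/-- a redundant point can be dropped -/
lemma drop_case (hp : 0 < p) {w : Fin (n + 2) → E n}
    (hi : (interior (convexHull ℝ (range w))).Nonempty) (j : Fin (n + 2))
    (hj : w j ∈ convexHull ℝ (range (w ∘ j.succAbove))) (z : E n) :
    minS p n ≤ mahlerLp p ((fun x => x - z) '' convexHull ℝ (range w)) := by
  have h1 : convexHull ℝ (range w) = convexHull ℝ (range (w ∘ j.succAbove)) := by
    apply Subset.antisymm
    · refine convexHull_min ?_ (convex_convexHull ℝ _)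
      rintro _ ⟨i, rfl⟩
      refine Fin.succAboveCases j hj (fun k => ?_) i
      exact subset_convexHull ℝ _ ⟨k, rfl⟩
    · refine convexHull_mono ?_
      rintro _ ⟨i, rfl⟩
      exact ⟨_, rfl⟩
  rw [h1] at hi ⊢
  exact simplex_case hp hi z

lemma hull_compact {ι : Type*} [Finite ι] (w : ι → E n) : IsCompact (convexHull ℝ (range w)) :=
  (finite_range w).isCompact_convexHull (𝕜 := ℝ)

theorem few_aux (hp : 0 < p) : ∀ (m : ℕ) (w : Fin (n + 2) → E n) (κ : Fin (n + 2) → ℝ),
    κ ≠ 0 → ∑ i, κ i = 0 → ∑ i, κ i • w i = 0 → (Finset.univ.filter fun i => κ i < 0).card ≤ m →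
    (interior (convexHull ℝ (range w))).Nonempty → ∀ z : E n,
    minS p n ≤ mahlerLp p ((fun x => x - z) '' convexHull ℝ (range w)) := by
  intro m
  induction m with
  | zero =>
    intro w κ h0 hκ hκw hm hi z
    exfalso
    have h1 : ∀ i, 0 ≤ κ i := by
      intro i
      by_contra h
      push Not at h
      have : i ∈ Finset.univ.filter fun i => κ i < 0 := by simp [h]
      have := Finset.card_pos.2 ⟨i, this⟩
      omega
    apply h0
    funext i
    exact (Finset.sum_eq_zero_iff_of_nonneg (fun i _ => h1 i)).1 hκ i (Finset.mem_univ i)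
  | succ m ih =>
    intro w κ h0 hκ hκw hm hi z
    -- a negative index and a positive index
    obtain ⟨j₁, hj1⟩ : ∃ j, κ j < 0 := by
      by_contra h
      push Not at h
      apply h0
      funext i
      exact (Finset.sum_eq_zero_iff_of_nonneg (fun i _ => h i)).1 hκ i (Finset.mem_univ i)
    obtain ⟨i₀, hi0⟩ : ∃ i, 0 < κ i := by
      by_contra h
      push Not at h
      have h2 := (Finset.sum_eq_zero_iff_of_nonpos (fun i _ => h i)).1 hκ j₁ (Finset.mem_univ j₁)
      linarith
    by_cases hu : ∃ j₂, j₂ ≠ j₁ ∧ κ j₂ < 0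
    · obtain ⟨j₂, hne, hj2⟩ := hu
      by_cases hv : w j₂ - w j₁ = 0
      · -- a repeated point
        refine drop_case hp hi j₂ ?_ z
        obtain ⟨k, hk⟩ := Fin.exists_succAbove_eq hne.symm
        rw [sub_eq_zero.1 hv, ← hk]
        exact subset_convexHull ℝ _ ⟨k, rfl⟩
      obtain ⟨b, hbc, hb⟩ := exists_coord hi hκ hκw (i₀ := i₀) hi0.ne'
      have hinv := wt_inv hi hi0 hj1 hj2 hb
      -- the two end points
      have key : ∀ (t : ℝ) (ht1 : κ j₁ + κ i₀ * t ≤ 0) (ht2 : κ j₂ - κ i₀ * t ≤ 0)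
          (_ : κ j₁ + κ i₀ * t = 0 ∨ κ j₂ - κ i₀ * t = 0),
          Convex ℝ (shear (wt κ hi0 b) (w j₂ - w j₁) t '' convexHull ℝ (range w)) ∧
          ∀ z : E n, minS p n ≤ mahlerLp p ((fun x => x - z) ''
            (shear (wt κ hi0 b) (w j₂ - w j₁) t '' convexHull ℝ (range w))) := by
        intro t ht1 ht2 hz
        have hij1 : i₀ ≠ j₁ := by rintro rfl; linarith
        have hij2 : i₀ ≠ j₂ := by rintro rfl; linarith
        set κ' : Fin (n + 2) → ℝ := Function.update (Function.update κ j₂ (κ j₂ - κ i₀ * t)) j₁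
          (κ j₁ + κ i₀ * t) with hκ'
        have e1 : κ' j₁ = κ j₁ + κ i₀ * t := by rw [hκ', Function.update_self]
        have e2 : κ' j₂ = κ j₂ - κ i₀ * t := by
          rw [hκ', Function.update_of_ne hne, Function.update_self]
        have e3 : ∀ i, i ≠ j₁ → i ≠ j₂ → κ' i = κ i := fun i h h' => by
          rw [hκ', Function.update_of_ne h, Function.update_of_ne h']
        obtain ⟨s1, s2, himg⟩ := shear_image hi hκ hκw hi0 hj1 hj2 hne.symm hb e1 e2 e3 ht1 ht2
        have hint : (interior (convexHull ℝ (range (Function.update w i₀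
            (w i₀ + t • (w j₂ - w j₁)))))).Nonempty := by
          rw [← himg]
          have h1 := (shearH (wt_cont hi0 hbc) hinv t).image_interior (convexHull ℝ (range w))
          have h2 : (interior (⇑(shearH (wt_cont hi0 hbc) hinv t) ''
            convexHull ℝ (range w))).Nonempty := by
            rw [← h1]; exact hi.image _
          exact h2
        rw [himg]
        refine ⟨convex_convexHull ℝ _, ih _ κ' ?_ s1 s2 ?_ hint⟩
        · intro h
          have := congrFun h i₀
          rw [e3 i₀ hij1 hij2] at this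
          simp at this
          linarith
        · -- fewer negative indices
          have hsub : (Finset.univ.filter fun i => κ' i < 0) ⊂
              (Finset.univ.filter fun i => κ i < 0) := by
            rw [Finset.ssubset_iff_of_subset]
            · rcases hz with hz | hz
              · exact ⟨j₁, by simp [hj1], by simp [e1, hz]⟩
              · exact ⟨j₂, by simp [hj2], by simp [e2, hz]⟩
            · intro i hi'
              simp only [Finset.mem_filter, Finset.mem_univ, true_and] at hi' ⊢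
              rcases eq_or_ne i j₁ with rfl | h
              · exact hj1
              · rcases eq_or_ne i j₂ with rfl | h'
                · exact hj2
                · rwa [e3 i h h'] at hi'
          have := Finset.card_lt_card hsub
          omega
      have hk0 := key (κ j₂ / κ i₀) (by
          rw [mul_div_cancel₀ _ hi0.ne']; linarith) (by
          rw [mul_div_cancel₀ _ hi0.ne']; linarith) (Or.inr (by
          rw [mul_div_cancel₀ _ hi0.ne']; linarith))
      have hk1 := key (-κ j₁ / κ i₀) (by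
          rw [mul_div_cancel₀ _ hi0.ne']; linarith) (by
          rw [mul_div_cancel₀ _ hi0.ne']; linarith) (Or.inl (by
          rw [mul_div_cancel₀ _ hi0.ne']; linarith))
      exact moving' hp (hull_compact w) (convex_convexHull ℝ _) hi (wt_cont hi0 hbc) hv hinv
        (div_neg_of_neg_of_pos hj2 hi0) (div_pos (neg_pos.2 hj1) hi0) hk0.1 hk1.1 hk0.2 hk1.2 z
    · -- a single negative index: the point is redundant
      push Not at hu
      refine drop_case hp hi j₁ ?_ z
      rw [mem_hull]
      refine ⟨fun k => κ (j₁.succAbove k) / (-κ j₁), fun k => ?_, ?_, ?_⟩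
      · exact div_nonneg (hu _ (Fin.succAbove_ne j₁ k)) (by linarith)
      · rw [← Finset.sum_div]
        rw [Fin.sum_univ_succAbove κ j₁] at hκ
        rw [div_eq_one_iff_eq (by linarith)]
        linarith
      · rw [Fin.sum_univ_succAbove _ j₁] at hκw
        have h2 : ∑ k, (κ (j₁.succAbove k) / (-κ j₁)) • (w ∘ j₁.succAbove) k =
            (-κ j₁)⁻¹ • ∑ k, κ (j₁.succAbove k) • w (j₁.succAbove k) := by
          rw [Finset.smul_sum]
          refine Finset.sum_congr rfl fun k _ => ?_
          rw [smul_smul, Function.comp_apply, div_eq_inv_mul]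
        rw [h2, ← neg_eq_of_add_eq_zero_right hκw, ← neg_smul, smul_smul,
          inv_mul_cancel₀ (by linarith), one_smul]

/-- **the `L^p`-Mahler inequality for convex hulls of `n + 2` points** -/
theorem few (hp : 0 < p) (w : Fin (n + 2) → E n)
    (hi : (interior (convexHull ℝ (range w))).Nonempty) (z : E n) :
    minS p n ≤ mahlerLp p ((fun x => x - z) '' convexHull ℝ (range w)) := by
  -- an affine dependence
  set Ψ : (Fin (n + 2) → ℝ) →ₗ[ℝ] (E n × ℝ) :=
    { toFun := fun c => (∑ j, c j • w j, ∑ j, c j)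
      map_add' := fun c d => by
        ext1
        · simp [add_smul, Finset.sum_add_distrib]
        · simp [Finset.sum_add_distrib]
      map_smul' := fun r c => by
        ext1
        · simp [mul_smul, Finset.smul_sum]
        · simp [Finset.mul_sum] } with hΨ
  have hker : LinearMap.ker Ψ ≠ ⊥ := by
    apply LinearMap.ker_ne_bot_of_finrank_lt
    simp
  obtain ⟨κ, hκ, hκ0⟩ := (Submodule.ne_bot_iff _).1 hker
  have h1 : Ψ κ = 0 := hκ
  have h2 : ∑ j, κ j • w j = 0 := congrArg Prod.fst h1
  have h3 : ∑ j, κ j = 0 := congrArg Prod.snd h1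
  exact few_aux hp _ w κ hκ0 h3 h2 le_rfl hi z

end Pool.Agent.Helper57K1.LM
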