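import Pool.Agent.Helper57K1.LM.J
import Pool.Agent.H73R3.Hull

/-!
# Moving one vertex over a hyperplane
-/

set_option autoImplicit false

namespace Pool.Agent.Helper57K1.LM

open MeasureTheory Set Filter Topology
open scoped ENNReal NNReal
open Pool.Agent.Y513.LPM (E Z mahlerLp supportLp)

variable {n : ℕ} {p : ℝ}

section
variable {W : Set (E n)} {ℓ : E n → ℝ} {x₀ v : E n}

/-- the hull of the moving vertex and the rest: representation -/
lemma rep_insert (hW : W.Nonempty)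
    (hℓ : ∀ (x y : E n) (a b : ℝ), a + b = 1 → ℓ (a • x + b • y) = a * ℓ x + b * ℓ y)
    (hneg : ∀ q ∈ convexHull ℝ W, ℓ q ≤ 0) {c : E n} (hc1 : ℓ c = 1)
    (hC : ∀ q ∈ convexHull ℝ W, (1 / (1 - ℓ q)) • (q - ℓ q • c) ∈ convexHull ℝ W)
    {x : E n} (hx : x ∈ convexHull ℝ (insert c W)) :
    max 0 (ℓ x) ≤ 1 ∧ ∃ q ∈ convexHull ℝ W, x = max 0 (ℓ x) • c + (1 - max 0 (ℓ x)) • q := by
  rw [convexHull_insert hW, mem_convexJoin] at hx
  obtain ⟨c', hc', q, hq, hxq⟩ := hx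
  rw [mem_singleton_iff] at hc'
  subst hc'
  obtain ⟨a, b, ha, hb, hab, rfl⟩ := hxq
  have hq0 := hneg q hq
  have hval : ℓ (a • c' + b • q) = a + b * ℓ q := by rw [hℓ _ _ _ _ hab, hc1, mul_one]
  rw [hval]
  have hle : a + b * ℓ q ≤ 1 := by nlinarith
  refine ⟨max_le zero_le_one hle, ?_⟩
  rcases le_or_gt 0 (a + b * ℓ q) with h | h
  · rw [max_eq_right h]
    refine ⟨_, hC q hq, ?_⟩
    have h1 : 0 < 1 - ℓ q := by linarith
    have h2 : 1 - (a + b * ℓ q) = b * (1 - ℓ q) := by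
      linear_combination (-1 : ℝ) * hab
    rw [h2, smul_smul]
    have h3 : b * (1 - ℓ q) * (1 / (1 - ℓ q)) = b := by field_simp
    rw [h3]
    module
  · rw [max_eq_left h.le]
    simp only [zero_smul, sub_zero, one_smul, zero_add]
    refine ⟨_, ?_, rfl⟩
    -- `x` lies between the crossing point and `q`
    have hb0 : 0 < b := by
      by_contra hb'
      have : b = 0 := le_antisymm (not_lt.1 hb') hb
      rw [this] at h
      linarith
    have hq1 : ℓ q < 0 := by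
      by_contra hq'
      have : ℓ q = 0 := le_antisymm hq0 (not_lt.1 hq')
      rw [this] at h
      linarith
    have h1 : 0 < 1 - ℓ q := by linarith
    have hqne : ℓ q ≠ 0 := hq1.ne
    have h4 := convex_convexHull ℝ W (hC q hq) hq
      (a := a * (1 - ℓ q) / (-ℓ q)) (b := (a + b * ℓ q) / ℓ q)
      (div_nonneg (by positivity) (by linarith))
      (div_nonneg_of_nonpos h.le hq1.le) (by
        have : b = 1 - a := by linarith
        rw [this]
        field_simp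
        ring)
    have h5 : (a * (1 - ℓ q) / (-ℓ q)) • (1 / (1 - ℓ q)) • (q - ℓ q • c') +
        ((a + b * ℓ q) / ℓ q) • q = a • c' + b • q := by
      have e1 : a * (1 - ℓ q) / (-ℓ q) * (1 / (1 - ℓ q)) = -(a / ℓ q) := by
        field_simp
      have e2 : (a + b * ℓ q) / ℓ q = a / ℓ q + b := by field_simp
      rw [smul_smul, e1, e2, smul_sub, smul_smul]
      have e3 : -(a / ℓ q) * ℓ q = -a := by rw [neg_mul, div_mul_cancel₀ _ hq1.ne]
      rw [e3]
      module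
    rwa [h5] at h4

/-- the shear images of the hull of a moving vertex and the rest -/
lemma shear_insert (hW : W.Nonempty)
    (hℓ : ∀ (x y : E n) (a b : ℝ), a + b = 1 → ℓ (a • x + b • y) = a * ℓ x + b * ℓ y)
    (hneg : ∀ q ∈ convexHull ℝ W, ℓ q ≤ 0) (hx₀ : ℓ x₀ = 1)
    (hinv : ∀ (x : E n) (s : ℝ), ℓ (x + s • v) = ℓ x)
    (hC0 : ∀ q ∈ convexHull ℝ W, (1 / (1 - ℓ q)) • (q - ℓ q • x₀) ∈ convexHull ℝ W) {t : ℝ}
    (hCt : ∀ q ∈ convexHull ℝ W, (1 / (1 - ℓ q)) • (q - ℓ q • (x₀ + t • v)) ∈ convexHull ℝ W) :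
    shear (fun x => max 0 (ℓ x)) v t '' convexHull ℝ (insert x₀ W) =
      convexHull ℝ (insert (x₀ + t • v) W) := by
  have hjoin : ∀ (c q : E n) (a : ℝ), 0 ≤ a → a ≤ 1 → q ∈ convexHull ℝ W →
      a • c + (1 - a) • q ∈ convexHull ℝ (insert c W) := by
    intro c q a ha ha1 hq
    exact convex_convexHull ℝ _ (subset_convexHull ℝ _ (mem_insert _ _))
      (convexHull_mono (subset_insert _ _) hq) ha (by linarith) (by ring)
  apply Subset.antisymm
  · rintro _ ⟨y, hy, rfl⟩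
    obtain ⟨h1, q, hq, hyq⟩ := rep_insert hW hℓ hneg hx₀ hC0 hy
    have h2 : shear (fun x => max 0 (ℓ x)) v t y =
        max 0 (ℓ y) • (x₀ + t • v) + (1 - max 0 (ℓ y)) • q := by
      unfold shear
      dsimp only
      generalize max 0 (ℓ y) = m at hyq
      rw [hyq]
      module
    rw [h2]
    exact hjoin _ _ _ (le_max_left _ _) h1 hq
  · intro x hx
    have hc1 : ℓ (x₀ + t • v) = 1 := by rw [hinv, hx₀]
    obtain ⟨h1, q, hq, hxq⟩ := rep_insert hW hℓ hneg hc1 hCt hx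
    refine ⟨_, hjoin x₀ q _ (le_max_left _ _) h1 hq, ?_⟩
    have h2 : max 0 (ℓ x) • x₀ + (1 - max 0 (ℓ x)) • q = x + (-(max 0 (ℓ x) * t)) • v := by
      generalize max 0 (ℓ x) = m at hxq
      rw [hxq]
      module
    rw [h2]
    unfold shear
    dsimp only
    rw [hinv]
    module

/-- the crossing condition holds on the hull if it holds on the generators -/
lemma crossing (hℓ : ∀ (x y : E n) (a b : ℝ), a + b = 1 → ℓ (a • x + b • y) = a * ℓ x + b * ℓ y)
    {c : E n} {Q : Set (E n)} (hQ : Convex ℝ Q)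
    (hW : ∀ w ∈ W, ℓ w ≤ 0 ∧ (1 / (1 - ℓ w)) • (w - ℓ w • c) ∈ Q) :
    ∀ q ∈ convexHull ℝ W, ℓ q ≤ 0 ∧ (1 / (1 - ℓ q)) • (q - ℓ q • c) ∈ Q := by
  intro q hq
  have h : convexHull ℝ W ⊆ {q | ℓ q ≤ 0 ∧ (1 / (1 - ℓ q)) • (q - ℓ q • c) ∈ Q} := by
    refine convexHull_min hW ?_
    rintro y ⟨hy0, hy⟩ z ⟨hz0, hz⟩ a b ha hb hab
    have h1 : ℓ (a • y + b • z) = a * ℓ y + b * ℓ z := hℓ _ _ _ _ hab
    have h2 : ℓ (a • y + b • z) ≤ 0 := by rw [h1]; nlinarith
    refine ⟨h2, ?_⟩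
    have hy1 : 0 < 1 - ℓ y := by linarith
    have hz1 : 0 < 1 - ℓ z := by linarith
    have h3 : 0 < 1 - ℓ (a • y + b • z) := by linarith
    have h4 : 1 - ℓ (a • y + b • z) = a * (1 - ℓ y) + b * (1 - ℓ z) := by
      rw [h1]; linear_combination (-1 : ℝ) * hab
    have h5 := hQ hy hz (a := a * (1 - ℓ y) / (1 - ℓ (a • y + b • z)))
      (b := b * (1 - ℓ z) / (1 - ℓ (a • y + b • z))) (by positivity) (by positivity) (by
        rw [← add_div, ← h4]
        field_simp)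
    have h6 : (a * (1 - ℓ y) / (1 - ℓ (a • y + b • z))) • (1 / (1 - ℓ y)) • (y - ℓ y • c) +
        (b * (1 - ℓ z) / (1 - ℓ (a • y + b • z))) • (1 / (1 - ℓ z)) • (z - ℓ z • c) =
        (1 / (1 - ℓ (a • y + b • z))) • (a • y + b • z - ℓ (a • y + b • z) • c) := by
      rw [smul_smul, smul_smul]
      have e1 : a * (1 - ℓ y) / (1 - ℓ (a • y + b • z)) * (1 / (1 - ℓ y)) =
          (1 / (1 - ℓ (a • y + b • z))) * a := by field_simp
      have e2 : b * (1 - ℓ z) / (1 - ℓ (a • y + b • z)) * (1 / (1 - ℓ z)) =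
          (1 / (1 - ℓ (a • y + b • z))) * b := by field_simp
      rw [e1, e2, mul_smul, mul_smul, ← smul_add]
      congr 1
      rw [h1]
      module
    rwa [h6] at h5
  exact h hq

end

/-- a set whose convex hull has interior points spans -/
lemma span_top {X : Set (E n)} (hX : (interior (convexHull ℝ X)).Nonempty) :
    Submodule.span ℝ ((fun x : E n => (x, (1 : ℝ))) '' X) = ⊤ := by
  set V := Submodule.span ℝ ((fun x : E n => (x, (1 : ℝ))) '' X) with hV
  have h1 : ∀ x ∈ convexHull ℝ X, (x, (1 : ℝ)) ∈ V := by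
    intro x hx
    have h : convexHull ℝ X ⊆ {x | (x, (1 : ℝ)) ∈ V} := by
      refine convexHull_min (fun x hx => Submodule.subset_span ⟨x, hx, rfl⟩) ?_
      intro y hy z hz a b _ _ hab
      have h2 := V.add_mem (V.smul_mem a hy) (V.smul_mem b hz)
      have h3 : a • (y, (1 : ℝ)) + b • (z, (1 : ℝ)) = (a • y + b • z, (1 : ℝ)) := by
        ext1
        · rfl
        · simp [hab]
      rw [h3] at h2
      exact h2
    exact h hx
  obtain ⟨x₀, hx₀⟩ := hX
  have hx0 := h1 x₀ (interior_subset hx₀)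
  rw [mem_interior_iff_mem_nhds] at hx₀
  have hdir : ∀ y : E n, (y, (0 : ℝ)) ∈ V := by
    intro y
    have h2 : Tendsto (fun ε : ℝ => x₀ + ε • y) (𝓝 0) (𝓝 x₀) := by
      have : Continuous fun ε : ℝ => x₀ + ε • y := by fun_prop
      have h2 := this.tendsto 0
      simpa using h2
    have h3 : ∀ᶠ ε : ℝ in 𝓝[≠] 0, x₀ + ε • y ∈ convexHull ℝ X :=
      (h2.eventually hx₀).filter_mono nhdsWithin_le_nhds
    obtain ⟨ε, hε, hε0⟩ := (h3.and self_mem_nhdsWithin).exists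
    have hε0' : ε ≠ 0 := hε0
    have h4 := V.smul_mem ε⁻¹ (V.sub_mem (h1 _ hε) hx0)
    have h5 : ε⁻¹ • ((x₀ + ε • y, (1 : ℝ)) - (x₀, (1 : ℝ))) = (y, (0 : ℝ)) := by
      ext1
      · simp only [Prod.smul_fst, Prod.fst_sub, add_sub_cancel_left, smul_smul]
        rw [inv_mul_cancel₀ hε0', one_smul]
      · simp
    rwa [h5] at h4
  rw [eq_top_iff]
  rintro ⟨y, r⟩ -
  have h6 := V.add_mem (hdir (y - r • x₀)) (V.smul_mem r hx0)
  have h7 : (y - r • x₀, (0 : ℝ)) + r • (x₀, (1 : ℝ)) = (y, r) := by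
    ext1
    · simp
    · simp
  rwa [h7] at h6

end Pool.Agent.Helper57K1.LM
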