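import Pool.Agent.Helper57K1.LM.K

/-!
# Removing a vertex of a planar piece
-/

set_option autoImplicit false

namespace Pool.Agent.Helper57K1.LM

open MeasureTheory Set Filter Topology
open scoped ENNReal NNReal
open Pool.Agent.Y513.LPM (E Z mahlerLp supportLp)

variable {n : ℕ} {p : ℝ}

private lemma aux1 (u v : E n) {θ θ' s t : ℝ} (h : θ + θ' = 1) :
    u + (θ * s + θ' * t) • v = θ • (u + s • v) + θ' • (u + t • v) := by
  have h1 : u = (θ + θ') • u := by rw [h, one_smul]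
  calc u + (θ * s + θ' * t) • v = (θ + θ') • u + (θ * s + θ' * t) • v := by rw [← h1]
    _ = θ • (u + s • v) + θ' • (u + t • v) := by module

private lemma aux2 (x y : E n) (r θ θ' α β : ℝ) :
    r • (θ • α • x + θ' • β • y) = (r * θ * α) • x + (r * θ' * β) • y := by module

/-- extreme rays of a planar cone -/
lemma planar_rays {S' : Finset (E n)} (hne : S'.Nonempty) {x₀ : E n} {D : Submodule ℝ (E n)}
    (hD : Module.finrank ℝ D ≤ 2) (hS : ∀ s ∈ S', s - x₀ ∈ D) (g : E n →L[ℝ] ℝ)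
    (hg : ∀ s ∈ S', 0 < g (s - x₀))
    (hcol : ∀ s ∈ S', ∀ s' ∈ S', s ≠ s' → ∀ c : ℝ, s - x₀ ≠ c • (s' - x₀)) :
    ∃ a ∈ S', ∃ b ∈ S', (∀ s ∈ S', s ≠ a → s ≠ b → ∃ β γ : ℝ, 0 < β ∧ 0 < γ ∧
      s - x₀ = β • (a - x₀) + γ • (b - x₀)) ∧ (a = b → ∀ s ∈ S', s = a) := by
  obtain ⟨s₁, hs₁⟩ := hne
  set D' : Submodule ℝ (E n) := D ⊓ LinearMap.ker (g : E n →ₗ[ℝ] ℝ) with hD'
  have hlt : D' < D := by
    rw [lt_iff_le_and_ne]
    refine ⟨inf_le_left, fun h => ?_⟩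
    have h1 : s₁ - x₀ ∈ D' := by rw [h]; exact hS _ hs₁
    have h2 : g (s₁ - x₀) = 0 := (Submodule.mem_inf.1 h1).2
    have h3 := hg _ hs₁
    linarith
  have hfr : Module.finrank ℝ D' ≤ 1 := by
    have := Submodule.finrank_lt_finrank_of_lt hlt
    omega
  obtain ⟨d, hd⟩ := finrank_le_one_iff.1 hfr
  set w : E n → E n := fun s => (g (s - x₀))⁻¹ • (s - x₀) with hw
  have hτ : ∀ s ∈ S', ∃ τ : ℝ, w s = w s₁ + τ • (d : E n) := by
    intro s hs
    have h1 : w s - w s₁ ∈ D' := by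
      rw [hD', Submodule.mem_inf]
      refine ⟨D.sub_mem (D.smul_mem _ (hS s hs)) (D.smul_mem _ (hS s₁ hs₁)), ?_⟩
      change g (w s - w s₁) = 0
      simp only [hw]
      rw [map_sub, map_smul, map_smul, smul_eq_mul, smul_eq_mul, inv_mul_cancel₀ (hg s hs).ne',
        inv_mul_cancel₀ (hg s₁ hs₁).ne', sub_self]
    obtain ⟨c, hc⟩ := hd ⟨_, h1⟩
    refine ⟨c, ?_⟩
    have h2 : c • (d : E n) = w s - w s₁ := congrArg Subtype.val hc
    rw [h2]; abel
  choose! τ hτ using hτ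
  have hsw : ∀ s ∈ S', s - x₀ = g (s - x₀) • w s := by
    intro s hs
    simp only [hw]
    rw [smul_inv_smul₀ (hg s hs).ne']
  have hinj : ∀ s ∈ S', ∀ s' ∈ S', s ≠ s' → τ s ≠ τ s' := by
    intro s hs s' hs' hne h
    refine hcol s hs s' hs' hne (g (s - x₀) * (g (s' - x₀))⁻¹) ?_
    have h1 : w s = w s' := by rw [hτ s hs, hτ s' hs', h]
    rw [mul_smul, ← show w s' = (g (s' - x₀))⁻¹ • (s' - x₀) from rfl, ← h1]
    exact hsw s hs
  obtain ⟨a, ha, hmin⟩ := Finset.exists_min_image S' τ ⟨s₁, hs₁⟩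
  obtain ⟨b, hb, hmax⟩ := Finset.exists_max_image S' τ ⟨s₁, hs₁⟩
  refine ⟨a, ha, b, hb, ?_, ?_⟩
  · intro s hs hsa hsb
    have h1 : τ a < τ s := lt_of_le_of_ne (hmin s hs) (hinj a ha s hs hsa.symm)
    have h2 : τ s < τ b := lt_of_le_of_ne (hmax s hs) (hinj s hs b hb hsb)
    have h3 : 0 < τ b - τ a := by linarith
    have hga := hg a ha
    have hgb := hg b hb
    have hgs := hg s hs
    set θ := (τ b - τ s) / (τ b - τ a) with hθ
    set θ' := (τ s - τ a) / (τ b - τ a) with hθ'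
    have hθ0 : 0 < θ := div_pos (by linarith) h3
    have hθ'0 : 0 < θ' := div_pos (by linarith) h3
    have e1 : θ + θ' = 1 := by rw [hθ, hθ']; field_simp; ring
    have e2 : θ * τ a + θ' * τ b = τ s := by rw [hθ, hθ']; field_simp; ring
    have hws : w s = θ • w a + θ' • w b := by
      rw [hτ s hs, hτ a ha, hτ b hb, ← e2]
      exact aux1 _ _ e1
    refine ⟨g (s - x₀) * θ * (g (a - x₀))⁻¹, g (s - x₀) * θ' * (g (b - x₀))⁻¹, by positivity,
      by positivity, ?_⟩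
    calc s - x₀ = g (s - x₀) • w s := hsw s hs
      _ = g (s - x₀) • (θ • w a + θ' • w b) := by rw [hws]
      _ = _ := aux2 _ _ _ _ _ _ _
  · intro hab s hs
    by_contra h
    have h1 : τ a < τ s := lt_of_le_of_ne (hmin s hs) (hinj a ha s hs (Ne.symm h))
    have h2 := hmax s hs
    rw [← hab] at h2
    linarith

end Pool.Agent.Helper57K1.LM
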