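import Pool.Agent.Helper57K1.LM.L

/-!
# Reducing a planar piece to a triangle
-/

set_option autoImplicit false

namespace Pool.Agent.Helper57K1.LM

open MeasureTheory Set Filter Topology
open scoped ENNReal NNReal
open Pool.Agent.Y513.LPM (E Z mahlerLp supportLp)

variable {n : ℕ} {p : ℝ}

lemma hull_replace {X Y : Set (E n)} (hYX : Y ⊆ convexHull ℝ X) (hXY : X ⊆ convexHull ℝ Y) :
    convexHull ℝ X = convexHull ℝ Y :=
  Subset.antisymm (convexHull_min hXY (convex_convexHull ℝ _))
    (convexHull_min hYX (convex_convexHull ℝ _))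

private lemma aux3 {x₀ a b s : E n} {β γ : ℝ} (h : s - x₀ = β • (a - x₀) + γ • (b - x₀)) :
    s = (1 - β - γ) • x₀ + β • a + γ • b := by
  have h1 : s = x₀ + (s - x₀) := by abel
  rw [h1, h]
  module

private lemma aux4 {x₀ a b s : E n} {β γ r t : ℝ}
    (h : s = (1 - β - γ) • x₀ + β • a + γ • b) (hr : r = β + γ - 1) :
    s + r • (x₀ + t • (b - a)) = (β - r * t) • a + (γ + r * t) • b := by
  rw [h, hr]
  module

theorem piece (hp : 0 < p) {R : Set (E n)} (hRc : IsCompact R)
    (hR : Module.finrank ℝ (Submodule.span ℝ ((fun x : E n => (x, (1 : ℝ))) '' R)) + 2 ≤ n)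
    {D : Submodule ℝ (E n)} (hD : Module.finrank ℝ D ≤ 2) (o : E n)
    (base : ∀ S : Finset (E n), (∀ x ∈ S, x - o ∈ D) → S.card ≤ 3 →
      (interior (convexHull ℝ (↑S ∪ R))).Nonempty →
      ∀ z, minS p n ≤ mahlerLp p ((fun x => x - z) '' convexHull ℝ (↑S ∪ R))) :
    ∀ (N : ℕ) (S : Finset (E n)), S.card ≤ N → (∀ x ∈ S, x - o ∈ D) →
      (interior (convexHull ℝ (↑S ∪ R))).Nonempty →
      ∀ z, minS p n ≤ mahlerLp p ((fun x => x - z) '' convexHull ℝ (↑S ∪ R)) := by
  classical
  intro N
  induction N with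
  | zero => intro S hcard hS hint z; exact base S hS (by omega) hint z
  | succ N ih =>
    intro S hcard hS hint z
    by_cases h3 : S.card ≤ 3
    · exact base S hS h3 hint z
    push Not at h3
    by_cases hred : ∃ x ∈ S, x ∈ convexHull ℝ (↑(S.erase x) ∪ R)
    · -- a redundant point
      obtain ⟨x, hx, hxr⟩ := hred
      have heq : convexHull ℝ (↑S ∪ R) = convexHull ℝ (↑(S.erase x) ∪ R) := by
        apply hull_replace
        · refine Subset.trans ?_ (subset_convexHull ℝ _)
          refine union_subset_union_left _ ?_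
          exact_mod_cast Finset.erase_subset x S
        · rintro y (hy | hy)
          · rcases eq_or_ne y x with rfl | hne
            · exact hxr
            · exact subset_convexHull ℝ _ (Or.inl (by
                simp only [Finset.coe_erase, mem_diff, mem_singleton_iff]
                exact ⟨hy, hne⟩))
          · exact subset_convexHull ℝ _ (Or.inr hy)
      rw [heq] at hint ⊢
      exact ih (S.erase x) (by rw [Finset.card_erase_of_mem hx]; omega)
        (fun y hy => hS y (Finset.mem_of_mem_erase hy)) hint z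
    push Not at hred
    obtain ⟨x₀, hx₀⟩ : S.Nonempty := Finset.card_pos.1 (by omega)
    set S' : Finset (E n) := S.erase x₀ with hS'
    have hS'card : 3 ≤ S'.card := by rw [hS', Finset.card_erase_of_mem hx₀]; omega
    set W : Set (E n) := ↑S' ∪ R with hW
    have hins : (↑S ∪ R : Set (E n)) = insert x₀ W := by
      ext y
      simp only [hW, hS', mem_union, Finset.mem_coe, mem_insert_iff, Finset.mem_erase]
      constructor
      · rintro (h | h)
        · rcases eq_or_ne y x₀ with h' | h'
          · exact Or.inl h'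
          · exact Or.inr (Or.inl ⟨h', h⟩)
        · exact Or.inr (Or.inr h)
      · rintro (h | ⟨-, h⟩ | h)
        · exact Or.inl (h ▸ hx₀)
        · exact Or.inl h
        · exact Or.inr h
    have hWc : IsCompact (convexHull ℝ W) :=
      Pool.Agent.H73R3.compact_hull (S'.finite_toSet.isCompact.union hRc)
    obtain ⟨g, u, hgu, hg⟩ := geometric_hahn_banach_point_closed (convex_convexHull ℝ W)
      hWc.isClosed (hred x₀ hx₀)
    have hgpos : ∀ s ∈ S', 0 < g (s - x₀) := by
      intro s hs
      have := hg s (subset_convexHull ℝ _ (Or.inl hs))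
      rw [map_sub]; linarith
    have hS'S : ∀ s ∈ S', s ∈ S := fun s hs => Finset.mem_of_mem_erase hs
    have hS'x : ∀ s ∈ S', s ≠ x₀ := fun s hs => Finset.ne_of_mem_erase hs
    -- membership in the hull of the other points
    have hothers : ∀ s ∈ S, ∀ s' ∈ S, s' ≠ s → s' ∈ convexHull ℝ (↑(S.erase s) ∪ R) :=
      fun s _ s' hs' hne => subset_convexHull ℝ _ (Or.inl (by
        simp only [Finset.coe_erase, mem_diff, mem_singleton_iff]
        exact ⟨hs', hne⟩))
    have hcol1 : ∀ s ∈ S', ∀ s' ∈ S', s ≠ s' → ∀ c : ℝ, c ≤ 1 → 0 ≤ c →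
        s - x₀ ≠ c • (s' - x₀) := by
      intro s hs s' hs' hne c hc1 hc0 h
      refine hred s (hS'S s hs) ?_
      have h1 : s = (1 - c) • x₀ + c • s' := by
        have h2 : s = x₀ + (s - x₀) := by abel
        rw [h2, h]; module
      have h2 := convex_convexHull ℝ (↑(S.erase s) ∪ R) (hothers s (hS'S s hs) x₀ hx₀
        (hS'x s hs).symm) (hothers s (hS'S s hs) s' (hS'S s' hs') hne.symm)
        (a := 1 - c) (b := c) (by linarith) hc0 (by ring)
      rwa [← h1] at h2
    have hcol : ∀ s ∈ S', ∀ s' ∈ S', s ≠ s' → ∀ c : ℝ, s - x₀ ≠ c • (s' - x₀) := by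
      intro s hs s' hs' hne c h
      have h1 := hgpos s hs
      have h2 := hgpos s' hs'
      have h4 : g (s - x₀) = c * g (s' - x₀) := by rw [h, map_smul, smul_eq_mul]
      have hc : 0 < c := by
        by_contra hc
        push Not at hc
        nlinarith
      rcases le_or_gt c 1 with hc1 | hc1
      · exact hcol1 s hs s' hs' hne c hc1 hc.le h
      · refine hcol1 s' hs' s hs hne.symm c⁻¹ (inv_le_one_of_one_le₀ hc1.le) (by positivity) ?_
        rw [h, smul_smul, inv_mul_cancel₀ hc.ne', one_smul]
    obtain ⟨a, ha, b, hb, hray, hab⟩ := planar_rays (Finset.card_pos.1 (by omega)) hD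
      (fun s hs => by
        have h1 : s - x₀ = (s - o) - (x₀ - o) := by abel
        rw [h1]
        exact D.sub_mem (hS s (hS'S s hs)) (hS x₀ hx₀)) g hgpos hcol
    have hne : a ≠ b := by
      intro h
      have h1 : S' ⊆ {a} := fun s hs => Finset.mem_singleton.2 (hab h s hs)
      have := Finset.card_le_card h1
      rw [Finset.card_singleton] at this
      omega
    have hray2 : ∀ s ∈ S', s ≠ a → s ≠ b → ∃ β γ : ℝ, 0 < β ∧ 0 < γ ∧
        s = (1 - β - γ) • x₀ + β • a + γ • b ∧ 1 < β + γ := by
      intro s hs hsa hsb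
      obtain ⟨β, γ, hβ, hγ, h⟩ := hray s hs hsa hsb
      have h1 := aux3 h
      refine ⟨β, γ, hβ, hγ, h1, ?_⟩
      by_contra h2
      push Not at h2
      refine hred s (hS'S s hs) ?_
      rw [h1]
      have hc := convex_convexHull ℝ (↑(S.erase s) ∪ R)
      have m0 := hothers s (hS'S s hs) x₀ hx₀ (hS'x s hs).symm
      have m1 := hothers s (hS'S s hs) a (hS'S a ha) hsa.symm
      have m2 := hothers s (hS'S s hs) b (hS'S b hb) hsb.symm
      have h5 := hc.sum_mem (t := Finset.univ) (w := ![1 - β - γ, β, γ]) (z := ![x₀, a, b])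
        (by
          intro i _
          fin_cases i
          · simp; linarith
          · simp; linarith
          · simp; linarith) (by simp [Fin.sum_univ_three]; ring) (by
          intro i _
          fin_cases i
          · exact m0
          · exact m1
          · exact m2)
      rw [Fin.sum_univ_three] at h5
      simp only [Matrix.cons_val_zero, Matrix.cons_val_one, Matrix.cons_val_two,
        Matrix.head_cons, Matrix.tail_cons] at h5
      rw [← h1] at h5 ⊢
      exact h5
    choose! β γ hβ hγ hsβ hβγ using hray2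
    -- the functional
    set V : Submodule ℝ (E n × ℝ) := Submodule.span ℝ ((fun x : E n => (x, (1 : ℝ))) '' R) ⊔
      Submodule.span ℝ (({(a, (1 : ℝ)), (b, (1 : ℝ))} : Finset (E n × ℝ)) : Set (E n × ℝ)) with hV
    have hVfr : Module.finrank ℝ V ≤ n := by
      have h1 := Submodule.finrank_add_le_finrank_add_finrank
        (Submodule.span ℝ ((fun x : E n => (x, (1 : ℝ))) '' R))
        (Submodule.span ℝ (({(a, (1 : ℝ)), (b, (1 : ℝ))} : Finset (E n × ℝ)) : Set (E n × ℝ)))
      have h2 := finrank_span_finset_le_card (R := ℝ)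
        ({(a, (1 : ℝ)), (b, (1 : ℝ))} : Finset (E n × ℝ))
      have h4 : ({(a, (1 : ℝ)), (b, (1 : ℝ))} : Finset (E n × ℝ)).card ≤ 2 := Finset.card_le_two
      have h5 : Set.finrank ℝ ((({(a, (1 : ℝ)), (b, (1 : ℝ))} : Finset (E n × ℝ)) :
        Set (E n × ℝ))) = Module.finrank ℝ (Submodule.span ℝ
        (({(a, (1 : ℝ)), (b, (1 : ℝ))} : Finset (E n × ℝ)) : Set (E n × ℝ))) := rfl
      rw [← hV] at h1
      omega
    have haV : (a, (1 : ℝ)) ∈ V :=
      Submodule.mem_sup_right (Submodule.subset_span (by simp))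
    have hbV : (b, (1 : ℝ)) ∈ V :=
      Submodule.mem_sup_right (Submodule.subset_span (by simp))
    have hRV : ∀ x ∈ R, (x, (1 : ℝ)) ∈ V := fun x hx =>
      Submodule.mem_sup_left (Submodule.subset_span ⟨x, hx, rfl⟩)
    have hx₀V : (x₀, (1 : ℝ)) ∉ V := by
      intro h
      have h1 : Submodule.span ℝ ((fun x : E n => (x, (1 : ℝ))) '' (↑S ∪ R)) ≤ V := by
        rw [Submodule.span_le]
        rintro _ ⟨s, hs, rfl⟩
        rcases hs with hs | hs
        · rcases eq_or_ne s x₀ with h' | h0
          · rw [h']; exact h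
          rcases eq_or_ne s a with h' | hsa
          · rw [h']; exact haV
          rcases eq_or_ne s b with h' | hsb
          · rw [h']; exact hbV
          have hsS' : s ∈ S' := Finset.mem_erase.2 ⟨h0, hs⟩
          have e := hsβ s hsS' hsa hsb
          have h2 := V.add_mem (V.add_mem (V.smul_mem (1 - β s - γ s) h) (V.smul_mem (β s) haV))
            (V.smul_mem (γ s) hbV)
          have h5 : (1 - β s - γ s) • (x₀, (1 : ℝ)) + β s • (a, (1 : ℝ)) + γ s • (b, (1 : ℝ)) =
              (s, (1 : ℝ)) := by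
            ext1
            · exact e.symm
            · simp; ring
          rw [h5] at h2
          exact h2
        · exact hRV s hs
      rw [span_top hint, top_le_iff] at h1
      rw [h1, finrank_top] at hVfr
      simp at hVfr
    obtain ⟨f, hf, hVf⟩ := Submodule.exists_le_ker_of_notMem hx₀V
    have hfV : ∀ y ∈ V, f y = 0 := fun y hy => LinearMap.mem_ker.1 (hVf hy)
    set ℓ : E n → ℝ := fun x => f (x, 1) / f (x₀, 1) with hℓdef
    have hℓ : ∀ (x y : E n) (s t : ℝ), s + t = 1 → ℓ (s • x + t • y) = s * ℓ x + t * ℓ y := by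
      intro x y s t hst
      simp only [hℓdef]
      have h1 : (s • x + t • y, (1 : ℝ)) = s • (x, (1 : ℝ)) + t • (y, (1 : ℝ)) := by
        ext1
        · rfl
        · simp [hst]
      rw [h1, map_add, map_smul, map_smul, smul_eq_mul, smul_eq_mul]
      ring
    have hℓc : Continuous ℓ := by
      have hfc : Continuous f := f.continuous_of_finiteDimensional
      exact (hfc.comp (by fun_prop)).div_const _
    have hℓ0 : ℓ x₀ = 1 := div_self hf
    have hℓa : ℓ a = 0 := by simp only [hℓdef]; rw [hfV _ haV, zero_div]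
    have hℓb : ℓ b = 0 := by simp only [hℓdef]; rw [hfV _ hbV, zero_div]
    have hℓR : ∀ x ∈ R, ℓ x = 0 := fun x hx => by simp only [hℓdef]; rw [hfV _ (hRV x hx), zero_div]
    set v : E n := b - a with hv
    have hv0 : v ≠ 0 := sub_ne_zero.2 hne.symm
    have hinv : ∀ (x : E n) (s : ℝ), ℓ (x + s • v) = ℓ x := by
      intro x s
      simp only [hℓdef]
      have h1 : (x + s • v, (1 : ℝ)) = (x, (1 : ℝ)) + s • ((b, (1 : ℝ)) - (a, (1 : ℝ))) := by
        ext1
        · rfl
        · simp
      rw [h1, map_add, map_smul, map_sub, hfV _ haV, hfV _ hbV]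
      simp
    set r : E n → ℝ := fun s => β s + γ s - 1 with hr
    have hℓs : ∀ s ∈ S', s ≠ a → s ≠ b → ℓ s = -r s := by
      intro s hs hsa hsb
      have h1 : ℓ s = (1 - β s - γ s) * ℓ x₀ + β s * ℓ a + γ s * ℓ b := by
        simp only [hℓdef]
        have h2 : (s, (1 : ℝ)) = (1 - β s - γ s) • (x₀, (1 : ℝ)) + β s • (a, (1 : ℝ)) +
            γ s • (b, (1 : ℝ)) := by
          ext1
          · exact hsβ s hs hsa hsb
          · simp; ring
        rw [h2, map_add, map_add, map_smul, map_smul, map_smul, smul_eq_mul, smul_eq_mul,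
          smul_eq_mul]
        ring
      rw [h1, hℓ0, hℓa, hℓb, hr]
      ring
    have haW : a ∈ convexHull ℝ W := subset_convexHull ℝ _ (Or.inl ha)
    have hbW : b ∈ convexHull ℝ W := subset_convexHull ℝ _ (Or.inl hb)
    -- the crossing condition
    have hcross : ∀ t : ℝ, (∀ s ∈ S', s ≠ a → s ≠ b → r s * t ≤ β s ∧ -(r s * t) ≤ γ s) →
        ∀ q ∈ convexHull ℝ W, ℓ q ≤ 0 ∧
          (1 / (1 - ℓ q)) • (q - ℓ q • (x₀ + t • v)) ∈ convexHull ℝ W := by
      intro t ht
      refine crossing hℓ (convex_convexHull ℝ W) ?_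
      intro w hw
      have hzero : ∀ y ∈ convexHull ℝ W, ℓ y = 0 → ℓ y ≤ 0 ∧
          (1 / (1 - ℓ y)) • (y - ℓ y • (x₀ + t • v)) ∈ convexHull ℝ W := by
        intro y hy h0
        rw [h0]
        simpa using hy
      rcases hw with hw | hw
      · rcases eq_or_ne w a with rfl | hwa
        · exact hzero w haW hℓa
        rcases eq_or_ne w b with rfl | hwb
        · exact hzero w hbW hℓb
        have h1 := hℓs w hw hwa hwb
        have hr0 : 0 < r w := by
          have := hβγ w hw hwa hwb
          simp only [hr]; linarith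
        obtain ⟨ht1, ht2⟩ := ht w hw hwa hwb
        rw [h1]
        refine ⟨by linarith, ?_⟩
        have e1 : w - (-r w) • (x₀ + t • v) = (β w - r w * t) • a + (γ w + r w * t) • b := by
          rw [neg_smul, sub_neg_eq_add]
          exact aux4 (hsβ w hw hwa hwb) rfl
        rw [e1, smul_add, smul_smul, smul_smul]
        refine convex_convexHull ℝ W haW hbW ?_ ?_ ?_
        · have : 0 ≤ β w - r w * t := by linarith
          have : 0 < 1 - -r w := by linarith
          positivity
        · have : 0 ≤ γ w + r w * t := by linarith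
          have : 0 < 1 - -r w := by linarith
          positivity
        · have h6 : (1 : ℝ) - -r w = β w + γ w := by simp only [hr]; ring
          have h7 : 0 < β w + γ w := by have := hβγ w hw hwa hwb; linarith
          rw [h6]
          field_simp
          ring
      · exact hzero w (subset_convexHull ℝ _ (Or.inr hw)) (hℓR w hw)
    have hC0 : ∀ q ∈ convexHull ℝ W, ℓ q ≤ 0 ∧
        (1 / (1 - ℓ q)) • (q - ℓ q • x₀) ∈ convexHull ℝ W := by
      have := hcross 0 (fun s hs hsa hsb => by
        have h1 := hβ s hs hsa hsb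
        have h2 := hγ s hs hsa hsb
        constructor <;> linarith)
      simpa using this
    -- the other points
    set T : Finset (E n) := (S'.erase a).erase b with hT
    have hTmem : ∀ s, s ∈ T ↔ s ∈ S' ∧ s ≠ a ∧ s ≠ b := by
      intro s
      rw [hT, Finset.mem_erase, Finset.mem_erase]
      tauto
    have hTne : T.Nonempty := by
      apply Finset.card_pos.1
      rw [hT, Finset.card_erase_of_mem (Finset.mem_erase.2 ⟨hne.symm, hb⟩),
        Finset.card_erase_of_mem ha]
      omega
    have hrpos : ∀ s ∈ T, 0 < r s := by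
      intro s hs
      obtain ⟨h1, h2, h4⟩ := (hTmem s).1 hs
      have := hβγ s h1 h2 h4
      simp only [hr]; linarith
    have hWne : W.Nonempty := ⟨a, Or.inl ha⟩
    have hinv' : ∀ (x : E n) (s : ℝ), max 0 (ℓ (x + s • v)) = max 0 (ℓ x) := by
      intro x s; rw [hinv]
    have hβc : Continuous (fun x => max 0 (ℓ x)) := continuous_const.max hℓc
    have hint2 := hint
    rw [hins] at hint2
    have hKc : IsCompact (convexHull ℝ (↑S ∪ R)) :=
      Pool.Agent.H73R3.compact_hull (S.finite_toSet.isCompact.union hRc)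
    -- the end points
    have key : ∀ (t : ℝ) (c : E n), c ∈ S' →
        (∀ s ∈ S', s ≠ a → s ≠ b → r s * t ≤ β s ∧ -(r s * t) ≤ γ s) →
        (∃ s ∈ S', s ≠ c ∧ ∃ θ : ℝ, 0 ≤ θ ∧ θ ≤ 1 ∧ c = θ • s + (1 - θ) • (x₀ + t • v)) →
        Convex ℝ (shear (fun x => max 0 (ℓ x)) v t '' convexHull ℝ (insert x₀ W)) ∧
        ∀ z : E n, minS p n ≤ mahlerLp p ((fun x => x - z) ''
          (shear (fun x => max 0 (ℓ x)) v t '' convexHull ℝ (insert x₀ W))) := by
      intro t c hc ht hcr
      have hCt := hcross t ht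
      have himg := shear_insert hWne hℓ (fun q hq => (hC0 q hq).1) hℓ0 hinv
        (fun q hq => (hC0 q hq).2) (fun q hq => (hCt q hq).2)
      obtain ⟨s, hs, hsc, θ, hθ0, hθ1, hcs⟩ := hcr
      set S₁ : Finset (E n) := insert (x₀ + t • v) (S'.erase c) with hS₁
      have hhull : convexHull ℝ (insert (x₀ + t • v) W) = convexHull ℝ (↑S₁ ∪ R) := by
        apply hull_replace
        · refine Subset.trans ?_ (subset_convexHull ℝ _)
          rintro y (hy | hy)
          · rw [hS₁, Finset.coe_insert, mem_insert_iff] at hy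
            rcases hy with hy | hy
            · exact Or.inl hy
            · exact Or.inr (Or.inl (Finset.mem_of_mem_erase hy))
          · exact Or.inr (Or.inr hy)
        · have hm : ∀ y ∈ S₁, y ∈ convexHull ℝ (↑S₁ ∪ R) := fun y hy =>
            subset_convexHull ℝ _ (Or.inl hy)
          have hxt : x₀ + t • v ∈ S₁ := Finset.mem_insert_self _ _
          rintro y (hy | hy | hy)
          · rw [hy]; exact hm _ hxt
          · rcases eq_or_ne y c with h' | hyc
            · rw [h', hcs]
              exact convex_convexHull ℝ _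
                (hm s (Finset.mem_insert_of_mem (Finset.mem_erase.2 ⟨hsc, hs⟩))) (hm _ hxt)
                hθ0 (by linarith) (by ring)
            · exact hm y (Finset.mem_insert_of_mem (Finset.mem_erase.2 ⟨hyc, hy⟩))
          · exact subset_convexHull ℝ _ (Or.inr hy)
      have hint3 : (interior (convexHull ℝ (↑S₁ ∪ R))).Nonempty := by
        rw [← hhull, ← himg]
        have h1 := (shearH hβc hinv' t).image_interior (convexHull ℝ (insert x₀ W))
        have h2 : (interior (⇑(shearH hβc hinv' t) ''
          convexHull ℝ (insert x₀ W))).Nonempty := by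
          rw [← h1]; exact hint2.image _
        exact h2
      rw [himg, hhull]
      refine ⟨convex_convexHull ℝ _, ih S₁ ?_ ?_ hint3⟩
      · have h1 : S₁.card ≤ (S'.erase c).card + 1 := Finset.card_insert_le _ _
        rw [Finset.card_erase_of_mem hc] at h1
        have h2 : S'.card = S.card - 1 := Finset.card_erase_of_mem hx₀
        omega
      · intro y hy
        rw [hS₁, Finset.mem_insert] at hy
        rcases hy with hy | hy
        · rw [hy]
          have h1 : x₀ + t • v - o = (x₀ - o) + t • ((b - o) - (a - o)) := by rw [hv]; module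
          rw [h1]
          exact D.add_mem (hS x₀ hx₀) (D.smul_mem _ (D.sub_mem (hS b (hS'S b hb))
            (hS a (hS'S a ha))))
        · exact hS y (hS'S y (Finset.mem_of_mem_erase hy))
    obtain ⟨s₁, hs₁, hmin1⟩ := Finset.exists_min_image T (fun s => β s / r s) hTne
    obtain ⟨s₂, hs₂, hmin2⟩ := Finset.exists_min_image T (fun s => γ s / r s) hTne
    obtain ⟨hs₁S, hs₁a, hs₁b⟩ := (hTmem s₁).1 hs₁
    obtain ⟨hs₂S, hs₂a, hs₂b⟩ := (hTmem s₂).1 hs₂
    have hr1 := hrpos s₁ hs₁
    have hr2 := hrpos s₂ hs₂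
    have hβ1 := hβ s₁ hs₁S hs₁a hs₁b
    have hγ1 := hγ s₁ hs₁S hs₁a hs₁b
    have hβ2 := hβ s₂ hs₂S hs₂a hs₂b
    have hγ2 := hγ s₂ hs₂S hs₂a hs₂b
    have ht1 : 0 < β s₁ / r s₁ := div_pos hβ1 hr1
    have ht2 : 0 < γ s₂ / r s₂ := div_pos hγ2 hr2
    have hk1 := key (β s₁ / r s₁) b hb (fun s hs hsa hsb => by
      have hsT := (hTmem s).2 ⟨hs, hsa, hsb⟩
      have h1 := hmin1 s hsT
      have h2 := hrpos s hsT
      have h4 := hγ s hs hsa hsb
      constructor
      · rw [le_div_iff₀ h2] at h1
        linarith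
      · have : 0 < r s * (β s₁ / r s₁) := mul_pos h2 ht1
        linarith) ⟨s₁, hs₁S, hs₁b, 1 / (1 + r s₁), by positivity, by
        rw [div_le_one (by positivity)]; linarith, by
        have h1 := aux4 (t := β s₁ / r s₁) (r := r s₁) (hsβ s₁ hs₁S hs₁a hs₁b) rfl
        have h2 : β s₁ - r s₁ * (β s₁ / r s₁) = 0 := by field_simp; ring
        have h4 : γ s₁ + r s₁ * (β s₁ / r s₁) = 1 + r s₁ := by
          rw [mul_div_cancel₀ _ hr1.ne']; simp only [hr]; ring
        rw [h2, h4, zero_smul, zero_add] at h1
        have h5 : (1 : ℝ) - 1 / (1 + r s₁) = 1 / (1 + r s₁) * r s₁ := by field_simp; ring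
        rw [h5, mul_smul, ← smul_add, h1, smul_smul, one_div, inv_mul_cancel₀ (by positivity),
          one_smul]⟩
    have hk2 := key (-(γ s₂ / r s₂)) a ha (fun s hs hsa hsb => by
      have hsT := (hTmem s).2 ⟨hs, hsa, hsb⟩
      have h1 := hmin2 s hsT
      have h2 := hrpos s hsT
      have h4 := hβ s hs hsa hsb
      constructor
      · have : 0 < r s * (γ s₂ / r s₂) := mul_pos h2 ht2
        linarith
      · rw [le_div_iff₀ h2] at h1
        linarith) ⟨s₂, hs₂S, hs₂a, 1 / (1 + r s₂), by positivity, by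
        rw [div_le_one (by positivity)]; linarith, by
        have h1 := aux4 (t := -(γ s₂ / r s₂)) (r := r s₂) (hsβ s₂ hs₂S hs₂a hs₂b) rfl
        have h2 : γ s₂ + r s₂ * (-(γ s₂ / r s₂)) = 0 := by field_simp; ring
        have h4 : β s₂ - r s₂ * (-(γ s₂ / r s₂)) = 1 + r s₂ := by
          rw [mul_neg, mul_div_cancel₀ _ hr2.ne']; simp only [hr]; ring
        rw [h2, h4, zero_smul, add_zero] at h1
        have h5 : (1 : ℝ) - 1 / (1 + r s₂) = 1 / (1 + r s₂) * r s₂ := by field_simp; ring
        rw [h5, mul_smul, ← smul_add, h1, smul_smul, one_div, inv_mul_cancel₀ (by positivity),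
          one_smul]⟩
    rw [hins] at hKc ⊢
    exact moving' hp hKc (convex_convexHull ℝ _) hint2 hβc hv0 hinv' (by linarith) ht1 hk2.1
      hk1.1 hk2.2 hk1.2 z

end Pool.Agent.Helper57K1.LM
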