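import Pool.Agent.Helper57K1.LM.M

/-!
# Joins of polygons and points
-/

set_option autoImplicit false

namespace Pool.Agent.Helper57K1.LM

open MeasureTheory Set Filter Topology
open scoped ENNReal NNReal
open Pool.Agent.Y513.LPM (E Z mahlerLp supportLp)

variable {n : ℕ} {p : ℝ}

theorem few_set (hp : 0 < p) (V : Finset (E n)) (hcard : V.card ≤ n + 2)
    (hK : (interior (convexHull ℝ (V : Set (E n)))).Nonempty) (z : E n) :
    minS p n ≤ mahlerLp p ((fun x => x - z) '' convexHull ℝ (V : Set (E n))) := by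
  obtain ⟨w, hw⟩ : ∃ w : Fin (n + 2) → E n, range w = (V : Set (E n)) := by
    have hne : V.Nonempty := by
      by_contra h
      rw [Finset.not_nonempty_iff_eq_empty] at h
      rw [h, Finset.coe_empty, convexHull_empty, interior_empty] at hK
      exact not_nonempty_empty hK
    obtain ⟨v₀, hv₀⟩ := hne
    have e := V.equivFin
    refine ⟨fun i => if h : (i : ℕ) < V.card then (e.symm ⟨i, h⟩ : V) else v₀, ?_⟩
    ext x
    constructor
    · rintro ⟨i, rfl⟩
      dsimp only
      split_ifs with h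
      · exact Subtype.coe_prop _
      · exact hv₀
    · intro hx
      refine ⟨⟨e ⟨x, hx⟩, lt_of_lt_of_le (Fin.is_lt _) hcard⟩, ?_⟩
      dsimp only
      rw [dif_pos (Fin.is_lt _)]
      simp
  have h := few (p := p) hp w (by rw [hw]; exact hK) z
  rw [hw] at h
  exact h

/-- the span of the lifted points of a planar set -/
lemma fr_planar {S : Set (E n)} {D : Submodule ℝ (E n)} (hD : Module.finrank ℝ D ≤ 2) {o : E n}
    (hS : ∀ x ∈ S, x - o ∈ D) :
    Module.finrank ℝ (Submodule.span ℝ ((fun x : E n => (x, (1 : ℝ))) '' S)) ≤ 3 := by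
  have h1 : Submodule.span ℝ ((fun x : E n => (x, (1 : ℝ))) '' S) ≤
      D.map (LinearMap.inl ℝ (E n) ℝ) ⊔ Submodule.span ℝ {(o, (1 : ℝ))} := by
    rw [Submodule.span_le]
    rintro _ ⟨x, hx, rfl⟩
    have h2 : (x, (1 : ℝ)) = LinearMap.inl ℝ (E n) ℝ (x - o) + (o, (1 : ℝ)) := by
      ext1
      · simp
      · simp
    dsimp only
    rw [h2]
    exact Submodule.add_mem _ (Submodule.mem_sup_left (Submodule.mem_map_of_mem (hS x hx)))
      (Submodule.mem_sup_right (Submodule.mem_span_singleton_self _))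
  have h2 := Submodule.finrank_mono h1
  have h3 := Submodule.finrank_add_le_finrank_add_finrank (D.map (LinearMap.inl ℝ (E n) ℝ))
    (Submodule.span ℝ {(o, (1 : ℝ))})
  have h4 := Submodule.finrank_map_le (LinearMap.inl ℝ (E n) ℝ) D
  have h5 : Module.finrank ℝ (Submodule.span ℝ {((o, (1 : ℝ)) : E n × ℝ)}) ≤ 1 := by
    have := finrank_span_le_card (R := ℝ) ({((o, (1 : ℝ)) : E n × ℝ)} : Set (E n × ℝ))
    simpa using this
  omega

lemma iUnion_succ {α : Type*} {k : ℕ} (X : Fin (k + 1) → Set α) :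
    (⋃ i, X i) = X 0 ∪ ⋃ i : Fin k, X i.succ := by
  ext x
  simp [Fin.exists_fin_succ]

lemma fr_union : ∀ (k : ℕ) (X : Fin k → Set (E n))
    (_ : ∀ i, Module.finrank ℝ (Submodule.span ℝ ((fun x : E n => (x, (1 : ℝ))) '' X i)) ≤ 3)
    (A : Finset (E n)),
    Module.finrank ℝ (Submodule.span ℝ ((fun x : E n => (x, (1 : ℝ))) '' ((⋃ i, X i) ∪ ↑A))) ≤
      3 * k + A.card := by
  intro k
  induction k with
  | zero =>
    intro X _ A
    classical
    rw [iUnion_of_empty, empty_union]
    have h1 := finrank_span_finset_le_card (R := ℝ) (A.image (fun x : E n => (x, (1 : ℝ))))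
    have h2 : (A.image (fun x : E n => (x, (1 : ℝ)))).card ≤ A.card := Finset.card_image_le
    have h3 : Set.finrank ℝ (↑(A.image (fun x : E n => (x, (1 : ℝ)))) : Set (E n × ℝ)) =
        Module.finrank ℝ (Submodule.span ℝ ((fun x : E n => (x, (1 : ℝ))) '' (A : Set (E n)))) := by
      unfold Set.finrank
      rw [Finset.coe_image]
    omega
  | succ k ih =>
    intro X hX A
    rw [iUnion_succ, union_assoc, image_union, Submodule.span_union]
    have h1 := Submodule.finrank_add_le_finrank_add_finrank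
      (Submodule.span ℝ ((fun x : E n => (x, (1 : ℝ))) '' X 0))
      (Submodule.span ℝ ((fun x : E n => (x, (1 : ℝ))) '' ((⋃ i : Fin k, X i.succ) ∪ ↑A)))
    have h2 := ih (fun i => X i.succ) (fun i => hX i.succ) A
    have h3 := hX 0
    omega

/-- **joins of polygons and points** -/
theorem joins (hp : 0 < p) : ∀ (k m : ℕ) (_ : 3 * k + m ≤ n + 1) (S : Fin k → Finset (E n))
    (D : Fin k → Submodule ℝ (E n)) (_ : ∀ i, Module.finrank ℝ (D i) ≤ 2) (o : Fin k → E n)
    (_ : ∀ i, ∀ x ∈ S i, x - o i ∈ D i) (A : Finset (E n)) (_ : A.card ≤ m)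
    (_ : (interior (convexHull ℝ ((⋃ i, (S i : Set (E n))) ∪ ↑A))).Nonempty) (z : E n),
    minS p n ≤ mahlerLp p ((fun x => x - z) '' convexHull ℝ ((⋃ i, (S i : Set (E n))) ∪ ↑A)) := by
  classical
  intro k
  induction k with
  | zero =>
    intro m hkm S D hD o hS A hA hint z
    rw [iUnion_of_empty, empty_union] at hint ⊢
    exact few_set hp A (by omega) hint z
  | succ k ih =>
    intro m hkm S D hD o hS A hA hint z
    set R : Set (E n) := (⋃ i : Fin k, (S i.succ : Set (E n))) ∪ ↑A with hR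
    have hRc : IsCompact R := by
      refine Set.Finite.isCompact ?_
      exact (finite_iUnion fun i : Fin k => (S i.succ).finite_toSet).union A.finite_toSet
    have hfr : Module.finrank ℝ (Submodule.span ℝ ((fun x : E n => (x, (1 : ℝ))) '' R)) + 2 ≤ n := by
      have h1 := fr_union k (fun i : Fin k => (S i.succ : Set (E n)))
        (fun i : Fin k => fr_planar (hD i.succ) (o := o i.succ) (fun x hx => hS i.succ x hx)) A
      rw [← hR] at h1
      omega
    have hunion : (⋃ i, (S i : Set (E n))) ∪ ↑A = ↑(S 0) ∪ R := by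
      rw [iUnion_succ (fun i => (S i : Set (E n))), union_assoc]
    rw [hunion] at hint ⊢
    refine piece hp hRc hfr (hD 0) (o 0) ?_ (S 0).card (S 0) le_rfl (hS 0) hint z
    intro S₀ _ hS₀ hint₀ z₀
    have h2 : (↑S₀ ∪ R : Set (E n)) = (⋃ i : Fin k, (S i.succ : Set (E n))) ∪ ↑(A ∪ S₀) := by
      rw [hR, Finset.coe_union]
      ext x
      simp only [mem_union]
      tauto
    rw [h2] at hint₀ ⊢
    refine ih (m + 3) (by omega) (fun i : Fin k => S i.succ) (fun i : Fin k => D i.succ)
      (fun i : Fin k => hD i.succ) (fun i : Fin k => o i.succ) (fun i : Fin k => hS i.succ)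
      (A ∪ S₀) ?_ hint₀ z₀
    have := Finset.card_union_le A S₀
    omega

end Pool.Agent.Helper57K1.LM
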