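import Pool.Agent.Helper57K1.LM.N

/-!
# Approximation from inside
-/

set_option autoImplicit false

namespace Pool.Agent.Helper57K1.LM

open MeasureTheory Set Filter Topology
open scoped ENNReal NNReal Pointwise
open Pool.Agent.Y513.LPM (E Z mahlerLp supportLp)

variable {n : ℕ} {p : ℝ}

lemma exp_cont (p : ℝ) (y : E n) : Continuous fun x : E n => Real.exp (p * inner ℝ x y) := by
  fun_prop

lemma exp_int {K : Set (E n)} (hK : IsCompact K) (p : ℝ) (y : E n) :
    IntegrableOn (fun x : E n => Real.exp (p * inner ℝ x y)) K volume :=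
  (exp_cont p y).continuousOn.integrableOn_compact hK

lemma exp_int_pos {K : Set (E n)} (hK : IsCompact K) (hV : 0 < volume K) (p : ℝ) (y : E n) :
    0 < ∫ x in K, Real.exp (p * inner ℝ x y) := by
  have : NeZero (volume.restrict K) := ⟨by
    intro h
    rw [Measure.restrict_eq_zero] at h
    exact hV.ne' h⟩
  exact integral_exp_pos (exp_int hK p y)

/-- comparison of the `L^p` Mahler volumes of nested bodies -/
lemma mahler_nested (hp : 0 < p) {K₁ K₂ : Set (E n)} (h1 : IsCompact K₁) (h2 : IsCompact K₂)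
    (hsub : K₁ ⊆ K₂) (hV : 0 < volume K₁) {ρ : ℝ} (hρ : volume.real K₂ ≤ ρ * volume.real K₁) :
    mahlerLp p K₂ ≤ ENNReal.ofReal (ρ * Real.exp ((1 / p) * Real.log ρ)) * mahlerLp p K₁ := by
  have hV2 : 0 < volume K₂ := hV.trans_le (measure_mono hsub)
  have v1 : 0 < volume.real K₁ := ENNReal.toReal_pos hV.ne' h1.measure_lt_top.ne
  have v2 : 0 < volume.real K₂ := ENNReal.toReal_pos hV2.ne' h2.measure_lt_top.ne
  have hρ0 : 0 < ρ := by
    by_contra h
    push Not at h
    nlinarith
  have hpt : ∀ y : E n, Real.exp (-supportLp p K₂ y) ≤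
      Real.exp ((1 / p) * Real.log ρ) * Real.exp (-supportLp p K₁ y) := by
    intro y
    rw [← Real.exp_add]
    apply Real.exp_le_exp.2
    unfold supportLp
    have i1 := exp_int_pos h1 hV p y
    have i2 := exp_int_pos h2 hV2 p y
    have hle : (∫ x in K₁, Real.exp (p * inner ℝ x y)) ≤ ∫ x in K₂, Real.exp (p * inner ℝ x y) :=
      setIntegral_mono_set (exp_int h2 p y) (Eventually.of_forall fun x => (Real.exp_pos _).le)
        (Eventually.of_forall hsub)
    have h3 : Real.log ((∫ x in K₁, Real.exp (p * inner ℝ x y)) / volume.real K₁) - Real.log ρ ≤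
        Real.log ((∫ x in K₂, Real.exp (p * inner ℝ x y)) / volume.real K₂) := by
      rw [← Real.log_div (by positivity) hρ0.ne']
      apply Real.log_le_log (by positivity)
      rw [div_div, div_le_div_iff₀ (by positivity) v2]
      calc (∫ x in K₁, Real.exp (p * inner ℝ x y)) * volume.real K₂
          ≤ (∫ x in K₂, Real.exp (p * inner ℝ x y)) * (ρ * volume.real K₁) :=
            mul_le_mul hle hρ v2.le i2.le
        _ = _ := by ring
    have h4 : 0 < 1 / p := by positivity
    nlinarith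
  unfold mahlerLp
  calc volume K₂ * ∫⁻ y : E n, ENNReal.ofReal (Real.exp (-supportLp p K₂ y))
      ≤ (ENNReal.ofReal ρ * volume K₁) * (ENNReal.ofReal (Real.exp ((1 / p) * Real.log ρ)) *
        ∫⁻ y : E n, ENNReal.ofReal (Real.exp (-supportLp p K₁ y))) := by
        refine mul_le_mul' ?_ ?_
        · rw [← ENNReal.ofReal_toReal h2.measure_lt_top.ne,
            ← ENNReal.ofReal_toReal h1.measure_lt_top.ne, ← ENNReal.ofReal_mul hρ0.le]
          exact ENNReal.ofReal_le_ofReal hρ
        · rw [← lintegral_const_mul' _ _ ENNReal.ofReal_ne_top]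
          refine lintegral_mono fun y => ?_
          rw [← ENNReal.ofReal_mul (Real.exp_pos _).le]
          exact ENNReal.ofReal_le_ofReal (hpt y)
    _ = _ := by
        rw [ENNReal.ofReal_mul hρ0.le]
        ring

/-- cancellation -/
lemma cancel {Q K : Set (E n)} (hQ : Convex ℝ Q) (hQc : IsClosed Q) (hK : IsCompact K) {r η ε : ℝ}
    (hr : 0 < r) (hball : Metric.closedBall (0 : E n) r ⊆ K) (hε0 : 0 ≤ ε) (hε1 : ε ≤ 1)
    (hη : η ≤ ε * r) (hKQ : ∀ x ∈ K, ∃ q ∈ Q, ‖x - q‖ ≤ η) :
    ∀ x ∈ K, (1 - ε) • x ∈ Q := by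
  intro x hx
  by_contra hxQ
  obtain ⟨f, u, hfu, hf⟩ := geometric_hahn_banach_point_closed hQ hQc hxQ
  obtain ⟨b, hb, hmin⟩ := hK.exists_isMinOn ⟨x, hx⟩ f.continuous.continuousOn
  obtain ⟨q, hq, hbq⟩ := hKQ b hb
  -- the minimum is small
  set w : E n := (InnerProductSpace.toDual ℝ (E n)).symm f with hw
  have hfw : ∀ y, f y = inner ℝ w y := fun y => by
    rw [hw, InnerProductSpace.toDual_symm_apply]
  have hm : f b ≤ -(r * ‖w‖) := by
    rcases eq_or_ne w 0 with h0 | h0
    · have h1 := hmin (hball (Metric.mem_closedBall_self hr.le))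
      simp only [mem_ofPred_eq] at h1
      rw [map_zero] at h1
      rw [h0]; simpa using h1
    · have hwn : 0 < ‖w‖ := norm_pos_iff.2 h0
      have h1 : (-(r / ‖w‖)) • w ∈ Metric.closedBall (0 : E n) r := by
        rw [mem_closedBall_zero_iff, norm_smul, norm_neg, Real.norm_of_nonneg (by positivity)]
        rw [div_mul_cancel₀ _ hwn.ne']
      have h2 := hmin (hball h1)
      simp only [mem_ofPred_eq] at h2
      rw [hfw ((-(r / ‖w‖)) • w), inner_smul_right, real_inner_self_eq_norm_sq] at h2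
      have h3 : -(r / ‖w‖) * ‖w‖ ^ 2 = -(r * ‖w‖) := by field_simp
      linarith
  have h1 : f b - f q ≥ -(η * ‖w‖) := by
    rw [← map_sub, hfw]
    have h2 := abs_real_inner_le_norm w (b - q)
    have h3 : ‖w‖ * ‖b - q‖ ≤ ‖w‖ * η := mul_le_mul_of_nonneg_left hbq (norm_nonneg _)
    have h4 := neg_abs_le (inner ℝ w (b - q) : ℝ)
    nlinarith
  have h2 : u < f q := hf q hq
  have h3 : f b ≤ f x := hmin hx
  have h4 : f ((1 - ε) • x) = (1 - ε) * f x := by rw [map_smul, smul_eq_mul]
  have h5 : (1 - ε) * f b ≤ (1 - ε) * f x := mul_le_mul_of_nonneg_left h3 (by linarith)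
  have h6 : η * ‖w‖ ≤ ε * r * ‖w‖ := mul_le_mul_of_nonneg_right hη (norm_nonneg _)
  have h7 : ε * f b ≤ ε * -(r * ‖w‖) := mul_le_mul_of_nonneg_left hm hε0
  nlinarith

/-- **joins of planar compact sets and points** -/
theorem joins_compact (hp : 0 < p) {k m : ℕ} (hkm : 3 * k + m ≤ n + 1) (L : Fin k → Set (E n))
    (hL : ∀ i, IsCompact (L i)) (D : Fin k → Submodule ℝ (E n))
    (hD : ∀ i, Module.finrank ℝ (D i) ≤ 2) (o : Fin k → E n)
    (hLD : ∀ i, ∀ x ∈ L i, x - o i ∈ D i) (A : Finset (E n)) (hA : A.card ≤ m)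
    (hint : (interior (convexHull ℝ ((⋃ i, L i) ∪ ↑A))).Nonempty) (z : E n) :
    minS p n ≤ mahlerLp p ((fun x => x - z) '' convexHull ℝ ((⋃ i, L i) ∪ ↑A)) := by
  classical
  set K : Set (E n) := convexHull ℝ ((⋃ i, L i) ∪ ↑A) with hK
  have hKc : IsCompact K :=
    Pool.Agent.H73R3.compact_hull ((isCompact_iUnion hL).union A.finite_toSet.isCompact)
  have hKv : Convex ℝ K := convex_convexHull ℝ _
  set K' : Set (E n) := (fun x => x - z) '' K with hK'
  have hK'c : IsCompact K' := hKc.image (by fun_prop)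
  have hsub : ∀ X : Set (E n), (fun x => x - z) '' X = (fun x => -z + x) '' X := fun X =>
    image_congr fun x _ => by abel
  have hK'v : Convex ℝ K' := by rw [hK', hsub]; exact hKv.translate (-z)
  have hK'i : (interior K').Nonempty := by
    rw [hK', interior_sub]; exact hint.image _
  by_cases h0 : (0 : E n) ∈ interior K'
  swap
  · rw [mahler_eq_top hp hK'c hK'v hK'i h0]
    exact le_top
  have hfin := mahler_ne_top hp hK'c hK'v h0
  obtain ⟨r, hr, hball⟩ := Metric.mem_nhds_iff.1 (mem_interior_iff_mem_nhds.1 h0)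
  have hball' : Metric.closedBall (0 : E n) (r / 2) ⊆ K' :=
    (Metric.closedBall_subset_ball (by linarith)).trans hball
  -- the estimate for each `ε`
  have key : ∀ ε : ℝ, 0 < ε → ε < 1 → minS p n ≤
      ENNReal.ofReal ((1 - ε)⁻¹ ^ n * Real.exp ((1 / p) * Real.log ((1 - ε)⁻¹ ^ n))) *
        mahlerLp p K' := by
    intro ε hε0 hε1
    have hη : 0 < ε * (r / 2) := by positivity
    have hnet : ∀ i, ∃ t ⊆ L i, t.Finite ∧ L i ⊆ ⋃ x ∈ t, Metric.ball x (ε * (r / 2)) :=
      fun i => (hL i).finite_cover_balls hη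
    choose t htL htf htc using hnet
    set S : Fin k → Finset (E n) := fun i => (htf i).toFinset with hS
    have hSt : ∀ i, (S i : Set (E n)) = t i := fun i => by simp [hS]
    set Q : Set (E n) := convexHull ℝ ((⋃ i, (S i : Set (E n))) ∪ ↑A) with hQ
    have hQK : Q ⊆ K := by
      apply convexHull_mono
      refine union_subset_union_left _ (iUnion_mono fun i => ?_)
      rw [hSt]; exact htL i
    have hQc : IsCompact Q := Pool.Agent.H73R3.compact_hull
      ((isCompact_iUnion fun i => (S i).finite_toSet.isCompact).union A.finite_toSet.isCompact)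
    have hnear : ∀ x ∈ K, ∃ q ∈ Q, ‖x - q‖ ≤ ε * (r / 2) := by
      intro x hx
      have h : K ⊆ {x | ∃ q ∈ Q, ‖x - q‖ ≤ ε * (r / 2)} := by
        refine convexHull_min ?_ ?_
        · rintro y (hy | hy)
          · obtain ⟨i, hi⟩ := mem_iUnion.1 hy
            obtain ⟨s, hs, hys⟩ := mem_iUnion₂.1 (htc i hi)
            refine ⟨s, subset_convexHull ℝ _ (Or.inl (mem_iUnion.2 ⟨i, ?_⟩)), ?_⟩
            · rw [hSt]; exact hs
            · rw [← dist_eq_norm]; exact (Metric.mem_ball.1 hys).le
          · exact ⟨y, subset_convexHull ℝ _ (Or.inr hy), by simp; positivity⟩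
        · rintro y ⟨q, hq, hyq⟩ y' ⟨q', hq', hyq'⟩ a b ha hb hab
          refine ⟨a • q + b • q', (convex_convexHull ℝ _) hq hq' ha hb hab, ?_⟩
          have h1 : a • y + b • y' - (a • q + b • q') = a • (y - q) + b • (y' - q') := by module
          rw [h1]
          refine (norm_add_le _ _).trans ?_
          rw [norm_smul, norm_smul, Real.norm_of_nonneg ha, Real.norm_of_nonneg hb]
          calc a * ‖y - q‖ + b * ‖y' - q'‖ ≤ a * (ε * (r / 2)) + b * (ε * (r / 2)) := by gcongr
            _ = ε * (r / 2) := by rw [← add_mul, hab, one_mul]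
      exact h hx
    set Q' : Set (E n) := (fun x => x - z) '' Q with hQ'
    have hQ'c : IsCompact Q' := hQc.image (by fun_prop)
    have hQ'v : Convex ℝ Q' := by
      rw [hQ', hsub]; exact (convex_convexHull ℝ _).translate (-z)
    have hnear' : ∀ x ∈ K', ∃ q ∈ Q', ‖x - q‖ ≤ ε * (r / 2) := by
      rintro _ ⟨x, hx, rfl⟩
      obtain ⟨q, hq, hxq⟩ := hnear x hx
      refine ⟨q - z, ⟨q, hq, rfl⟩, ?_⟩
      have : x - z - (q - z) = x - q := by abel
      rw [this]; exact hxq
    have hcan := cancel hQ'v hQ'c.isClosed hK'c (by positivity) hball' hε0.le hε1.le le_rfl hnear'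
    have hτ : (0 : ℝ) < 1 - ε := by linarith
    -- the dilate of `Q'`
    set Am : E n ≃ₗ[ℝ] E n := LinearEquiv.smulOfNeZero ℝ (E n) (1 - ε)⁻¹ (inv_ne_zero hτ.ne') with hAm
    have hAmx : ∀ x, Am x = (1 - ε)⁻¹ • x := fun x => rfl
    have hK'Q : K' ⊆ Am '' Q' := by
      intro x hx
      refine ⟨_, hcan x hx, ?_⟩
      rw [hAmx, smul_smul, inv_mul_cancel₀ hτ.ne', one_smul]
    have hAc : IsCompact (Am '' Q') := hQ'c.image (by
      exact LinearMap.continuous_of_finiteDimensional (Am : E n →ₗ[ℝ] E n))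
    have hVK' : 0 < volume K' :=
      (isOpen_interior.measure_pos volume hK'i).trans_le (measure_mono interior_subset)
    have hvA : volume.real (Am '' Q') = (1 - ε)⁻¹ ^ n * volume.real Q' := by
      have h1 : Am '' Q' = (1 - ε)⁻¹ • Q' := by
        rw [← image_smul]
        rfl
      unfold Measure.real
      rw [h1, Measure.addHaar_smul, ENNReal.toReal_mul, abs_of_pos (by positivity),
        ENNReal.toReal_ofReal (by positivity)]
      simp
    have hQ'K' : Q' ⊆ K' := image_mono hQK
    have hvle : volume.real (Am '' Q') ≤ (1 - ε)⁻¹ ^ n * volume.real K' := by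
      rw [hvA]
      exact mul_le_mul_of_nonneg_left (measureReal_mono hQ'K' hK'c.measure_lt_top.ne)
        (by positivity)
    have hVQ' : 0 < volume Q' := by
      have h1 : 0 < volume (Am '' Q') := hVK'.trans_le (measure_mono hK'Q)
      have h2 : 0 < volume.real (Am '' Q') :=
        ENNReal.toReal_pos h1.ne' hAc.measure_lt_top.ne
      rw [hvA] at h2
      have h3 : 0 < volume.real Q' := by
        by_contra h
        have : volume.real Q' = 0 := le_antisymm (not_lt.1 h) measureReal_nonneg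
        rw [this, mul_zero] at h2
        exact lt_irrefl _ h2
      exact (ENNReal.toReal_pos_iff.1 h3).1
    have h1 := mahler_nested hp hK'c hAc hK'Q hVK' hvle
    rw [mahler_linear Am hQ'c hVQ'] at h1
    refine le_trans ?_ h1
    have hintQ : (interior Q).Nonempty := by
      have hQ'i : (interior Q').Nonempty := by
        refine ⟨0, mem_interior_iff_mem_nhds.2 (Metric.mem_nhds_iff.2
          ⟨(1 - ε) * r, by positivity, fun y hy => ?_⟩)⟩
        have h3 : (1 - ε)⁻¹ • y ∈ K' := by
          apply hball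
          rw [mem_ball_zero_iff] at hy ⊢
          rw [norm_smul, norm_inv, Real.norm_of_nonneg hτ.le, inv_mul_lt_iff₀ hτ]
          exact hy
        have h4 := hcan _ h3
        rwa [smul_smul, mul_inv_cancel₀ hτ.ne', one_smul] at h4
      rw [hQ', interior_sub] at hQ'i
      exact hQ'i.of_image
    exact joins hp k m hkm S D hD o (fun i x hx => hLD i x (htL i (by
      rw [← hSt]; exact hx))) A hA hintQ z
  -- passage to the limit
  have hlim : Tendsto (fun ε : ℝ => ENNReal.ofReal ((1 - ε)⁻¹ ^ n *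
      Real.exp ((1 / p) * Real.log ((1 - ε)⁻¹ ^ n))) * mahlerLp p K') (𝓝[>] 0)
      (𝓝 (ENNReal.ofReal 1 * mahlerLp p K')) := by
    refine ENNReal.Tendsto.mul_const ?_ (Or.inr hfin)
    refine ENNReal.tendsto_ofReal ?_
    have hc : ContinuousAt (fun ε : ℝ => (1 - ε)⁻¹ ^ n *
      Real.exp ((1 / p) * Real.log ((1 - ε)⁻¹ ^ n))) 0 := by
      have h1 : ContinuousAt (fun ε : ℝ => (1 - ε)⁻¹ ^ n) 0 := by
        refine ContinuousAt.pow ?_ n
        exact ContinuousAt.inv₀ (by fun_prop) (by norm_num)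
      refine h1.mul ?_
      refine Real.continuous_exp.continuousAt.comp ?_
      refine continuousAt_const.mul ?_
      exact h1.log (by simp)
    have h2 := hc.tendsto
    simp only [sub_zero, inv_one, one_pow, Real.log_one, mul_zero, Real.exp_zero, mul_one] at h2
    exact h2.mono_left nhdsWithin_le_nhds
  rw [ENNReal.ofReal_one, one_mul] at hlim
  refine ge_of_tendsto hlim ?_
  have h1 : ∀ᶠ ε : ℝ in 𝓝[>] 0, ε ∈ Ioo (0 : ℝ) 1 := Ioo_mem_nhdsGT one_pos
  filter_upwards [h1] with ε hε
  exact key ε hε.1 hε.2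

end Pool.Agent.Helper57K1.LM
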